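import Mathlib

section

/-!
# A small checker for identities of Lie rings

Lie trees in which the letter `z` occurs exactly once are rewritten as combinations of left normed
words starting with `z`.  `check z l = true` implies that the integer combination `l` of trees
vanishes in every Lie ring.
-/

set_option autoImplicit false

namespace Pool.Agent.Lib.MP_b4a71d_al.S

universe v

/-- Lie trees. -/
inductive Tr : Type
  | v : ℕ → Tr
  | b : Tr → Tr → Tr

namespace Tr

/-- Evaluation in a Lie ring. -/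
def ev {L : Type v} [LieRing L] (x : ℕ → L) : Tr → L
  | v i => x i
  | b l r => ⁅ev x l, ev x r⁆

/-- number of occurrences of `z` -/
def occ (z : ℕ) : Tr → ℕ
  | v i => if i = z then 1 else 0
  | b l r => occ z l + occ z r

/-- products of word polynomials -/
def wmul (p q : List (ℤ × List ℕ)) : List (ℤ × List ℕ) :=
  p.flatMap fun a => q.map fun c => (a.1 * c.1, a.2 ++ c.2)

/-- negation of a word polynomial -/
def wneg (p : List (ℤ × List ℕ)) : List (ℤ × List ℕ) := p.map fun a => (-a.1, a.2)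

/-- associative expansion -/
def asw : Tr → List (ℤ × List ℕ)
  | v i => [(1, [i])]
  | b l r => wmul (asw l) (asw r) ++ wneg (wmul (asw r) (asw l))

/-- normal form with respect to the letter `z` -/
def nf (z : ℕ) : Tr → List (ℤ × List ℕ)
  | v i => if i = z then [(1, [])] else []
  | b l r => wmul (nf z l) (asw r) ++ wneg (wmul (nf z r) (asw l))

variable {L : Type v} [LieRing L] (x : ℕ → L)

/-- left normed words -/
def lnw (y : L) (w : List ℕ) : L := w.foldl (fun u i => ⁅u, x i⁆) y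

/-- value of a word polynomial at `y` -/
def wev (y : L) (p : List (ℤ × List ℕ)) : L := (p.map fun a => a.1 • lnw x y a.2).sum

theorem wev_append (y : L) (p q : List (ℤ × List ℕ)) :
    wev x y (p ++ q) = wev x y p + wev x y q := by
  simp [wev]

theorem wev_wneg (y : L) (p : List (ℤ × List ℕ)) : wev x y (wneg p) = - wev x y p := by
  induction p with
  | nil => simp [wev, wneg]
  | cons a p ih =>
    simp only [wev, wneg, List.map_cons, List.sum_cons, List.map_map] at ih ⊢
    rw [neg_add, ← ih, neg_smul]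

theorem lnw_append (y : L) (u w : List ℕ) : lnw x y (u ++ w) = lnw x (lnw x y u) w := by
  simp [lnw]

theorem lnw_add (y y' : L) (w : List ℕ) : lnw x (y + y') w = lnw x y w + lnw x y' w := by
  induction w generalizing y y' with
  | nil => rfl
  | cons i w ih => simp only [lnw, List.foldl_cons] at ih ⊢; rw [add_lie, ih]

theorem lnw_smul (n : ℤ) (y : L) (w : List ℕ) : lnw x (n • y) w = n • lnw x y w := by
  induction w generalizing y with
  | nil => rfl
  | cons i w ih => simp only [lnw, List.foldl_cons] at ih ⊢; rw [zsmul_lie, ih]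

theorem lnw_zero (w : List ℕ) : lnw x (0 : L) w = 0 := by
  have := lnw_smul x 0 (0 : L) w
  simpa using this

theorem wev_add (y y' : L) (p : List (ℤ × List ℕ)) :
    wev x (y + y') p = wev x y p + wev x y' p := by
  induction p with
  | nil => simp [wev]
  | cons a p ih =>
    simp only [wev, List.map_cons, List.sum_cons] at ih ⊢
    rw [ih, lnw_add, smul_add]; abel

theorem wev_smul (n : ℤ) (y : L) (p : List (ℤ × List ℕ)) : wev x (n • y) p = n • wev x y p := by
  induction p with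
  | nil => simp [wev]
  | cons a p ih =>
    simp only [wev, List.map_cons, List.sum_cons] at ih ⊢
    rw [ih, lnw_smul, smul_add, smul_comm]

theorem wev_zero (p : List (ℤ × List ℕ)) : wev x (0 : L) p = 0 := by
  have := wev_smul x 0 (0 : L) p
  simpa using this

theorem wev_wmul (y : L) (p q : List (ℤ × List ℕ)) :
    wev x y (wmul p q) = wev x (wev x y p) q := by
  induction p with
  | nil => rw [show wmul [] q = [] from rfl]; simp [wev, lnw_zero]
  | cons a p ih =>
    have h1 : wmul (a :: p) q = (q.map fun c => (a.1 * c.1, a.2 ++ c.2)) ++ wmul p q := by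
      simp [wmul]
    have h2 : wev x y (a :: p) = a.1 • lnw x y a.2 + wev x y p := by simp [wev]
    rw [h1, wev_append, ih, h2, wev_add, wev_smul]
    congr 1
    simp only [wev, List.map_map, List.smul_sum]
    congr 1
    apply List.map_congr_left
    intro c _
    simp only [Function.comp, lnw_append]
    rw [smul_smul]

theorem lie_lie_right (y a b : L) : ⁅y, ⁅a, b⁆⁆ = ⁅⁅y, a⁆, b⁆ - ⁅⁅y, b⁆, a⁆ := by
  rw [leibniz_lie, ← lie_skew a ⁅y, b⁆, sub_eq_add_neg]

theorem asw_spec (y : L) (t : Tr) : ⁅y, ev x t⁆ = wev x y (asw t) := by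
  induction t generalizing y with
  | v i => simp [ev, asw, wev, lnw]
  | b l r ihl ihr =>
    rw [asw, wev_append, wev_wneg, wev_wmul, wev_wmul, ← ihl, ← ihr, ← ihr, ← ihl, ev,
      lie_lie_right, sub_eq_add_neg]

theorem nf_zero (z : ℕ) (y : L) (t : Tr) (h : occ z t = 0) : wev x y (nf z t) = 0 := by
  induction t with
  | v i =>
    simp only [occ] at h
    have hi : i ≠ z := by
      intro hi
      rw [if_pos hi] at h
      exact one_ne_zero h
    simp [nf, hi, wev]
  | b l r ihl ihr =>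
    simp only [occ, Nat.add_eq_zero_iff] at h
    rw [nf, wev_append, wev_wneg, wev_wmul, wev_wmul, ihl h.1, ihr h.2, wev_zero, wev_zero,
      neg_zero, add_zero]

theorem nf_spec (z : ℕ) (t : Tr) (h : occ z t = 1) : ev x t = wev x (x z) (nf z t) := by
  induction t with
  | v i =>
    simp only [occ] at h
    have hi : i = z := by
      by_contra hi
      rw [if_neg hi] at h
      exact zero_ne_one h
    simp [nf, hi, wev, ev, lnw]
  | b l r ihl ihr =>
    simp only [occ] at h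
    rw [nf, wev_append, wev_wneg, wev_wmul, wev_wmul, ev]
    rcases Nat.eq_zero_or_pos (occ z l) with hl | hl
    · have hr : occ z r = 1 := by omega
      rw [nf_zero x z _ l hl, wev_zero, zero_add, ← ihr hr, ← asw_spec, lie_skew]
    · have hl1 : occ z l = 1 := by omega
      have hr : occ z r = 0 := by omega
      rw [nf_zero x z _ r hr, wev_zero, neg_zero, add_zero, ← ihl hl1, ← asw_spec]

/-- do all coefficients cancel? -/
def vanish : ℕ → List (ℤ × List ℕ) → Bool
  | _, [] => true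
  | 0, _ => false
  | n + 1, a :: p =>
    decide (a.1 + ((p.filter fun c => c.2 = a.2).map Prod.fst).sum = 0) &&
      vanish n (p.filter fun c => ¬ c.2 = a.2)

theorem wev_filter (y : L) (w : List ℕ) (p : List (ℤ × List ℕ)) :
    wev x y p = ((p.filter fun c => c.2 = w).map Prod.fst).sum • lnw x y w +
      wev x y (p.filter fun c => ¬ c.2 = w) := by
  induction p with
  | nil => simp [wev]
  | cons a p ih =>
    have h0 : wev x y (a :: p) = a.1 • lnw x y a.2 + wev x y p := by simp [wev]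
    by_cases h : a.2 = w
    · rw [h0, ih]
      simp [h, add_smul, add_assoc]
    · rw [h0, ih]
      have h1 : wev x y ((a :: p).filter fun c => ¬ c.2 = w) =
          a.1 • lnw x y a.2 + wev x y (p.filter fun c => ¬ c.2 = w) := by
        simp [h, wev]
      rw [h1]
      simp only [h, List.filter_cons, decide_false, Bool.false_eq_true, ↓reduceIte]
      abel

theorem vanish_spec (y : L) : ∀ (n : ℕ) (p : List (ℤ × List ℕ)), vanish n p = true →
    wev x y p = 0
  | _, [], _ => by simp [wev]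
  | 0, a :: p, h => by simp [vanish] at h
  | n + 1, a :: p, h => by
    rw [vanish, Bool.and_eq_true, decide_eq_true_eq] at h
    have h0 : wev x y (a :: p) = a.1 • lnw x y a.2 + wev x y p := by simp [wev]
    rw [h0, wev_filter x y a.2 p, vanish_spec y n _ h.2, add_zero, ← add_smul, h.1, zero_smul]

/-- value of an integer combination of trees -/
def cev (l : List (ℤ × Tr)) : L := (l.map fun a => a.1 • ev x a.2).sum

/-- normal form of a combination -/
def cnf (z : ℕ) (l : List (ℤ × Tr)) : List (ℤ × List ℕ) :=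
  l.flatMap fun a => (nf z a.2).map fun c => (a.1 * c.1, c.2)

/-- the checker -/
def check (z : ℕ) (l : List (ℤ × Tr)) : Bool :=
  (l.all fun a => occ z a.2 = 1) && vanish 5040 (cnf z l)

theorem check_spec (z : ℕ) (l : List (ℤ × Tr)) (h : check z l = true) : cev x l = 0 := by
  rw [check, Bool.and_eq_true] at h
  obtain ⟨h1, h2⟩ := h
  have h3 : cev x l = wev x (x z) (cnf z l) := by
    clear h2
    induction l with
    | nil => simp [cev, cnf, wev]
    | cons a l ih =>
      simp only [List.all_cons, Bool.and_eq_true, decide_eq_true_eq] at h1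
      have h4 : cnf z (a :: l) = (nf z a.2).map (fun c => (a.1 * c.1, c.2)) ++ cnf z l := by
        simp [cnf]
      have h5 : cev x (a :: l) = a.1 • ev x a.2 + cev x l := by simp [cev]
      rw [h4, h5, wev_append, ih h1.2, nf_spec x z a.2 h1.1]
      congr 1
      simp only [wev, List.map_map, List.smul_sum]
      congr 1
      apply List.map_congr_left
      intro c _
      simp only [Function.comp, smul_smul]
  rw [h3]
  exact vanish_spec x _ _ _ h2

/-- scaling a combination -/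
def csmul (n : ℤ) (l : List (ℤ × Tr)) : List (ℤ × Tr) := l.map fun a => (n * a.1, a.2)

theorem cev_append (l m : List (ℤ × Tr)) : cev x (l ++ m) = cev x l + cev x m := by simp [cev]

theorem cev_csmul (n : ℤ) (l : List (ℤ × Tr)) : cev x (csmul n l) = n • cev x l := by
  simp only [cev, csmul, List.map_map, List.smul_sum]
  congr 1
  apply List.map_congr_left
  intro a _
  simp only [Function.comp, smul_smul]

end Tr

end Pool.Agent.Lib.MP_b4a71d_al.S
end

section

/-!
# MP_b4a71d_al, S point: the law of `sl₂` and its consequences in degrees 5 and 6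

`phi a b c d` plays the role of `2 (a·b) [c,d]`, where `(a·b)` is the invariant form of the cross
product algebra.  `Law L`: `[phi a b c d, v] = phi a b [c,d] v`.
-/

set_option autoImplicit false

namespace Pool.Agent.Lib.MP_b4a71d_al.S

universe v

section

variable {L : Type v} [LieRing L]

/-- `2 (a·b) [c,d]` -/
def phi (a b c d : L) : L :=
  ⁅⁅a, c⁆, ⁅b, d⁆⁆ - ⁅⁅a, d⁆, ⁅b, c⁆⁆ - ⁅⁅⁅c, d⁆, a⁆, b⁆ - ⁅⁅⁅c, d⁆, b⁆, a⁆

variable (L) in
/-- the degree five law -/
def Law : Prop := ∀ a b c d v : L, ⁅phi a b c d, v⁆ = phi a b ⁅c, d⁆ v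

theorem phi_comm (a b c d : L) : phi a b c d = phi b a c d := by
  rw [phi, phi, ← lie_skew ⁅b, c⁆ ⁅a, d⁆, ← lie_skew ⁅b, d⁆ ⁅a, c⁆]
  abel

theorem phi_skew (a b c d : L) : phi a b d c = - phi a b c d := by
  rw [phi, phi, ← lie_skew d c, neg_lie, neg_lie, neg_lie, neg_lie]
  abel

theorem phi_self (a b c : L) : phi a b c c = 0 := by
  simp [phi]

theorem phi_add_left (a a' b c d : L) : phi (a + a') b c d = phi a b c d + phi a' b c d := by
  simp only [phi, add_lie, lie_add]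
  abel

theorem phi_add_right (a b c d d' : L) : phi a b c (d + d') = phi a b c d + phi a b c d' := by
  simp only [phi, add_lie, lie_add]
  abel

theorem phi_add_mid (a b c c' d : L) : phi a b (c + c') d = phi a b c d + phi a b c' d := by
  simp only [phi, add_lie, lie_add]
  abel

theorem phi_zero_mid (a b d : L) : phi a b 0 d = 0 := by
  simp [phi]

theorem phi_neg_mid (a b c d : L) : phi a b (-c) d = - phi a b c d := by
  simp only [phi, neg_lie, lie_neg]
  abel

theorem phi_sub_mid (a b c c' d : L) : phi a b (c - c') d = phi a b c d - phi a b c' d := by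
  rw [sub_eq_add_neg, phi_add_mid, phi_neg_mid, sub_eq_add_neg]

namespace Tr

/-- tree of `phi` -/
def phiT (p q r s : Tr) : List (ℤ × Tr) :=
  [(1, b (b p r) (b q s)), (-1, b (b p s) (b q r)), (-1, b (b (b r s) p) q),
    (-1, b (b (b r s) q) p)]

theorem cev_phiT (x : ℕ → L) (p q r s : Tr) :
    cev x (phiT p q r s) = phi (ev x p) (ev x q) (ev x r) (ev x s) := by
  simp only [cev, phiT, List.map_cons, List.map_nil, List.sum_cons, List.sum_nil, ev, phi, one_smul,
    neg_smul, add_zero]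
  abel

/-- bracket of a combination with a tree -/
def brT (l : List (ℤ × Tr)) (t : Tr) : List (ℤ × Tr) := l.map fun a => (a.1, b a.2 t)

theorem cev_brT (x : ℕ → L) (l : List (ℤ × Tr)) (t : Tr) :
    cev x (brT l t) = ⁅cev x l, ev x t⁆ := by
  induction l with
  | nil => simp [cev, brT]
  | cons a l ih =>
    have h1 : cev x (brT (a :: l) t) = a.1 • ⁅ev x a.2, ev x t⁆ + cev x (brT l t) := by
      simp [cev, brT, ev]
    have h2 : cev x (a :: l) = a.1 • ev x a.2 + cev x l := by simp [cev]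
    rw [h1, h2, ih, add_lie, zsmul_lie]

/-- tree of the law -/
def thT (p q r s t : Tr) : List (ℤ × Tr) :=
  brT (phiT p q r s) t ++ csmul (-1) (phiT p q (b r s) t)

theorem cev_thT (x : ℕ → L) (p q r s t : Tr) :
    cev x (thT p q r s t) = ⁅phi (ev x p) (ev x q) (ev x r) (ev x s), ev x t⁆ -
      phi (ev x p) (ev x q) ⁅ev x r, ev x s⁆ (ev x t) := by
  rw [thT, cev_append, cev_csmul, cev_brT, cev_phiT, cev_phiT, ev, neg_smul, one_smul,
    sub_eq_add_neg]

theorem cev_thT_zero (h : Law L) (x : ℕ → L) (p q r s t : Tr) : cev x (thT p q r s t) = 0 := by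
  rw [cev_thT, h, sub_self]

end Tr

/-- five elements as a valuation -/
def val5 (a b c d e : L) : ℕ → L
  | 0 => a
  | 1 => b
  | 2 => c
  | 3 => d
  | _ => e

open Tr in
theorem two_lie4 (a b c d : L) :
    (2 : ℤ) • ⁅⁅⁅a, b⁆, c⁆, d⁆ = phi a c b d - phi b c a d := by
  have h := check_spec (val5 a b c d 0) 0
    ((2, Tr.b (Tr.b (Tr.b (Tr.v 0) (Tr.v 1)) (Tr.v 2)) (Tr.v 3)) ::
      (csmul (-1) (phiT (Tr.v 0) (Tr.v 2) (Tr.v 1) (Tr.v 3)) ++
        phiT (Tr.v 1) (Tr.v 2) (Tr.v 0) (Tr.v 3))) (by decide +kernel)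
  rw [← List.singleton_append, cev_append, cev_append, cev_csmul, cev_phiT, cev_phiT] at h
  simp only [cev, List.map_cons, List.map_nil, List.sum_cons, List.sum_nil, ev, val5,
    add_zero] at h
  rw [neg_smul, one_smul] at h
  rw [← sub_eq_zero, ← h]
  abel

open Tr in
theorem law_jacobi (h : Law L) (a b c d e : L) :
    ⁅phi a b c d, e⁆ + ⁅phi a b d e, c⁆ + ⁅phi a b e c, d⁆ = 0 := by
  have h1 := check_spec (val5 a b c d e) 0
    (brT (phiT (Tr.v 0) (Tr.v 1) (Tr.v 2) (Tr.v 3)) (Tr.v 4) ++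
      brT (phiT (Tr.v 0) (Tr.v 1) (Tr.v 3) (Tr.v 4)) (Tr.v 2) ++
      brT (phiT (Tr.v 0) (Tr.v 1) (Tr.v 4) (Tr.v 2)) (Tr.v 3) ++
      thT (Tr.v 0) (Tr.v 2) (Tr.v 3) (Tr.v 4) (Tr.v 1) ++
      thT (Tr.v 1) (Tr.v 2) (Tr.v 3) (Tr.v 4) (Tr.v 0)) (by decide +kernel)
  simp only [cev_append, cev_brT, cev_phiT, cev_thT_zero h, add_zero, ev, val5] at h1
  exact h1

open Tr in
theorem law_cyc (h : Law L) (a b c d e : L) : phi ⁅a, b⁆ c d e = phi ⁅b, c⁆ a d e := by
  have h1 := check_spec (val5 a b c d e) 0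
    (phiT (Tr.b (Tr.v 0) (Tr.v 1)) (Tr.v 2) (Tr.v 3) (Tr.v 4) ++
      csmul (-1) (phiT (Tr.b (Tr.v 1) (Tr.v 2)) (Tr.v 0) (Tr.v 3) (Tr.v 4)) ++
      csmul (-1) (thT (Tr.v 0) (Tr.v 3) (Tr.v 1) (Tr.v 2) (Tr.v 4)) ++
      thT (Tr.v 2) (Tr.v 3) (Tr.v 0) (Tr.v 1) (Tr.v 4)) (by decide +kernel)
  simp only [cev_append, cev_csmul, cev_phiT, cev_thT_zero h, add_zero, ev, val5, smul_zero] at h1
  rw [neg_smul, one_smul, ← sub_eq_add_neg] at h1
  exact sub_eq_zero.1 h1

/-- `E1 a c d e b` is the difference of the vertices `(ac|de;b)` and `(bc|de;a)` -/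
def E1 (a c d e b : L) : L := ⁅phi d e a b, c⁆

/-- sixty times the potential at the vertex `(ac|de;b)` -/
def F5 (a c d e b : L) : L :=
  (14 : ℤ) • (E1 a c d e b + E1 c a d e b + E1 d e a c b + E1 e d a c b) +
  (5 : ℤ) • (E1 d e b c a + E1 e d b c a + E1 d e a b c + E1 e d a b c + E1 a c b e d +
    E1 c a b e d + E1 a c b d e + E1 c a b d e) +
  (E1 b c a e d + E1 b c a d e + E1 b a c e d + E1 b a c d e + E1 b e c d a + E1 b e a d c +
    E1 b d c e a + E1 b d a e c)

namespace Tr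

/-- tree of `E1` -/
def E1T (a c d e b' : Tr) : List (ℤ × Tr) := brT (phiT d e a b') c

theorem cev_E1T (x : ℕ → L) (a c d e b' : Tr) :
    cev x (E1T a c d e b') = E1 (ev x a) (ev x c) (ev x d) (ev x e) (ev x b') := by
  rw [E1T, cev_brT, cev_phiT, E1]

/-- tree of `F5` -/
def F5T (a c d e b : Tr) : List (ℤ × Tr) :=
  csmul 14 (E1T a c d e b ++ E1T c a d e b ++ E1T d e a c b ++ E1T e d a c b) ++
  csmul 5 (E1T d e b c a ++ E1T e d b c a ++ E1T d e a b c ++ E1T e d a b c ++ E1T a c b e d ++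
    E1T c a b e d ++ E1T a c b d e ++ E1T c a b d e) ++
  (E1T b c a e d ++ E1T b c a d e ++ E1T b a c e d ++ E1T b a c d e ++ E1T b e c d a ++
    E1T b e a d c ++ E1T b d c e a ++ E1T b d a e c)

theorem cev_F5T (x : ℕ → L) (a c d e b' : Tr) :
    cev x (F5T a c d e b') = F5 (ev x a) (ev x c) (ev x d) (ev x e) (ev x b') := by
  simp only [F5T, cev_append, cev_csmul, cev_E1T, F5]

end Tr

open Tr in
theorem law_potential (h : Law L) (a c d e b : L) :
    F5 a c d e b - F5 b c d e a = (60 : ℤ) • ⁅phi d e a b, c⁆ := by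
  have h1 := check_spec (val5 a c d e b) 0
    (F5T (Tr.v 0) (Tr.v 1) (Tr.v 2) (Tr.v 3) (Tr.v 4) ++
      csmul (-1) (F5T (Tr.v 4) (Tr.v 1) (Tr.v 2) (Tr.v 3) (Tr.v 0)) ++
      csmul (-60) (brT (phiT (Tr.v 2) (Tr.v 3) (Tr.v 0) (Tr.v 4)) (Tr.v 1)) ++
      csmul (-10) (thT (Tr.v 2) (Tr.v 3) (Tr.v 1) (Tr.v 4) (Tr.v 0)) ++
      csmul (-20) (thT (Tr.v 1) (Tr.v 3) (Tr.v 2) (Tr.v 4) (Tr.v 0)) ++
      csmul 40 (thT (Tr.v 2) (Tr.v 3) (Tr.v 0) (Tr.v 4) (Tr.v 1)) ++
      csmul (-20) (thT (Tr.v 1) (Tr.v 2) (Tr.v 3) (Tr.v 4) (Tr.v 0)) ++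
      csmul 10 (thT (Tr.v 2) (Tr.v 3) (Tr.v 0) (Tr.v 1) (Tr.v 4))) (by decide +kernel)
  simp only [cev_append, cev_csmul, cev_F5T, cev_brT, cev_phiT, cev_thT_zero h, add_zero, ev,
    val5, smul_zero] at h1
  rw [← sub_eq_zero, ← h1]
  simp only [neg_smul, one_smul]
  abel

theorem E1_comm (a c d e b : L) : E1 a c d e b = E1 a c e d b := by
  rw [E1, E1, phi_comm]

theorem F5_swap (a c d e b : L) : F5 c a d e b = F5 a c d e b := by
  simp only [F5]
  rw [E1_comm d e c a b, E1_comm e d c a b, E1_comm d e b a c, E1_comm e d b a c,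
    E1_comm d e c b a, E1_comm e d c b a]
  abel

theorem F5_exch (a c d e b : L) : F5 d e a c b = F5 a c d e b := by
  simp only [F5]
  rw [E1_comm a c d b e, E1_comm c a d b e, E1_comm d e b a c, E1_comm e d b a c,
    E1_comm b e d c a, E1_comm b e d a c, E1_comm b d e c a, E1_comm b d e a c,
    E1_comm b c e a d, E1_comm b c d a e, E1_comm b a e c d, E1_comm b a d c e]
  abel

/-- the operator `s_{ab}` applied to the bilinear map `E` (twice the value) -/
def sg (E : L → L → L) (a b c d : L) : L :=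
  ⁅E a c, ⁅b, d⁆⁆ - ⁅E a d, ⁅b, c⁆⁆ - ⁅⁅E c d, a⁆, b⁆ - ⁅⁅E c d, b⁆, a⁆

theorem law_six (h : Law L) (z u x y c d : L) :
    (2 : ℤ) • phi ⁅⁅z, u⁆, x⁆ y c d = sg (phi z x) u y c d - sg (phi u x) z y c d := by
  have key : ∀ t : L, (2 : ℤ) • ⁅⁅⁅z, u⁆, x⁆, t⁆ = phi z x u t - phi u x z t :=
    fun t => two_lie4 z u x t
  have h1 : ∀ t : L, (2 : ℤ) • ⁅⁅c, d⁆, ⁅⁅z, u⁆, x⁆⁆ = ⁅phi z x c d, u⁆ - ⁅phi u x c d, z⁆ := by
    intro t
    rw [← lie_skew, smul_neg, key, phi_skew z x, phi_skew u x, ← h, ← h]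
    abel
  have h2 : (2 : ℤ) • ⁅⁅⁅c, d⁆, y⁆, ⁅⁅z, u⁆, x⁆⁆ =
      ⁅⁅phi z x c d, y⁆, u⁆ - ⁅⁅phi u x c d, y⁆, z⁆ := by
    rw [← lie_skew, smul_neg, key, phi_skew z x, phi_skew u x, ← h, ← h, ← h, ← h]
    abel
  have e : (2 : ℤ) • phi ⁅⁅z, u⁆, x⁆ y c d =
      ⁅(2 : ℤ) • ⁅⁅⁅z, u⁆, x⁆, c⁆, ⁅y, d⁆⁆ - ⁅(2 : ℤ) • ⁅⁅⁅z, u⁆, x⁆, d⁆, ⁅y, c⁆⁆ -
        ⁅(2 : ℤ) • ⁅⁅c, d⁆, ⁅⁅z, u⁆, x⁆⁆, y⁆ - (2 : ℤ) • ⁅⁅⁅c, d⁆, y⁆, ⁅⁅z, u⁆, x⁆⁆ := by
    simp only [phi, smul_sub, zsmul_lie]
  rw [e, key, key, h1 0, h2]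
  simp only [sg, sub_lie]
  abel

theorem sg_comm_of {E : L → L → L} (hs : ∀ x y, E x y = - E y x)
    (hp : ∀ c d v, E ⁅c, d⁆ v = ⁅E c d, v⁆) (a b c d : L) : sg E a b c d = sg E b a c d := by
  have h1 : ⁅E a c, ⁅b, d⁆⁆ = - ⁅E b d, ⁅a, c⁆⁆ := by rw [← hp, ← hp, hs]
  have h2 : ⁅E a d, ⁅b, c⁆⁆ = - ⁅E b c, ⁅a, d⁆⁆ := by rw [← hp, ← hp, hs]
  rw [sg, sg, h1, h2]
  abel

theorem law_comm (h : Law L) (p q a b c d : L) :
    sg (phi p q) a b c d = sg (phi a b) p q c d := by
  have hc : ∀ (p q a b : L), sg (phi p q) a b c d = sg (phi p q) b a c d := fun p q a b =>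
    sg_comm_of (fun x y => phi_skew p q y x) (fun c d v => (h p q c d v).symm) a b c d
  have hp : ∀ p q : L, (phi p q : L → L → L) = phi q p := by
    intro p q
    funext x y
    exact phi_comm p q x y
  have e1 := law_six h a p q b c d
  have e2 := law_six h q b a p c d
  rw [law_cyc h ⁅a, p⁆ q b c d] at e1
  rw [law_cyc h ⁅q, b⁆ a p c d, phi_comm ⁅a, p⁆ ⁅q, b⁆, e1] at e2
  rw [hc (a) q p b, hp a q] at e2
  rw [sub_right_inj] at e2
  rw [hp a b, hc b a p q, ← e2]

end

end Pool.Agent.Lib.MP_b4a71d_al.S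
end

section

/-!
# MP_b4a71d_al, S point: centroidal bilinear maps

`Cen E`: the bilinear map `E` behaves like `(c, d) ↦ s · [c, d]` with a scalar `s`.  The operators
`sg · a b` (multiplication by `2 (a·b)`) preserve this class and commute.
-/

set_option autoImplicit false

namespace Pool.Agent.Lib.MP_b4a71d_al.S

universe v

section

variable {L : Type v} [LieRing L]

/-- centroidal bilinear maps -/
structure Cen (E : L → L → L) : Prop where
  add_left : ∀ x y z, E (x + y) z = E x z + E y z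
  add_right : ∀ x y z, E x (y + z) = E x y + E x z
  self : ∀ x, E x x = 0
  skew : ∀ x y, E x y = - E y x
  jac : ∀ x y z, ⁅E x y, z⁆ + ⁅E y z, x⁆ + ⁅E z x, y⁆ = 0
  p1 : ∀ c d v, E ⁅c, d⁆ v = ⁅E c d, v⁆
  ce : ∀ a b c d v, E (phi a b c d) v = phi a b (E c d) v

theorem cen_lie (h : Law L) : Cen (fun x y : L => ⁅x, y⁆) where
  add_left := add_lie
  add_right := lie_add
  self := lie_self
  skew := fun x y => (lie_skew x y).symm
  jac := fun x y z => by
    have h1 := lie_jacobi x y z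
    rw [← lie_skew x ⁅y, z⁆, ← lie_skew y ⁅z, x⁆, ← lie_skew z ⁅x, y⁆] at h1
    have h2 : ⁅⁅x, y⁆, z⁆ + ⁅⁅y, z⁆, x⁆ + ⁅⁅z, x⁆, y⁆ =
        -(-⁅⁅y, z⁆, x⁆ + -⁅⁅z, x⁆, y⁆ + -⁅⁅x, y⁆, z⁆) := by abel
    rw [h2, h1, neg_zero]
  p1 := fun _ _ _ => rfl
  ce := fun a b c d v => h a b c d v

/-- the central extension of `L` by the abelian group `L` with the cocycle `E` -/
def CExt (E : L → L → L) (_ : Cen E) : Type v := L × L

variable {E : L → L → L}

instance (hE : Cen E) : AddCommGroup (CExt E hE) := inferInstanceAs (AddCommGroup (L × L))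

/-- the bracket is `[(x,u),(y,v)] = ([x,y], E x y)`; the Leibniz identity is `jac` and `p1` -/
instance (hE : Cen E) : LieRing (CExt E hE) where
  bracket x y := (⁅x.1, y.1⁆, E x.1 y.1)
  add_lie := by
    intro x y m
    exact Prod.ext (add_lie x.1 y.1 m.1) (hE.add_left x.1 y.1 m.1)
  lie_add := by
    intro x y m
    exact Prod.ext (lie_add x.1 y.1 m.1) (hE.add_right x.1 y.1 m.1)
  lie_self := by
    intro x
    exact Prod.ext (lie_self x.1) (hE.self x.1)
  leibniz_lie := by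
    intro x y m
    refine Prod.ext (leibniz_lie x.1 y.1 m.1) ?_
    change E x.1 ⁅y.1, m.1⁆ = E ⁅x.1, y.1⁆ m.1 + E y.1 ⁅x.1, m.1⁆
    have h1 := hE.jac x.1 y.1 m.1
    have h2 : ⁅E m.1 x.1, y.1⁆ = -⁅E x.1 m.1, y.1⁆ := by
      rw [hE.skew m.1 x.1, neg_lie]
    rw [hE.skew x.1 ⁅y.1, m.1⁆, hE.skew y.1 ⁅x.1, m.1⁆, hE.p1, hE.p1, hE.p1]
    rw [h2] at h1
    rw [← sub_eq_zero]
    have h3 : -⁅E y.1 m.1, x.1⁆ - (⁅E x.1 y.1, m.1⁆ + -⁅E x.1 m.1, y.1⁆) =
        -(⁅E x.1 y.1, m.1⁆ + ⁅E y.1 m.1, x.1⁆ + -⁅E x.1 m.1, y.1⁆) := by abel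
    rw [h3, h1, neg_zero]

/-- element of the extension -/
def CExt.mk (hE : Cen E) (x u : L) : CExt E hE := (x, u)

/-- second component -/
def CExt.snd (hE : Cen E) (x : CExt E hE) : L := (show L × L from x).2

private theorem CExt.lie_mk (hE : Cen E) (x y u v : L) :
    ⁅CExt.mk hE x u, CExt.mk hE y v⁆ = CExt.mk hE ⁅x, y⁆ (E x y) := rfl

private theorem CExt.sub_mk (hE : Cen E) (x y u v : L) :
    CExt.mk hE x u - CExt.mk hE y v = CExt.mk hE (x - y) (u - v) := rfl

private theorem CExt.add_mk (hE : Cen E) (x y u v : L) :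
    CExt.mk hE x u + CExt.mk hE y v = CExt.mk hE (x + y) (u + v) := rfl

private theorem CExt.zsmul_mk (hE : Cen E) (n : ℤ) (x u : L) :
    n • CExt.mk hE x u = CExt.mk hE (n • x) (n • u) := rfl

private theorem CExt.zero_mk (hE : Cen E) : (0 : CExt E hE) = CExt.mk hE 0 0 := rfl

private theorem CExt.mk_snd {hE : Cen E} {x y u v : L} (h : CExt.mk hE x u = CExt.mk hE y v) :
    u = v := congrArg (CExt.snd hE) h

private theorem CExt.eq_mk (hE : Cen E) (x : CExt E hE) :
    x = CExt.mk hE (show L × L from x).1 (show L × L from x).2 := rfl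

theorem CExt.snd_phi (hE : Cen E) (a b c d u₁ u₂ u₃ u₄ : L) :
    phi (CExt.mk hE a u₁) (CExt.mk hE b u₂) (CExt.mk hE c u₃) (CExt.mk hE d u₄) =
      CExt.mk hE (phi a b c d) (sg E a b c d) := by
  simp only [phi, sg, CExt.lie_mk, CExt.sub_mk, hE.p1]

/-- `(2)`: `sg E a b [c,d] v = phi a b (E c d) v` (from `p1` and `skew`) -/
theorem Cen.sg_lie (hE : Cen E) (a b c d v : L) : sg E a b ⁅c, d⁆ v = phi a b (E c d) v := by
  have h1 : ∀ x : L, E x ⁅c, d⁆ = ⁅x, E c d⁆ := fun x => by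
    rw [hE.skew, hE.p1, lie_skew]
  have h2 : ⁅E a v, ⁅b, ⁅c, d⁆⁆⁆ = ⁅⁅a, v⁆, ⁅b, E c d⁆⁆ := by
    rw [← hE.p1, hE.skew, hE.p1, h1, lie_skew]
  rw [sg, phi, h1, h2, hE.p1]

/-- `(K)`: `[sg E a b c d, v] = E (phi a b c d) v` (from `p1`) -/
theorem Cen.lie_sg (hE : Cen E) (a b c d v : L) : ⁅sg E a b c d, v⁆ = E (phi a b c d) v := by
  have hsub : ∀ x y z : L, E (x - y) z = E x z - E y z := fun x y z => by
    have h1 := hE.add_left (x - y) y z
    rw [sub_add_cancel] at h1
    rw [h1, add_sub_cancel_right]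
  simp only [sg, phi, hsub, sub_lie, hE.p1]

theorem Cen.sg_comm (hE : Cen E) (a b c d : L) : sg E a b c d = sg E b a c d :=
  sg_comm_of hE.skew hE.p1 a b c d

/-- the extension satisfies the law: the second component is
`E (phi a b c d) v = phi a b (E c d) v = sg E a b [c,d] v`. -/
theorem CExt.law (h : Law L) (hE : Cen E) : Law (CExt E hE) := by
  intro a b c d v
  rw [CExt.eq_mk hE a, CExt.eq_mk hE b, CExt.eq_mk hE c, CExt.eq_mk hE d, CExt.eq_mk hE v,
    CExt.snd_phi, CExt.lie_mk, CExt.lie_mk, CExt.snd_phi, h, hE.ce, hE.sg_lie]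

/-- `sg (sg E p q) a b c d` is the second component of `sg (phi p q) a b c d` computed in the
extension (use `lie_sg` and `p1`) -/
theorem CExt.sg_phi (hE : Cen E) (p q a b c d : L) :
    sg (phi (CExt.mk hE p 0) (CExt.mk hE q 0)) (CExt.mk hE a 0) (CExt.mk hE b 0)
      (CExt.mk hE c 0) (CExt.mk hE d 0) =
      CExt.mk hE (sg (phi p q) a b c d) (sg (sg E p q) a b c d) := by
  simp only [S.sg.eq_1 (phi (CExt.mk hE p 0) (CExt.mk hE q 0)), S.sg.eq_1 (phi p q),
    S.sg.eq_1 (S.sg E p q), CExt.snd_phi, CExt.lie_mk, CExt.sub_mk, hE.p1, hE.lie_sg]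

/-- from `law_comm` in the extension -/
theorem Cen.sg_sg (h : Law L) (hE : Cen E) (p q a b c d : L) :
    sg (sg E p q) a b c d = sg (sg E a b) p q c d := by
  have h1 := law_comm (CExt.law h hE) (CExt.mk hE p 0) (CExt.mk hE q 0) (CExt.mk hE a 0)
    (CExt.mk hE b 0) (CExt.mk hE c 0) (CExt.mk hE d 0)
  rw [CExt.sg_phi, CExt.sg_phi] at h1
  exact CExt.mk_snd h1

private theorem Cen.sub_left (hE : Cen E) (x y z : L) : E (x - y) z = E x z - E y z := by
  have h1 := hE.add_left (x - y) y z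
  rw [sub_add_cancel] at h1
  rw [h1, add_sub_cancel_right]

private theorem phi_lie_mid (h : Law L) (a b X Y v : L) :
    phi a b ⁅X, Y⁆ v = ⁅phi a b X Y, v⁆ := (h a b X Y v).symm

private theorem Cen.phi_sg (h : Law L) (hE : Cen E) (a b p q c d v : L) :
    phi a b (S.sg E p q c d) v = ⁅S.sg (S.sg E a b) p q c d, v⁆ := by
  have h1 : ∀ x y z : L, phi a b (E x y) z = ⁅S.sg E a b x y, z⁆ := fun x y z => by
    rw [← hE.ce, hE.lie_sg]
  simp only [S.sg.eq_1 E p q, S.sg.eq_1 (S.sg E a b) p q, phi_sub_mid, phi_lie_mid h, h1, sub_lie]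

private theorem Cen.sg_phi_mid (hE : Cen E) (a b p q c d v : L) :
    S.sg E a b (phi p q c d) v = phi a b (S.sg E p q c d) v := by
  have hadd : ∀ x y z : L, S.sg E a b (x + y) z = S.sg E a b x z + S.sg E a b y z := by
    intro x y z
    simp only [S.sg, hE.add_left, hE.add_right, add_lie, lie_add]
    abel
  have hsub : ∀ x y z : L, S.sg E a b (x - y) z = S.sg E a b x z - S.sg E a b y z := by
    intro x y z
    have h1 := hadd (x - y) y z
    rw [sub_add_cancel] at h1
    rw [h1, add_sub_cancel_right]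
  rw [phi, hsub, hsub, hsub, hE.sg_lie, hE.sg_lie, hE.sg_lie, hE.sg_lie, S.sg.eq_1 E p q,
    phi_sub_mid, phi_sub_mid, phi_sub_mid, hE.p1, hE.p1, hE.p1, hE.p1, hE.p1, hE.p1]

/-- The class is stable.  `jac`: by `lie_sg` the second component of `law_jacobi` in the extension.
`p1`: `sg E a b [c,d] v = phi a b (E c d) v = E (phi a b c d) v = [sg E a b c d, v]`.
`ce`: both sides of `sg E a b (phi p q c d) v = phi p q (sg E a b c d) v`: the left hand side is,
by additivity and `sg_lie`, equal to `phi a b (sg E p q c d) v`, and for all `E` in the class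
`phi a b (sg E p q c d) v = [sg (sg E a b) p q c d, v]` (additivity of `phi` in the third place,
`phi a b [X,Y] v = [phi a b X Y, v]`, `phi a b (E p c) Y = E (phi a b p c) Y = [sg E a b p c, Y]`
and so on), which is symmetric by `sg_sg`. -/
theorem Cen.sg (h : Law L) (hE : Cen E) (a b : L) : Cen (sg E a b) where
  add_left := by
    intro x y z
    simp only [S.sg, hE.add_left, hE.add_right, add_lie, lie_add]
    abel
  add_right := by
    intro x y z
    simp only [S.sg, hE.add_right, add_lie, lie_add]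
    abel
  self := by
    intro x
    simp [S.sg, hE.self]
  skew := by
    intro x y
    rw [S.sg, S.sg, hE.skew x y]
    simp only [neg_lie]
    abel
  jac := by
    intro x y z
    rw [hE.lie_sg, hE.lie_sg, hE.lie_sg]
    have h1 := law_jacobi (CExt.law h hE) (CExt.mk hE a 0) (CExt.mk hE b 0) (CExt.mk hE x 0)
      (CExt.mk hE y 0) (CExt.mk hE z 0)
    rw [CExt.snd_phi, CExt.snd_phi, CExt.snd_phi, CExt.lie_mk, CExt.lie_mk, CExt.lie_mk,
      CExt.add_mk, CExt.add_mk, CExt.zero_mk] at h1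
    exact CExt.mk_snd h1
  p1 := by
    intro c d v
    rw [hE.sg_lie, ← hE.ce, hE.lie_sg]
  ce := by
    intro p q c d v
    rw [hE.sg_phi_mid, hE.phi_sg h, hE.phi_sg h, hE.sg_sg h]

/-- second component of `two_lie4` in the extension -/
theorem Cen.two_lie (hE : Cen E) (a b c d : L) :
    (2 : ℤ) • ⁅⁅E a b, c⁆, d⁆ = S.sg E a c b d - S.sg E b c a d := by
  have h1 := two_lie4 (CExt.mk hE a 0) (CExt.mk hE b 0) (CExt.mk hE c 0) (CExt.mk hE d 0)
  rw [CExt.snd_phi, CExt.snd_phi, CExt.lie_mk, CExt.lie_mk, CExt.lie_mk, CExt.zsmul_mk,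
    CExt.sub_mk] at h1
  have h2 := CExt.mk_snd h1
  rw [← h2, hE.p1, hE.p1]

/-- `E1 a c d e b` for a general `E` -/
def G1 (E : L → L → L) (a c d e b : L) : L := ⁅sg E d e a b, c⁆

/-- sixty times the potential, for a general `E` -/
def G5 (E : L → L → L) (a c d e b : L) : L :=
  (14 : ℤ) • (G1 E a c d e b + G1 E c a d e b + G1 E d e a c b + G1 E e d a c b) +
  (5 : ℤ) • (G1 E d e b c a + G1 E e d b c a + G1 E d e a b c + G1 E e d a b c + G1 E a c b e d +
    G1 E c a b e d + G1 E a c b d e + G1 E c a b d e) +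
  (G1 E b c a e d + G1 E b c a d e + G1 E b a c e d + G1 E b a c d e + G1 E b e c d a +
    G1 E b e a d c + G1 E b d c e a + G1 E b d a e c)

/-- second components of `F5_swap`, `F5_exch`, `law_potential` in the extension -/
theorem G5_swap (hE : Cen E) (a c d e b : L) : G5 E c a d e b = G5 E a c d e b := by
  have hc : ∀ a c d e b : L, G1 E a c d e b = G1 E a c e d b := fun a c d e b => by
    rw [G1, G1, hE.sg_comm]
  simp only [G5]
  rw [hc d e c a b, hc e d c a b, hc d e b a c, hc e d b a c,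
    hc d e c b a, hc e d c b a]
  abel

theorem G5_exch (hE : Cen E) (a c d e b : L) : G5 E d e a c b = G5 E a c d e b := by
  have hc : ∀ a c d e b : L, G1 E a c d e b = G1 E a c e d b := fun a c d e b => by
    rw [G1, G1, hE.sg_comm]
  simp only [G5]
  rw [hc a c d b e, hc c a d b e, hc d e b a c, hc e d b a c,
    hc b e d c a, hc b e d a c, hc b d e c a, hc b d e a c,
    hc b c e a d, hc b c d a e, hc b a e c d, hc b a d c e]
  abel

private theorem CExt.E1_mk (hE : Cen E) (a c d e b : L) :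
    E1 (CExt.mk hE a 0) (CExt.mk hE c 0) (CExt.mk hE d 0) (CExt.mk hE e 0) (CExt.mk hE b 0) =
      CExt.mk hE (E1 a c d e b) (G1 E a c d e b) := by
  rw [E1, CExt.snd_phi, CExt.lie_mk, ← hE.lie_sg, E1, G1]

private theorem CExt.F5_mk (hE : Cen E) (a c d e b : L) :
    F5 (CExt.mk hE a 0) (CExt.mk hE c 0) (CExt.mk hE d 0) (CExt.mk hE e 0) (CExt.mk hE b 0) =
      CExt.mk hE (F5 a c d e b) (G5 E a c d e b) := by
  simp only [F5, G5, CExt.E1_mk, CExt.add_mk, CExt.zsmul_mk]

theorem Cen.potential5 (h : Law L) (hE : Cen E) (a c d e b : L) :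
    G5 E a c d e b - G5 E b c d e a = (60 : ℤ) • ⁅S.sg E d e a b, c⁆ := by
  have h1 := law_potential (CExt.law h hE) (CExt.mk hE a 0) (CExt.mk hE c 0) (CExt.mk hE d 0)
    (CExt.mk hE e 0) (CExt.mk hE b 0)
  rw [CExt.F5_mk, CExt.F5_mk, CExt.sub_mk, CExt.snd_phi, CExt.lie_mk, CExt.zsmul_mk] at h1
  rw [CExt.mk_snd h1, hE.lie_sg]

/-- the potential of the triangle (three times) -/
theorem Cen.potential3 (hE : Cen E) (a b c : L) :
    (⁅E a b, c⁆ + ⁅E c b, a⁆) - (⁅E b a, c⁆ + ⁅E c a, b⁆) = (3 : ℤ) • ⁅E a b, c⁆ := by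
  have h1 := hE.jac a b c
  have h2 : ⁅E a b, c⁆ = -⁅E b c, a⁆ - ⁅E c a, b⁆ := by
    rw [eq_sub_iff_add_eq, eq_neg_iff_add_eq_zero, ← h1]
    abel
  have h3 : (3 : ℤ) • ⁅E a b, c⁆ = ⁅E a b, c⁆ + ⁅E a b, c⁆ + ⁅E a b, c⁆ := by abel
  rw [h3, hE.skew c b, hE.skew b a, neg_lie, neg_lie]
  have h4 : ⁅E a b, c⁆ + -⁅E b c, a⁆ - (-⁅E a b, c⁆ + ⁅E c a, b⁆) =
      ⁅E a b, c⁆ + ⁅E a b, c⁆ + (-⁅E b c, a⁆ - ⁅E c a, b⁆) := by abel
  rw [h4, ← h2]

end

end Pool.Agent.Lib.MP_b4a71d_al.S
end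

section

/-!
# MP_b4a71d_al, S point: the action of monomials in the `s_{ab}`
-/

set_option autoImplicit false

namespace Pool.Agent.Lib.MP_b4a71d_al.S

universe u v w

section

variable {ι : Type u} {κ : Type w} {L : Type v} [LieRing L]

/-- the centroidal maps of `L` -/
def CenT (L : Type v) [LieRing L] : Type v := {E : L → L → L // Cen E}

theorem CenT.ext' {E E' : CenT L} (h : ∀ x y, E.1 x y = E'.1 x y) : E = E' :=
  Subtype.ext (funext fun x => funext fun y => h x y)

/-- the bracket -/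
def E0 (h : Law L) : CenT L := ⟨fun x y => ⁅x, y⁆, cen_lie h⟩

/-- multiplication by `2 (x_a · x_b)` for an unordered pair of letters -/
def opS (h : Law L) (x : ι → L) (p : Sym2 ι) (E : CenT L) : CenT L :=
  ⟨Sym2.lift ⟨fun a b => sg E.1 (x a) (x b), fun a b => by
      funext c d
      exact E.2.sg_comm (x a) (x b) c d⟩ p, by
    induction p using Sym2.ind with
    | _ a b => exact E.2.sg h (x a) (x b)⟩

theorem opS_mk (h : Law L) (x : ι → L) (a b : ι) (E : CenT L) :
    (opS h x s(a, b) E).1 = sg E.1 (x a) (x b) := rfl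

instance (h : Law L) (x : ι → L) : LeftCommutative (opS h x) where
  left_comm p q E := by
    induction p using Sym2.ind with
    | _ a b =>
      induction q using Sym2.ind with
      | _ c d =>
        apply CenT.ext'
        intro y z
        exact E.2.sg_sg h (x c) (x d) (x a) (x b) y z

/-- action of a monomial, i.e. of a multiset of unordered pairs of letters -/
def smon (h : Law L) (x : ι → L) (M : Multiset (Sym2 ι)) (E : CenT L) : CenT L :=
  M.foldr (opS h x) E

theorem smon_zero (h : Law L) (x : ι → L) (E : CenT L) : smon h x 0 E = E := rfl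

theorem smon_cons (h : Law L) (x : ι → L) (p : Sym2 ι) (M : Multiset (Sym2 ι)) (E : CenT L) :
    smon h x (p ::ₘ M) E = opS h x p (smon h x M E) :=
  Multiset.foldr_cons _ _ _ _

theorem smon_cons' (h : Law L) (x : ι → L) (p : Sym2 ι) (M : Multiset (Sym2 ι)) (E : CenT L) :
    smon h x (p ::ₘ M) E = smon h x M (opS h x p E) := by
  induction M using Multiset.induction_on with
  | empty => rw [smon_cons, smon_zero, smon_zero]
  | cons q M ih =>
    rw [Multiset.cons_swap, smon_cons, ih, smon_cons]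

/-- renaming the letters -/
theorem smon_map (h : Law L) (x : κ → L) (g : ι → κ) (M : Multiset (Sym2 ι)) (E : CenT L) :
    smon h x (M.map (Sym2.map g)) E = smon h (x ∘ g) M E := by
  induction M using Multiset.induction_on with
  | empty => rfl
  | cons p M ih =>
    rw [Multiset.map_cons, smon_cons, smon_cons, ih]
    induction p using Sym2.ind with
    | _ a b => rfl

/-- homomorphisms map `sg` to `sg` -/
theorem map_sg {L' : Type*} [LieRing L'] (ρ : L →+ L') (hρ : ∀ x y, ρ ⁅x, y⁆ = ⁅ρ x, ρ y⁆)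
    {E : L → L → L} {E' : L' → L' → L'} (hE : ∀ x y, ρ (E x y) = E' (ρ x) (ρ y))
    (a b c d : L) : ρ (sg E a b c d) = sg E' (ρ a) (ρ b) (ρ c) (ρ d) := by
  simp only [sg, map_sub, hρ, hE]

theorem map_smon {L' : Type*} [LieRing L'] (h : Law L) (h' : Law L') (ρ : L →+ L')
    (hρ : ∀ x y, ρ ⁅x, y⁆ = ⁅ρ x, ρ y⁆) (x : ι → L) (x' : ι → L') (hx : ∀ i, ρ (x i) = x' i)
    (M : Multiset (Sym2 ι)) (E : CenT L) (E' : CenT L')
    (hE : ∀ u v, ρ (E.1 u v) = E'.1 (ρ u) (ρ v)) (u v : L) :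
    ρ ((smon h x M E).1 u v) = (smon h' x' M E').1 (ρ u) (ρ v) := by
  induction M using Multiset.induction_on generalizing u v with
  | empty => exact hE u v
  | cons p M ih =>
    rw [smon_cons, smon_cons]
    induction p using Sym2.ind with
    | _ a b =>
      rw [opS_mk, opS_mk, map_sg ρ hρ ih, hx, hx]

/-- the content of a monomial -/
def mc (M : Multiset (Sym2 ι)) : Multiset ι := (M.map Sym2.toMultiset).sum

theorem mc_zero : mc (0 : Multiset (Sym2 ι)) = 0 := rfl

theorem toMultiset_mk' (a b : ι) : (s(a, b)).toMultiset = {a, b} := by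
  unfold Sym2.toMultiset
  rfl

theorem mc_cons (a b : ι) (M : Multiset (Sym2 ι)) : mc (s(a, b) ::ₘ M) = a ::ₘ b ::ₘ mc M := by
  rw [mc, Multiset.map_cons, Multiset.sum_cons, toMultiset_mk', mc, Multiset.insert_eq_cons,
    Multiset.cons_add, Multiset.singleton_add]

/-- the pairs of an involution on a set of letters -/
def prs [DecidableEq ι] (σ : Equiv.Perm ι) (S : Finset ι) : Multiset (Sym2 ι) :=
  (S.image fun i => s(i, σ i)).val

end

end Pool.Agent.Lib.MP_b4a71d_al.S
end
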