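import Mathlib
import Pool.Agent.Lib.MP_b4a71d_al.S.Smon

section

/-!
# MP_b4a71d_al, S point: near perfect matchings of a finite set

`Vert S b σ`: `σ` is an involution which matches the points of `S` other than `b` in pairs and
fixes `b` and all points outside `S`.  A move `mv a b σ` (with `a ∈ S`, `a ≠ b`) replaces the
pair `{a, σ a}` by the pair `{b, σ a}`, and `a` becomes the free point.
-/

set_option autoImplicit false

namespace Pool.Agent.Lib.MP_b4a71d_al.S

universe u v

open Equiv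

variable {ι : Type u} [DecidableEq ι]

/-- near perfect matchings of `S` with free point `b` -/
def Vert (S : Finset ι) (b : ι) (σ : Perm ι) : Prop :=
  b ∈ S ∧ (∀ x, σ (σ x) = x) ∧ ∀ x, σ x ≠ x ↔ x ∈ S ∧ x ≠ b

/-- the move -/
def mv (a b : ι) (σ : Perm ι) : Perm ι := swap a b * σ * swap a b

theorem Vert.mv_vert {S : Finset ι} {b : ι} {σ : Perm ι} (h : Vert S b σ) {a : ι} (ha : a ∈ S)
    (hab : a ≠ b) : Vert S a (mv a b σ) := by
  obtain ⟨hb, h1, h2⟩ := h
  refine ⟨ha, fun x => ?_, fun x => ?_⟩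
  · simp only [mv, Perm.mul_apply, swap_apply_self, h1]
  · have e1 : (mv a b σ) x ≠ x ↔ σ (swap a b x) ≠ swap a b x := by
      rw [not_iff_not, mv, Perm.mul_apply, Perm.mul_apply]
      constructor
      · intro h
        have := congrArg (swap a b) h
        rwa [swap_apply_self] at this
      · intro h
        rw [h, swap_apply_self]
    rw [e1, h2]
    by_cases hxa : x = a
    · subst hxa
      rw [swap_apply_left]
      constructor
      · rintro ⟨_, h⟩
        exact absurd rfl h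
      · rintro ⟨_, h⟩
        exact absurd rfl h
    · by_cases hxb : x = b
      · subst hxb
        rw [swap_apply_right]
        exact ⟨fun _ => ⟨hb, hxa⟩, fun _ => ⟨ha, hab⟩⟩
      · rw [swap_apply_of_ne_of_ne hxa hxb]
        exact ⟨fun h => ⟨h.1, hxa⟩, fun h => ⟨h.1, hxb⟩⟩

/-- removing a pair of the matching -/
theorem Vert.erase_pair {S : Finset ι} {b : ι} {σ : Perm ι} (h : Vert S b σ) {p q : ι}
    (hpq : p ≠ q) (hσ : σ p = q) : Vert (S \ {p, q}) b (σ * swap p q) := by
  obtain ⟨hb, h1, h2⟩ := h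
  have hσq : σ q = p := by rw [← hσ, h1]
  have hp := (h2 p).1 (by rw [hσ]; exact hpq.symm)
  have hq := (h2 q).1 (by rw [hσq]; exact hpq)
  have e1 : (σ * swap p q) p = p := by rw [Perm.mul_apply, swap_apply_left, hσq]
  have e2 : (σ * swap p q) q = q := by rw [Perm.mul_apply, swap_apply_right, hσ]
  have e3 : ∀ x, x ≠ p → x ≠ q → (σ * swap p q) x = σ x := by
    intro x hx hx'
    rw [Perm.mul_apply, swap_apply_of_ne_of_ne hx hx']
  refine ⟨?_, fun x => ?_, fun x => ?_⟩
  · rw [Finset.mem_sdiff, Finset.mem_insert, Finset.mem_singleton]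
    refine ⟨hb, ?_⟩
    rintro (h | h)
    · exact hp.2 h.symm
    · exact hq.2 h.symm
  · by_cases hxp : x = p
    · rw [hxp, e1, e1]
    · by_cases hxq : x = q
      · rw [hxq, e2, e2]
      · rw [e3 x hxp hxq, e3 _ ?_ ?_, h1]
        · intro h
          apply hxq
          rw [← h1 x, h, hσ]
        · intro h
          apply hxp
          rw [← h1 x, h, hσq]
  · rw [Finset.mem_sdiff, Finset.mem_insert, Finset.mem_singleton]
    by_cases hxp : x = p
    · rw [hxp, e1]
      simp
    · by_cases hxq : x = q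
      · rw [hxq, e2]
        simp
      · rw [e3 x hxp hxq, h2]
        simp [hxp, hxq]

/-- adding a pair to the matching -/
theorem Vert.insert_pair {S : Finset ι} {b : ι} {σ : Perm ι} {p q : ι} (hp : p ∈ S) (hq : q ∈ S)
    (hpq : p ≠ q) (h : Vert (S \ {p, q}) b σ) :
    Vert S b (σ * swap p q) ∧ (σ * swap p q) p = q := by
  obtain ⟨hb, h1, h2⟩ := h
  simp only [Finset.mem_sdiff, Finset.mem_insert, Finset.mem_singleton, not_or] at hb h2
  have hσp : σ p = p := by
    by_contra h
    exact ((h2 p).1 h).1.2.1 rfl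
  have hσq : σ q = q := by
    by_contra h
    exact ((h2 q).1 h).1.2.2 rfl
  have e1 : (σ * swap p q) p = q := by rw [Perm.mul_apply, swap_apply_left, hσq]
  have e2 : (σ * swap p q) q = p := by rw [Perm.mul_apply, swap_apply_right, hσp]
  have e3 : ∀ x, x ≠ p → x ≠ q → (σ * swap p q) x = σ x := by
    intro x hx hx'
    rw [Perm.mul_apply, swap_apply_of_ne_of_ne hx hx']
  refine ⟨⟨hb.1, fun x => ?_, fun x => ?_⟩, e1⟩
  · by_cases hxp : x = p
    · rw [hxp, e1, e2]
    · by_cases hxq : x = q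
      · rw [hxq, e2, e1]
      · rw [e3 x hxp hxq, e3 _ ?_ ?_, h1]
        · intro h
          apply hxp
          rw [← h1 x, h, hσp]
        · intro h
          apply hxq
          rw [← h1 x, h, hσq]
  · by_cases hxp : x = p
    · rw [hxp, e1]
      exact ⟨fun _ => ⟨hp, fun h => hb.2.1 h.symm⟩, fun _ => hpq.symm⟩
    · by_cases hxq : x = q
      · rw [hxq, e2]
        exact ⟨fun _ => ⟨hq, fun h => hb.2.2 h.symm⟩, fun _ => hpq⟩
      · rw [e3 x hxp hxq, h2]
        exact ⟨fun h => ⟨h.1.1, h.2⟩, fun h => ⟨⟨h.1, hxp, hxq⟩, h.2⟩⟩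

/-- moves which do not touch the pair `{p, q}` commute with removing it -/
theorem mv_mul_swap {a b p q : ι} (σ : Perm ι) (hap : a ≠ p) (haq : a ≠ q) (hbp : b ≠ p)
    (hbq : b ≠ q) : mv a b (σ * swap p q) = mv a b σ * swap p q := by
  have h1 : swap p q * swap a b = swap a b * swap p q := by
    rw [mul_swap_eq_swap_mul, swap_apply_of_ne_of_ne hap haq, swap_apply_of_ne_of_ne hbp hbq]
  unfold mv
  simp only [mul_assoc]
  rw [h1]

theorem exists_vert (S : Finset ι) (h : Odd S.card) : ∃ b σ, Vert S b σ := by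
  induction S using Finset.strongInduction with
  | H S ih =>
    obtain ⟨k, hk⟩ := h
    by_cases h1 : k = 0
    · have h2 : S.card = 1 := by omega
      obtain ⟨b, rfl⟩ := Finset.card_eq_one.1 h2
      refine ⟨b, 1, Finset.mem_singleton_self b, fun x => rfl, fun x => ?_⟩
      rw [Finset.mem_singleton]
      simp
    · obtain ⟨p, hp, q, hq, hpq⟩ := Finset.one_lt_card.1 (show 1 < S.card by omega)
      have hsub : {p, q} ⊆ S := by
        intro x hx
        rw [Finset.mem_insert, Finset.mem_singleton] at hx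
        rcases hx with rfl | rfl
        · exact hp
        · exact hq
      have hcard : (S \ {p, q}).card = S.card - 2 := by
        rw [Finset.card_sdiff_of_subset hsub, Finset.card_pair hpq]
      have hss : S \ {p, q} ⊂ S := by
        rw [Finset.ssubset_iff_subset_ne]
        refine ⟨Finset.sdiff_subset, fun h => ?_⟩
        rw [h] at hcard
        omega
      obtain ⟨b, σ, hσ⟩ := ih _ hss ⟨k - 1, by omega⟩
      exact ⟨b, _, (Vert.insert_pair hp hq hpq hσ).1⟩

private theorem Vert.uniq {S : Finset ι} {b b' : ι} {σ σ' : Perm ι} (h : Vert S b σ)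
    (h' : Vert S b' σ') (h1 : ∀ p, σ' p = p) : b = b' ∧ σ = σ' := by
  have hS : ∀ x ∈ S, x = b' := by
    intro x hx
    by_contra hne
    exact ((h'.2.2 x).2 ⟨hx, hne⟩) (h1 x)
  have hb : b = b' := hS b h.1
  refine ⟨hb, ?_⟩
  ext x
  rw [h1]
  by_contra hne
  obtain ⟨h2, h3⟩ := (h.2.2 x).1 hne
  exact h3 ((hS x h2).trans hb.symm)

/-- The graph of moves is connected.  (Induction on the cardinality.  To connect `(b, σ)` with
`(b', σ')` when `S` has at least three points take a pair `σ' p = q` (`p ≠ q` in `S`); by at most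
two moves one reaches a matching which contains the pair `{p, q}`: if `b = q` and `σ p ≠ q` the
move `a = σ p` gives the pair `{q, p}`; if `b ≠ p`, `b ≠ q` and `σ p ≠ q` first the move `a = q`
makes `q` free (the pair of `p` may change only if it was `{p, q}`; if `σ q = b'`... then it is
still a pair with `p`).  Then use the induction hypothesis on `S \ {p, q}`, all moves of which are
moves of `S`.) -/
theorem conn {V : Type v} : ∀ (S : Finset ι) (f : ι → Perm ι → V),
    (∀ b σ a, Vert S b σ → a ∈ S → a ≠ b → f b σ = f a (mv a b σ)) →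
    ∀ b σ b' σ', Vert S b σ → Vert S b' σ' → f b σ = f b' σ' := by
  intro S
  induction S using Finset.strongInduction with
  | H S ih =>
    intro f hf b σ b' σ' h h'
    by_cases h1 : ∀ p, σ' p = p
    · obtain ⟨rfl, rfl⟩ := Vert.uniq h h' h1
      rfl
    · push Not at h1
      obtain ⟨p, hp⟩ := h1
      obtain ⟨q, hq⟩ : ∃ q, q = σ' p := ⟨_, rfl⟩
      have hpq : p ≠ q := by
        rw [hq]
        exact hp.symm
      have hσq : σ' q = p := by rw [hq, h'.2.1]
      have hpS := ((h'.2.2 p).1 hp).1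
      have hqS := ((h'.2.2 q).1 (by rw [hσq]; exact hpq)).1
      -- from a matching with free point `q`
      have hA : ∀ ρ : Perm ι, Vert S q ρ → ∃ b1 ρ1, Vert S b1 ρ1 ∧ f q ρ = f b1 ρ1 ∧ ρ1 p = q := by
        intro ρ hρ
        have hpp : ρ p ≠ p := (hρ.2.2 p).2 ⟨hpS, hpq⟩
        have hqq : ρ q = q := by
          by_contra hne
          exact ((hρ.2.2 q).1 hne).2 rfl
        have haq : ρ p ≠ q := by
          intro h2
          apply hpq
          exact ρ.injective (h2.trans hqq.symm)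
        have haS : ρ p ∈ S := by
          refine ((hρ.2.2 (ρ p)).1 ?_).1
          rw [hρ.2.1]
          exact hpp.symm
        refine ⟨ρ p, mv (ρ p) q ρ, hρ.mv_vert haS haq, hf q ρ (ρ p) hρ haS haq, ?_⟩
        rw [mv, Perm.mul_apply, Perm.mul_apply, swap_apply_of_ne_of_ne hpp.symm hpq,
          swap_apply_left]
      obtain ⟨b1, σ1, hV1, hf1, hσ1⟩ : ∃ b1 σ1, Vert S b1 σ1 ∧ f b σ = f b1 σ1 ∧ σ1 p = q := by
        by_cases hbq : b = q
        · subst hbq
          exact hA σ h
        · obtain ⟨b1, ρ1, h2, h3, h4⟩ := hA _ (h.mv_vert hqS (Ne.symm hbq))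
          exact ⟨b1, ρ1, h2, (hf b σ q h hqS (Ne.symm hbq)).trans h3, h4⟩
      have hss : S \ {p, q} ⊂ S := by
        rw [Finset.ssubset_iff_subset_ne]
        refine ⟨Finset.sdiff_subset, fun h => ?_⟩
        have h2 : p ∈ S \ {p, q} := by
          rw [h]
          exact hpS
        rw [Finset.mem_sdiff] at h2
        exact h2.2 (Finset.mem_insert_self p {q})
      have h5 := ih _ hss (fun c τ => f c (τ * swap p q)) (by
        intro c τ a hc ha hac
        have hc0 := hc.1
        rw [Finset.mem_sdiff, Finset.mem_insert, Finset.mem_singleton, not_or] at ha hc0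
        have h6 := hf c (τ * swap p q) a (Vert.insert_pair hpS hqS hpq hc).1 ha.1 hac
        rw [mv_mul_swap τ ha.2.1 ha.2.2 hc0.2.1 hc0.2.2] at h6
        exact h6) b1 (σ1 * swap p q) b' (σ' * swap p q)
        (hV1.erase_pair hpq hσ1) (h'.erase_pair hpq hq.symm)
      simp only [mul_assoc, swap_mul_self, mul_one] at h5
      exact hf1.trans h5

end Pool.Agent.Lib.MP_b4a71d_al.S
end

section

section

/-!
# MP_b4a71d_al, S point: pairs of fixed point free involutions

The group generated by two fixed point free involutions `a`, `b` of a set acts on every orbit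
like the dihedral group on the vertices of a `2r`-gon (or on an infinite line): with `c = a * b`
the stabilizer of a point is generated by a power of `c` (an element `c^k * a` is conjugate to `a`
or `b`, so it has no fixed point).  So for `x`, `y` in the same orbit there is a well defined map
`w x ↦ w' y` of the orbit where `w'` is `w` with `a` and `b` exchanged, and a well defined map
`w x ↦ w y`.
-/

set_option autoImplicit false

namespace Pool.Agent.Lib.MP_b4a71d_al.S

universe u

open Equiv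

/-- fixed point free involutions -/
def Fpf {X : Type u} (a : Perm X) : Prop := ∀ x, a (a x) = x ∧ a x ≠ x

/-! ## The dihedral action -/

section Gm

variable {X : Type u} {a b : Perm X}

private theorem Fpf.sq (ha : Fpf a) : a * a = 1 :=
  Equiv.ext fun x => (ha x).1

private theorem gm_comm (ha : a * a = 1) (hb : b * b = 1) (k : ℤ) :
    a * (a * b) ^ k = (a * b) ^ (-k) * a := by
  have hi : (a * b)⁻¹ = b * a := by
    rw [mul_inv_rev]
    rw [inv_eq_of_mul_eq_one_left ha, inv_eq_of_mul_eq_one_left hb]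
  have h : SemiconjBy a (a * b) (a * b)⁻¹ := by
    show a * (a * b) = (a * b)⁻¹ * a
    rw [hi, mul_assoc b a a, ha, mul_one, ← mul_assoc, ha, one_mul]
  have h2 := h.zpow_right k
  rw [inv_zpow, ← zpow_neg] at h2
  exact h2

private theorem gm_commb (ha : a * a = 1) (hb : b * b = 1) (k : ℤ) :
    b * (a * b) ^ k = (a * b) ^ (-k - 1) * a := by
  have h2 : b * (a * b) ^ k = a * (a * b) ^ (1 + k) := by
    rw [zpow_one_add, ← mul_assoc a, ← mul_assoc a, ha, one_mul]
  rw [h2, gm_comm ha hb]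
  congr 2
  ring

private theorem gm_a (ha : Fpf a) (hb : Fpf b) (k : ℤ) (x : X) :
    a (((a * b) ^ k) x) = ((a * b) ^ (-k)) (a x) := by
  have := gm_comm ha.sq hb.sq k
  exact DFunLike.congr_fun this x

private theorem gm_b (ha : Fpf a) (hb : Fpf b) (k : ℤ) (x : X) :
    b (((a * b) ^ k) x) = ((a * b) ^ (-k - 1)) (a x) := by
  have := gm_commb ha.sq hb.sq k
  exact DFunLike.congr_fun this x

private theorem gm_z (a b : Perm X) (k l : ℤ) (x : X) :
    ((a * b) ^ k) (((a * b) ^ l) x) = ((a * b) ^ (k + l)) x := by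
  rw [zpow_add, Perm.mul_apply]

private theorem gm_0 (a b : Perm X) (x : X) : ((a * b) ^ (0 : ℤ)) x = x := by
  rw [zpow_zero, Perm.one_apply]

/-- An element `c^k * a` has no fixed point. -/
private theorem gm_nofix (ha : Fpf a) (hb : Fpf b) (k : ℤ) (x : X) :
    ((a * b) ^ k) (a x) ≠ x := by
  intro h
  obtain ⟨m, rfl | rfl⟩ := Int.even_or_odd' k
  · have h1 : a (((a * b) ^ (-m)) x) = ((a * b) ^ (-m)) x := by
      rw [gm_a ha hb, neg_neg]
      have h2 := congrArg ((a * b) ^ (-m)) h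
      rw [gm_z] at h2
      rw [← h2]
      congr 2
      ring
    exact (ha _).2 h1
  · have h1 : b (((a * b) ^ (-m - 1)) x) = ((a * b) ^ (-m - 1)) x := by
      rw [gm_b ha hb]
      have h2 := congrArg ((a * b) ^ (-m - 1)) h
      rw [gm_z] at h2
      rw [← h2]
      congr 2
      ring
    exact (hb _).2 h1

/-- The orbit relation. -/
private def GRel (a b : Perm X) (x z : X) : Prop :=
  ∃ k : ℤ, z = ((a * b) ^ k) x ∨ z = ((a * b) ^ k) (a x)

private theorem GRel.refl (a b : Perm X) (x : X) : GRel a b x x :=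
  ⟨0, Or.inl (gm_0 a b x).symm⟩

private theorem GRel.symm (ha : Fpf a) (hb : Fpf b) {x z : X} (h : GRel a b x z) :
    GRel a b z x := by
  obtain ⟨k, rfl | rfl⟩ := h
  · refine ⟨-k, Or.inl ?_⟩
    rw [gm_z, neg_add_cancel, gm_0]
  · refine ⟨k, Or.inr ?_⟩
    rw [gm_a ha hb, gm_z, add_neg_cancel, gm_0, (ha x).1]

private theorem GRel.trans (ha : Fpf a) (hb : Fpf b) {x z w : X} (h : GRel a b x z)
    (h' : GRel a b z w) : GRel a b x w := by
  obtain ⟨k, rfl | rfl⟩ := h
  · obtain ⟨l, rfl | rfl⟩ := h'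
    · exact ⟨l + k, Or.inl (gm_z a b l k x)⟩
    · refine ⟨l + -k, Or.inr ?_⟩
      rw [gm_a ha hb, gm_z]
  · obtain ⟨l, rfl | rfl⟩ := h'
    · exact ⟨l + k, Or.inr (gm_z a b l k _)⟩
    · refine ⟨l + -k, Or.inl ?_⟩
      rw [gm_a ha hb, gm_z, (ha x).1]

private theorem gm_inv (ha : Fpf a) (hb : Fpf b) : b * a = (a * b)⁻¹ := by
  rw [mul_inv_rev, inv_eq_of_mul_eq_one_left ha.sq, inv_eq_of_mul_eq_one_left hb.sq]

private theorem gm_swap (ha : Fpf a) (hb : Fpf b) (k : ℤ) : (b * a) ^ k = (a * b) ^ (-k) := by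
  rw [gm_inv ha hb, inv_zpow, zpow_neg]

private theorem GRel.swap (ha : Fpf a) (hb : Fpf b) {x z : X} (h : GRel a b x z) :
    GRel b a x z := by
  obtain ⟨k, rfl | rfl⟩ := h
  · refine ⟨-k, Or.inl ?_⟩
    rw [gm_swap ha hb, neg_neg]
  · refine ⟨-k - 1, Or.inr ?_⟩
    rw [gm_swap ha hb]
    have h1 := gm_b ha hb 0 x
    rw [gm_0] at h1
    rw [h1, gm_z]
    congr 2
    ring

/-- The stabilizers in the group generated by `a * b` are constant on the orbits. -/
private theorem GRel.stab (ha : Fpf a) (hb : Fpf b) {x z : X} (h : GRel a b x z) (m : ℤ)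
    (hx : ((a * b) ^ m) x = x) : ((a * b) ^ m) z = z := by
  have hx' : ((a * b) ^ (-m)) x = x := by
    conv_lhs => rw [← hx]
    rw [gm_z, neg_add_cancel, gm_0]
  obtain ⟨k, rfl | rfl⟩ := h
  · rw [gm_z, add_comm, ← gm_z, hx]
  · rw [gm_z, add_comm, ← gm_z]
    congr 1
    have h1 := gm_a ha hb (-m) x
    rw [neg_neg] at h1
    rw [← h1, hx']

/-! ## The main construction -/

/-- the points of the orbits -/
private def gF (a b : Perm X) {Q : Type u} (r : Q → X) (z : Q × ℤ × Bool) : X :=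
  ((a * b) ^ z.2.1) (if z.2.2 then a (r z.1) else r z.1)

private theorem gF_rel (a b : Perm X) {Q : Type u} (r : Q → X) (z : Q × ℤ × Bool) :
    GRel a b (r z.1) (gF a b r z) := by
  obtain ⟨q, k, ε⟩ := z
  cases ε
  · exact ⟨k, Or.inl rfl⟩
  · exact ⟨k, Or.inr rfl⟩

private theorem gF_surj (a b : Perm X) {Q : Type u} (r : Q → X)
    (h2 : ∀ x, ∃ q, GRel a b (r q) x) : Function.Surjective (gF a b r) := by
  intro x
  obtain ⟨q, k, rfl | rfl⟩ := h2 x
  · exact ⟨(q, k, false), rfl⟩
  · exact ⟨(q, k, true), rfl⟩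

private theorem gF_eq (ha : Fpf a) (hb : Fpf b) {Q : Type u} (r : Q → X)
    (h1 : ∀ q q', GRel a b (r q) (r q') → q = q') (q q' : Q) (k k' : ℤ) (ε ε' : Bool) :
    gF a b r (q, k, ε) = gF a b r (q', k', ε') ↔
      q = q' ∧ ε = ε' ∧ ((a * b) ^ (k - k')) (r q) = r q := by
  constructor
  · intro h
    have hq : q = q' := by
      apply h1
      have e1 := gF_rel a b r (q, k, ε)
      have e2 := gF_rel a b r (q', k', ε')
      rw [← h] at e2
      exact e1.trans ha hb (e2.symm ha hb)
    subst hq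
    have key : ∀ x y : X, ((a * b) ^ k) x = ((a * b) ^ k') y → ((a * b) ^ (k - k')) x = y := by
      intro x y hxy
      have := congrArg ((a * b) ^ (-k')) hxy
      rw [gm_z, gm_z, neg_add_cancel, gm_0] at this
      rw [← this]
      congr 2
      ring
    refine ⟨rfl, ?_⟩
    cases ε <;> cases ε'
    · exact ⟨rfl, key _ _ h⟩
    · have h3 : ((a * b) ^ (k - k')) (r q) = a (r q) := key _ _ h
      exfalso
      have h4 := congrArg a h3
      rw [gm_a ha hb, (ha _).1] at h4
      exact gm_nofix ha hb _ _ h4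
    · have h3 : ((a * b) ^ (k - k')) (a (r q)) = r q := key _ _ h
      exact absurd h3 (gm_nofix ha hb _ _)
    · have h3 : ((a * b) ^ (k - k')) (a (r q)) = a (r q) := key _ _ h
      refine ⟨rfl, ?_⟩
      have h5 : GRel a b (a (r q)) (r q) :=
        GRel.symm ha hb ⟨0, Or.inr (gm_0 a b _).symm⟩
      exact h5.stab ha hb _ h3
  · rintro ⟨rfl, rfl, h⟩
    have h3 : ((a * b) ^ (k - k')) (if ε then a (r q) else r q) =
        if ε then a (r q) else r q := by
      cases ε
      · exact h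
      · exact GRel.stab ha hb ⟨0, Or.inr (gm_0 a b _).symm⟩ _ h
    show ((a * b) ^ k) (if ε then a (r q) else r q) = ((a * b) ^ k') (if ε then a (r q) else r q)
    conv_rhs => rw [← h3]
    rw [gm_z]
    congr 2
    ring

private theorem gF_a (ha : Fpf a) (hb : Fpf b) {Q : Type u} (r : Q → X) (q : Q) (k : ℤ)
    (ε : Bool) : a (gF a b r (q, k, ε)) = gF a b r (q, -k, !ε) := by
  show a (((a * b) ^ k) (if ε then a (r q) else r q)) =
    ((a * b) ^ (-k)) (if (!ε) then a (r q) else r q)
  rw [gm_a ha hb]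
  cases ε
  · rfl
  · congr 1
    exact (ha _).1

private theorem gF_b (ha : Fpf a) (hb : Fpf b) {Q : Type u} (r : Q → X) (q : Q) (k : ℤ)
    (ε : Bool) : b (gF a b r (q, k, ε)) = gF a b r (q, -k - 1, !ε) := by
  show b (((a * b) ^ k) (if ε then a (r q) else r q)) =
    ((a * b) ^ (-k - 1)) (if (!ε) then a (r q) else r q)
  rw [gm_b ha hb]
  cases ε
  · rfl
  · congr 1
    exact (ha _).1

private theorem gm_gen {a b a' b' : Perm X} (ha : Fpf a) (hb : Fpf b) (ha' : Fpf a')
    (hb' : Fpf b') {Q : Type u} (r y : Q → X)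
    (h1 : ∀ q q', GRel a b (r q) (r q') → q = q') (h2 : ∀ x, ∃ q, GRel a b (r q) x)
    (h1' : ∀ q q', GRel a' b' (y q) (y q') → q = q') (h2' : ∀ x, ∃ q, GRel a' b' (y q) x)
    (hst : ∀ (q : Q) (m : ℤ), ((a * b) ^ m) (r q) = r q ↔ ((a' * b') ^ m) (y q) = y q) :
    ∃ g : Perm X, (∀ x, g (a x) = a' (g x)) ∧ (∀ x, g (b x) = b' (g x)) ∧ ∀ q, g (r q) = y q := by
  have s1 := gF_surj a b r h2
  have s2 := gF_surj a' b' y h2'
  have hker : ∀ z z', (Setoid.ker (gF a b r)) z z' ↔ (Setoid.ker (gF a' b' y)) z z' := by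
    rintro ⟨q, k, ε⟩ ⟨q', k', ε'⟩
    rw [Setoid.ker_def, Setoid.ker_def, gF_eq ha hb r h1, gF_eq ha' hb' y h1', hst]
  let g : Perm X := ((Setoid.quotientKerEquivOfSurjective _ s1).symm.trans
    (Quotient.congr (Equiv.refl _) hker)).trans (Setoid.quotientKerEquivOfSurjective _ s2)
  have hg : ∀ z, g (gF a b r z) = gF a' b' y z := by
    intro z
    have e1 : (Setoid.quotientKerEquivOfSurjective _ s1).symm (gF a b r z) =
        Quotient.mk (Setoid.ker (gF a b r)) z := by
      rw [Equiv.symm_apply_eq]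
      rfl
    show (Setoid.quotientKerEquivOfSurjective _ s2) ((Quotient.congr (Equiv.refl _) hker)
      ((Setoid.quotientKerEquivOfSurjective _ s1).symm (gF a b r z))) = _
    rw [e1]
    rfl
  refine ⟨g, fun x => ?_, fun x => ?_, fun q => ?_⟩
  · obtain ⟨⟨q, k, ε⟩, rfl⟩ := s1 x
    rw [gF_a ha hb, hg, hg, gF_a ha' hb']
  · obtain ⟨⟨q, k, ε⟩, rfl⟩ := s1 x
    rw [gF_b ha hb, hg, hg, gF_b ha' hb']
  · have e1 : gF a b r (q, 0, false) = r q := gm_0 a b _
    have e2 : gF a' b' y (q, 0, false) = y q := gm_0 a' b' _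
    rw [← e1, hg, e2]

/-- the orbits -/
private def gmSet (ha : Fpf a) (hb : Fpf b) : Setoid X where
  r := GRel a b
  iseqv := ⟨GRel.refl a b, fun h => h.symm ha hb, fun h h' => h.trans ha hb h'⟩

private theorem gmSet_out (ha : Fpf a) (hb : Fpf b) (f : Quotient (gmSet ha hb) → X)
    (hf : ∀ q, Quotient.mk (gmSet ha hb) (f q) = q) :
    (∀ q q', GRel a b (f q) (f q') → q = q') ∧ ∀ x, ∃ q, GRel a b (f q) x := by
  constructor
  · intro q q' h
    rw [← hf q, ← hf q']
    exact Quotient.sound h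
  · intro x
    refine ⟨Quotient.mk _ x, ?_⟩
    exact Quotient.exact (hf (Quotient.mk _ x))

/-- Exchange with prescribed images of representatives. -/
private theorem gm_exchange (ha : Fpf a) (hb : Fpf b)
    (r y : Quotient (gmSet ha hb) → X) (hr : ∀ q, Quotient.mk (gmSet ha hb) (r q) = q)
    (hy : ∀ q, Quotient.mk (gmSet ha hb) (y q) = q) :
    ∃ g : Perm X, (∀ x, g (a x) = b (g x)) ∧ (∀ x, g (b x) = a (g x)) ∧ ∀ q, g (r q) = y q := by
  obtain ⟨r1, r2⟩ := gmSet_out ha hb r hr
  obtain ⟨y1, y2⟩ := gmSet_out ha hb y hy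
  refine gm_gen ha hb hb ha r y r1 r2 (fun q q' h => y1 q q' (h.swap hb ha))
    (fun x => ?_) (fun q m => ?_)
  · obtain ⟨q, h⟩ := y2 x
    exact ⟨q, h.swap ha hb⟩
  · have h1 : GRel a b (r q) (y q) := Quotient.exact ((hr q).trans (hy q).symm)
    have h2 := h1.symm ha hb
    rw [gm_swap ha hb]
    have neg : ∀ x : X, ((a * b) ^ m) x = x ↔ ((a * b) ^ (-m)) x = x := by
      intro x
      constructor
      · intro h
        conv_lhs => rw [← h]
        rw [gm_z, neg_add_cancel, gm_0]
      · intro h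
        conv_lhs => rw [← h]
        rw [gm_z, add_neg_cancel, gm_0]
    rw [← neg]
    exact ⟨h1.stab ha hb m, h2.stab ha hb m⟩

/-- Automorphism with prescribed images of representatives. -/
private theorem gm_auto (ha : Fpf a) (hb : Fpf b)
    (r y : Quotient (gmSet ha hb) → X) (hr : ∀ q, Quotient.mk (gmSet ha hb) (r q) = q)
    (hy : ∀ q, Quotient.mk (gmSet ha hb) (y q) = q) :
    ∃ g : Perm X, (∀ x, g (a x) = a (g x)) ∧ (∀ x, g (b x) = b (g x)) ∧ ∀ q, g (r q) = y q := by
  obtain ⟨r1, r2⟩ := gmSet_out ha hb r hr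
  obtain ⟨y1, y2⟩ := gmSet_out ha hb y hy
  refine gm_gen ha hb ha hb r y r1 r2 y1 y2 (fun q m => ?_)
  have h1 : GRel a b (r q) (y q) := Quotient.exact ((hr q).trans (hy q).symm)
  exact ⟨h1.stab ha hb m, (h1.symm ha hb).stab ha hb m⟩

end Gm

/-- Two fixed point free involutions can be exchanged by a permutation which fixes a given
point. -/
theorem exists_exchange_fix {X : Type u} (a b : Perm X) (ha : Fpf a) (hb : Fpf b) (c : X) :
    ∃ g : Perm X, (∀ x, g (a x) = b (g x)) ∧ (∀ x, g (b x) = a (g x)) ∧ g c = c := by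
  classical
  let r : Quotient (gmSet ha hb) → X := fun q =>
    if q = Quotient.mk (gmSet ha hb) c then c else q.out
  have hr : ∀ q, Quotient.mk (gmSet ha hb) (r q) = q := by
    intro q
    by_cases h : q = Quotient.mk (gmSet ha hb) c
    · simp only [r, if_pos h]
      exact h.symm
    · simp only [r, if_neg h]
      exact q.out_eq
  obtain ⟨g, h1, h2, h3⟩ := gm_exchange ha hb r r hr hr
  refine ⟨g, h1, h2, ?_⟩
  have := h3 (Quotient.mk (gmSet ha hb) c)
  simpa only [r, if_pos] using this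

/-- The marked version.  If `c₂ = w c₁` with `w = (a b)^k` take the exchange `g` with `g c₁ = c₂`;
if `w = (a b)^k a` take the exchange `g` with `g c₁ = b c₂` (then `g c₂ = a c₁`); if `c₁`, `c₂` are
in different orbits take the automorphism of the orbit of `c₁` which maps `w c₁` to `w (a c₁)`,
and the identity on the other orbits. -/
theorem exists_exchange_marked {X : Type u} (a b : Perm X) (ha : Fpf a) (hb : Fpf b)
    (c₁ c₂ : X) :
    (∃ g : Perm X, (∀ x, g (a x) = b (g x)) ∧ (∀ x, g (b x) = a (g x)) ∧ g c₁ = c₂ ∧ g c₂ = c₁) ∨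
    (∃ g : Perm X, (∀ x, g (a x) = b (g x)) ∧ (∀ x, g (b x) = a (g x)) ∧ g c₁ = b c₂ ∧
      g c₂ = a c₁) ∨
    (∃ g : Perm X, (∀ x, g (a x) = a (g x)) ∧ (∀ x, g (b x) = b (g x)) ∧ g c₁ = a c₁ ∧
      g c₂ = c₂) := by
  classical
  -- a section with a prescribed value
  let sec : X → Quotient (gmSet ha hb) → X := fun c q =>
    if q = Quotient.mk (gmSet ha hb) c then c else q.out
  have hsec : ∀ c q, Quotient.mk (gmSet ha hb) (sec c q) = q := by
    intro c q
    by_cases h : q = Quotient.mk (gmSet ha hb) c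
    · simp only [sec, if_pos h]
      exact h.symm
    · simp only [sec, if_neg h]
      exact q.out_eq
  have hsec' : ∀ c, sec c (Quotient.mk (gmSet ha hb) c) = c := fun c => if_pos rfl
  have hzp : ∀ g : Perm X, (∀ x, g (a x) = b (g x)) → (∀ x, g (b x) = a (g x)) →
      ∀ (k : ℤ) x, g (((a * b) ^ k) x) = ((a * b) ^ (-k)) (g x) := by
    intro g h1 h2 k x
    have h3 : SemiconjBy g (a * b) (b * a) := by
      show g * (a * b) = b * a * g
      ext z
      simp only [Perm.mul_apply]
      rw [h1, h2]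
    have h4 := h3.zpow_right k
    rw [gm_swap ha hb] at h4
    exact DFunLike.congr_fun h4 x
  by_cases h : GRel a b c₁ c₂
  · obtain ⟨k, hk | hk⟩ := h
    · left
      obtain ⟨g, h1, h2, h3⟩ := gm_exchange ha hb (sec c₁) (sec c₂) (hsec c₁) (hsec c₂)
      have hq : Quotient.mk (gmSet ha hb) c₁ = Quotient.mk (gmSet ha hb) c₂ :=
        Quotient.sound (show GRel a b c₁ c₂ from ⟨k, Or.inl hk⟩)
      have h4 : g c₁ = c₂ := by
        have := h3 (Quotient.mk (gmSet ha hb) c₁)
        rwa [hsec', hq, hsec'] at this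
      refine ⟨g, h1, h2, h4, ?_⟩
      rw [hk, hzp g h1 h2, h4, hk, gm_z, neg_add_cancel, gm_0]
    · right
      left
      obtain ⟨g, h1, h2, h3⟩ := gm_exchange ha hb (sec c₁) (sec (b c₂)) (hsec c₁) (hsec (b c₂))
      have hq : Quotient.mk (gmSet ha hb) c₁ = Quotient.mk (gmSet ha hb) (b c₂) := by
        apply Quotient.sound
        show GRel a b c₁ (b c₂)
        rw [hk, gm_b ha hb, (ha c₁).1]
        exact ⟨_, Or.inl rfl⟩
      have h4 : g c₁ = b c₂ := by
        have := h3 (Quotient.mk (gmSet ha hb) c₁)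
        rwa [hsec', hq, hsec'] at this
      refine ⟨g, h1, h2, h4, ?_⟩
      have h5 : g c₂ = ((a * b) ^ (-k)) (b (g c₁)) := by
        conv_lhs => rw [hk]
        rw [hzp g h1 h2, h1]
      rw [h5, h4, (hb c₂).1, hk, gm_z, neg_add_cancel, gm_0]
  · right
    right
    let r : Quotient (gmSet ha hb) → X := fun q =>
      if q = Quotient.mk (gmSet ha hb) c₁ then c₁ else sec c₂ q
    let y : Quotient (gmSet ha hb) → X := fun q =>
      if q = Quotient.mk (gmSet ha hb) c₁ then a c₁ else sec c₂ q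
    have hr : ∀ q, Quotient.mk (gmSet ha hb) (r q) = q := by
      intro q
      by_cases hq : q = Quotient.mk (gmSet ha hb) c₁
      · simp only [r, if_pos hq]
        exact hq.symm
      · simp only [r, if_neg hq]
        exact hsec _ _
    have hy : ∀ q, Quotient.mk (gmSet ha hb) (y q) = q := by
      intro q
      by_cases hq : q = Quotient.mk (gmSet ha hb) c₁
      · simp only [y, if_pos hq]
        rw [hq]
        exact Quotient.sound (GRel.symm ha hb ⟨0, Or.inr (gm_0 a b _).symm⟩)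
      · simp only [y, if_neg hq]
        exact hsec _ _
    obtain ⟨g, h1, h2, h3⟩ := gm_auto ha hb r y hr hy
    refine ⟨g, h1, h2, ?_, ?_⟩
    · have := h3 (Quotient.mk (gmSet ha hb) c₁)
      simpa only [r, y, if_pos] using this
    · have hne : Quotient.mk (gmSet ha hb) c₂ ≠ Quotient.mk (gmSet ha hb) c₁ := by
        intro he
        have : GRel a b c₂ c₁ := Quotient.exact he
        exact h (this.symm ha hb)
      have := h3 (Quotient.mk (gmSet ha hb) c₂)
      simp only [r, y, if_neg hne, hsec'] at this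
      exact this

/-- extension to a fixed point free involution -/
private def gmExt {X : Type u} [DecidableEq X] (a : Perm X) (a₀ : X) : Perm (Option X) :=
  Equiv.swap none (some a₀) * Equiv.optionCongr a

private theorem gmExt_none {X : Type u} [DecidableEq X] (a : Perm X) (a₀ : X) :
    gmExt a a₀ none = some a₀ := by
  simp [gmExt]

private theorem gmExt_some {X : Type u} [DecidableEq X] {a : Perm X} {a₀ : X}
    (ha₀ : ∀ x, a x = x ↔ x = a₀) {x : X} (hx : x ≠ a₀) :
    gmExt a a₀ (some x) = some (a x) := by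
  have h : a x ≠ a₀ := by
    intro h
    apply hx
    rw [← a.injective.eq_iff, h]
    exact ((ha₀ a₀).2 rfl).symm
  simp only [gmExt, Perm.mul_apply, Equiv.optionCongr_apply, Option.map_some]
  exact Equiv.swap_apply_of_ne_of_ne (by simp) (by simpa using h)

private theorem gmExt_pt {X : Type u} [DecidableEq X] {a : Perm X} {a₀ : X}
    (ha₀ : ∀ x, a x = x ↔ x = a₀) : gmExt a a₀ (some a₀) = none := by
  simp only [gmExt, Perm.mul_apply, Equiv.optionCongr_apply, Option.map_some]
  rw [(ha₀ a₀).2 rfl, Equiv.swap_apply_right]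

private theorem gmExt_fpf {X : Type u} [DecidableEq X] {a : Perm X} {a₀ : X}
    (ha : ∀ x, a (a x) = x) (ha₀ : ∀ x, a x = x ↔ x = a₀) : Fpf (gmExt a a₀) := by
  intro x
  cases x with
  | none =>
    rw [gmExt_none, gmExt_pt ha₀]
    exact ⟨rfl, by simp⟩
  | some x =>
    by_cases hx : x = a₀
    · rw [hx, gmExt_pt ha₀, gmExt_none]
      exact ⟨rfl, by simp⟩
    · have h : a x ≠ a₀ := by
        intro h
        apply hx
        rw [← a.injective.eq_iff, h]
        exact ((ha₀ a₀).2 rfl).symm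
      rw [gmExt_some ha₀ hx, gmExt_some ha₀ h, ha x]
      refine ⟨rfl, fun h' => hx ((ha₀ x).1 (Option.some.inj h'))⟩

/-- The version for involutions with exactly one fixed point (add a new point to `X` which is
paired with the fixed points and use `exists_exchange_fix` on `Option X` with `c = none`). -/
theorem exists_exchange_one {X : Type u} (a b : Perm X) (a₀ b₀ : X)
    (ha : ∀ x, a (a x) = x) (hb : ∀ x, b (b x) = x)
    (ha₀ : ∀ x, a x = x ↔ x = a₀) (hb₀ : ∀ x, b x = x ↔ x = b₀) :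
    ∃ g : Perm X, (∀ x, g (a x) = b (g x)) ∧ (∀ x, g (b x) = a (g x)) ∧ g a₀ = b₀ ∧
      g b₀ = a₀ := by
  classical
  obtain ⟨G, h1, h2, h3⟩ := exists_exchange_fix (gmExt a a₀) (gmExt b b₀) (gmExt_fpf ha ha₀)
    (gmExt_fpf hb hb₀) none
  have hG : ∀ x : X, ∃ x', G (some x) = some x' := by
    intro x
    rcases hx : G (some x) with _ | x'
    · rw [← h3] at hx
      exact absurd (G.injective hx) (by simp)
    · exact ⟨x', rfl⟩
  have hg : ∀ x : X, some (Equiv.removeNone G x) = G (some x) := fun x =>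
    Equiv.removeNone_some G (hG x)
  have ga : Equiv.removeNone G a₀ = b₀ := by
    apply Option.some.inj
    rw [hg, ← gmExt_none a a₀, h1, h3, gmExt_none]
  have gb : Equiv.removeNone G b₀ = a₀ := by
    apply Option.some.inj
    rw [hg, ← gmExt_none b b₀, h2, h3, gmExt_none]
  refine ⟨Equiv.removeNone G, fun x => ?_, fun x => ?_, ga, gb⟩
  · by_cases hx : x = a₀
    · rw [hx, (ha₀ a₀).2 rfl, ga, (hb₀ b₀).2 rfl]
    · have hne : Equiv.removeNone G x ≠ b₀ := fun h =>
        hx ((Equiv.removeNone G).injective (h.trans ga.symm))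
      apply Option.some.inj
      rw [hg, ← gmExt_some ha₀ hx, h1, ← hg, gmExt_some hb₀ hne]
  · by_cases hx : x = b₀
    · rw [hx, (hb₀ b₀).2 rfl, gb, (ha₀ a₀).2 rfl]
    · have hne : Equiv.removeNone G x ≠ a₀ := fun h =>
        hx ((Equiv.removeNone G).injective (h.trans gb.symm))
      apply Option.some.inj
      rw [hg, ← gmExt_some hb₀ hx, h2, ← hg, gmExt_some ha₀ hne]

end Pool.Agent.Lib.MP_b4a71d_al.S
end

section

/-!
# MP_b4a71d_al, S point: gluing of potentials on the graph of near perfect matchings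
-/

set_option autoImplicit false

namespace Pool.Agent.Lib.MP_b4a71d_al.S

universe u v

variable {ι : Type u} {V : Type v} [AddCommGroup V]

/-- A closed function on the edges of the matching complex of seven points.  `c i j k l` is the
value at the pair of disjoint pairs `({i, j}, {k, l})`.  Three times the difference is the
following combination of the relations `c P Q + c Q T + c T P = 0` (with `1 2 3 4` for
`x y z w`):
`-2 (pa 13 24) + (pa 12 34) + (pa b1 24) - (pa b1 34) + 2 (pb 13 24) + (p2 a1 b3) - (p2 a1 34)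
- (p2 a4 b3) + (p2 b1 34) + (pb a4 12) - (pb a1 24) - (a1 b3 24) + (a4 b3 12) - (pb a4 13)
+ (p2 a3 b1) - (p2 a3 b4) - (p2 b4 13) + (p2 a4 13) - (a3 b1 24) + (a3 b4 12) + (pb a3 12)
- (pb a3 24) - (pa b4 12) + (pa b4 13) + (pb a1 34) - (pb 12 34) + (pa b3 24) - (pa b3 12)`. -/
theorem seven (h3 : ∀ v : V, (3 : ℤ) • v = 0 → v = 0) (c : ι → ι → ι → ι → V)
    (S : Finset ι)
    (hskew : ∀ i j k l, i ∈ S → j ∈ S → k ∈ S → l ∈ S → [i, j, k, l].Nodup →
      c k l i j = - c i j k l)
    (hclosed : ∀ i j k l m n, i ∈ S → j ∈ S → k ∈ S → l ∈ S → m ∈ S → n ∈ S →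
      [i, j, k, l, m, n].Nodup → c i j k l + c k l m n + c m n i j = 0)
    (p a b x y z w : ι) (hp : p ∈ S) (ha : a ∈ S) (hb : b ∈ S) (hx : x ∈ S) (hy : y ∈ S)
    (hz : z ∈ S) (hw : w ∈ S) (hnd : [p, a, b, x, y, z, w].Nodup) :
    c p a x y + c x y p b = c p a x z + c x z p b := by
  simp only [List.nodup_cons, List.mem_cons, List.not_mem_nil, or_false, not_or, not_false_eq_true,
    List.nodup_nil, and_true] at hnd
  obtain ⟨⟨npa, npb, npx, npy, npz, npw⟩, ⟨nab, nax, nay, naz, naw⟩, ⟨nbx, nby, nbz, nbw⟩, ⟨nxy, nxz, nxw⟩, ⟨nyz, nyw⟩, nzw⟩ := hnd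
  have mpa := Ne.symm npa
  have mpb := Ne.symm npb
  have mpx := Ne.symm npx
  have mpy := Ne.symm npy
  have mpz := Ne.symm npz
  have mpw := Ne.symm npw
  have mab := Ne.symm nab
  have max := Ne.symm nax
  have may := Ne.symm nay
  have maz := Ne.symm naz
  have maw := Ne.symm naw
  have mbx := Ne.symm nbx
  have mby := Ne.symm nby
  have mbz := Ne.symm nbz
  have mbw := Ne.symm nbw
  have mxy := Ne.symm nxy
  have mxz := Ne.symm nxz
  have mxw := Ne.symm nxw
  have myz := Ne.symm nyz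
  have myw := Ne.symm nyw
  have mzw := Ne.symm nzw
  have r0 : c p a x z + c x z y w - c p a y w = 0 := by
    have h := hclosed p a x z y w hp ha hx hz hy hw (by simp [*])
    rw [hskew p a y w hp ha hy hw (by simp [*])] at h
    rw [sub_eq_add_neg]; exact h
  have r1 : c p a x y + c x y z w - c p a z w = 0 := by
    have h := hclosed p a x y z w hp ha hx hy hz hw (by simp [*])
    rw [hskew p a z w hp ha hz hw (by simp [*])] at h
    rw [sub_eq_add_neg]; exact h
  have r2 : c p a b x + c b x y w - c p a y w = 0 := by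
    have h := hclosed p a b x y w hp ha hb hx hy hw (by simp [*])
    rw [hskew p a y w hp ha hy hw (by simp [*])] at h
    rw [sub_eq_add_neg]; exact h
  have r3 : c p a b x + c b x z w - c p a z w = 0 := by
    have h := hclosed p a b x z w hp ha hb hx hz hw (by simp [*])
    rw [hskew p a z w hp ha hz hw (by simp [*])] at h
    rw [sub_eq_add_neg]; exact h
  have r4 : c p b x z + c x z y w - c p b y w = 0 := by
    have h := hclosed p b x z y w hp hb hx hz hy hw (by simp [*])
    rw [hskew p b y w hp hb hy hw (by simp [*])] at h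
    rw [sub_eq_add_neg]; exact h
  have r5 : c p y a x + c a x b z - c p y b z = 0 := by
    have h := hclosed p y a x b z hp hy ha hx hb hz (by simp [*])
    rw [hskew p y b z hp hy hb hz (by simp [*])] at h
    rw [sub_eq_add_neg]; exact h
  have r6 : c p y a x + c a x z w - c p y z w = 0 := by
    have h := hclosed p y a x z w hp hy ha hx hz hw (by simp [*])
    rw [hskew p y z w hp hy hz hw (by simp [*])] at h
    rw [sub_eq_add_neg]; exact h
  have r7 : c p y a w + c a w b z - c p y b z = 0 := by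
    have h := hclosed p y a w b z hp hy ha hw hb hz (by simp [*])
    rw [hskew p y b z hp hy hb hz (by simp [*])] at h
    rw [sub_eq_add_neg]; exact h
  have r8 : c p y b x + c b x z w - c p y z w = 0 := by
    have h := hclosed p y b x z w hp hy hb hx hz hw (by simp [*])
    rw [hskew p y z w hp hy hz hw (by simp [*])] at h
    rw [sub_eq_add_neg]; exact h
  have r9 : c p b a w + c a w x y - c p b x y = 0 := by
    have h := hclosed p b a w x y hp hb ha hw hx hy (by simp [*])
    rw [hskew p b x y hp hb hx hy (by simp [*])] at h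
    rw [sub_eq_add_neg]; exact h
  have r10 : c p b a x + c a x y w - c p b y w = 0 := by
    have h := hclosed p b a x y w hp hb ha hx hy hw (by simp [*])
    rw [hskew p b y w hp hb hy hw (by simp [*])] at h
    rw [sub_eq_add_neg]; exact h
  have r11 : c a x b z + c b z y w - c a x y w = 0 := by
    have h := hclosed a x b z y w ha hx hb hz hy hw (by simp [*])
    rw [hskew a x y w ha hx hy hw (by simp [*])] at h
    rw [sub_eq_add_neg]; exact h
  have r12 : c a w b z + c b z x y - c a w x y = 0 := by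
    have h := hclosed a w b z x y ha hw hb hz hx hy (by simp [*])
    rw [hskew a w x y ha hw hx hy (by simp [*])] at h
    rw [sub_eq_add_neg]; exact h
  have r13 : c p b a w + c a w x z - c p b x z = 0 := by
    have h := hclosed p b a w x z hp hb ha hw hx hz (by simp [*])
    rw [hskew p b x z hp hb hx hz (by simp [*])] at h
    rw [sub_eq_add_neg]; exact h
  have r14 : c p y a z + c a z b x - c p y b x = 0 := by
    have h := hclosed p y a z b x hp hy ha hz hb hx (by simp [*])
    rw [hskew p y b x hp hy hb hx (by simp [*])] at h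
    rw [sub_eq_add_neg]; exact h
  have r15 : c p y a z + c a z b w - c p y b w = 0 := by
    have h := hclosed p y a z b w hp hy ha hz hb hw (by simp [*])
    rw [hskew p y b w hp hy hb hw (by simp [*])] at h
    rw [sub_eq_add_neg]; exact h
  have r16 : c p y b w + c b w x z - c p y x z = 0 := by
    have h := hclosed p y b w x z hp hy hb hw hx hz (by simp [*])
    rw [hskew p y x z hp hy hx hz (by simp [*])] at h
    rw [sub_eq_add_neg]; exact h
  have r17 : c p y a w + c a w x z - c p y x z = 0 := by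
    have h := hclosed p y a w x z hp hy ha hw hx hz (by simp [*])
    rw [hskew p y x z hp hy hx hz (by simp [*])] at h
    rw [sub_eq_add_neg]; exact h
  have r18 : c a z b x + c b x y w - c a z y w = 0 := by
    have h := hclosed a z b x y w ha hz hb hx hy hw (by simp [*])
    rw [hskew a z y w ha hz hy hw (by simp [*])] at h
    rw [sub_eq_add_neg]; exact h
  have r19 : c a z b w + c b w x y - c a z x y = 0 := by
    have h := hclosed a z b w x y ha hz hb hw hx hy (by simp [*])
    rw [hskew a z x y ha hz hx hy (by simp [*])] at h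
    rw [sub_eq_add_neg]; exact h
  have r20 : c p b a z + c a z x y - c p b x y = 0 := by
    have h := hclosed p b a z x y hp hb ha hz hx hy (by simp [*])
    rw [hskew p b x y hp hb hx hy (by simp [*])] at h
    rw [sub_eq_add_neg]; exact h
  have r21 : c p b a z + c a z y w - c p b y w = 0 := by
    have h := hclosed p b a z y w hp hb ha hz hy hw (by simp [*])
    rw [hskew p b y w hp hb hy hw (by simp [*])] at h
    rw [sub_eq_add_neg]; exact h
  have r22 : c p a b w + c b w x y - c p a x y = 0 := by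
    have h := hclosed p a b w x y hp ha hb hw hx hy (by simp [*])
    rw [hskew p a x y hp ha hx hy (by simp [*])] at h
    rw [sub_eq_add_neg]; exact h
  have r23 : c p a b w + c b w x z - c p a x z = 0 := by
    have h := hclosed p a b w x z hp ha hb hw hx hz (by simp [*])
    rw [hskew p a x z hp ha hx hz (by simp [*])] at h
    rw [sub_eq_add_neg]; exact h
  have r24 : c p b a x + c a x z w - c p b z w = 0 := by
    have h := hclosed p b a x z w hp hb ha hx hz hw (by simp [*])
    rw [hskew p b z w hp hb hz hw (by simp [*])] at h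
    rw [sub_eq_add_neg]; exact h
  have r25 : c p b x y + c x y z w - c p b z w = 0 := by
    have h := hclosed p b x y z w hp hb hx hy hz hw (by simp [*])
    rw [hskew p b z w hp hb hz hw (by simp [*])] at h
    rw [sub_eq_add_neg]; exact h
  have r26 : c p a b z + c b z y w - c p a y w = 0 := by
    have h := hclosed p a b z y w hp ha hb hz hy hw (by simp [*])
    rw [hskew p a y w hp ha hy hw (by simp [*])] at h
    rw [sub_eq_add_neg]; exact h
  have r27 : c p a b z + c b z x y - c p a x y = 0 := by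
    have h := hclosed p a b z x y hp ha hb hz hx hy (by simp [*])
    rw [hskew p a x y hp ha hx hy (by simp [*])] at h
    rw [sub_eq_add_neg]; exact h
  apply sub_eq_zero.1
  apply h3
  rw [hskew p b x y hp hb hx hy (by simp [*]), hskew p b x z hp hb hx hz (by simp [*])]
  have key : (3 : ℤ) • (c p a x y + -c p b x y - (c p a x z + -c p b x z)) =
      (-2 : ℤ) • (0:V) := by
    rw [smul_zero]
    linear_combination (norm := module) (-2 : ℤ) • r0 + (1 : ℤ) • r1 + (1 : ℤ) • r2 + (-1 : ℤ) • r3 + (2 : ℤ) • r4 + (1 : ℤ) • r5 + (-1 : ℤ) • r6 + (-1 : ℤ) • r7 + (1 : ℤ) • r8 + (1 : ℤ) • r9 + (-1 : ℤ) • r10 + (-1 : ℤ) • r11 + (1 : ℤ) • r12 + (-1 : ℤ) • r13 + (1 : ℤ) • r14 + (-1 : ℤ) • r15 + (-1 : ℤ) • r16 + (1 : ℤ) • r17 + (-1 : ℤ) • r18 + (1 : ℤ) • r19 + (1 : ℤ) • r20 + (-1 : ℤ) • r21 + (-1 : ℤ) • r22 + (1 : ℤ) • r23 + (1 : ℤ) • r24 + (-1 : ℤ) • r25 + (1 : ℤ) • r26 + (-1 : ℤ) • r27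
  rw [key, smul_zero]


end Pool.Agent.Lib.MP_b4a71d_al.S
end

section

/-!
# MP_b4a71d_al, S point: gluing of potentials on the graph of near perfect matchings
-/

set_option autoImplicit false

namespace Pool.Agent.Lib.MP_b4a71d_al.S

universe u v

open Equiv

variable {ι : Type u} [DecidableEq ι] {V : Type v} [AddCommGroup V]

/-! ### The abstract part -/

section Abstract

variable {α : Type u}

private theorem nd4 {i j k l : α} (hij : i ≠ j) (hik : i ≠ k) (hil : i ≠ l) (hjk : j ≠ k)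
    (hjl : j ≠ l) (hkl : k ≠ l) : [i, j, k, l].Nodup := by
  simp [*]

private theorem gstep [DecidableEq α] [Fintype α] (hα : 7 ≤ Fintype.card α)
    (h3 : ∀ v : V, (3 : ℤ) • v = 0 → v = 0) (c : α → α → α → α → V)
    (hskew : ∀ i j k l, [i, j, k, l].Nodup → c k l i j = - c i j k l)
    (hclosed : ∀ i j k l m n, [i, j, k, l, m, n].Nodup →
      c i j k l + c k l m n + c m n i j = 0)
    (x a b t u u' : α) (hnd : [x, a, b, t, u, u'].Nodup) :
    c x a t u + c t u x b = c x a t u' + c t u' x b := by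
  have hcard : ({x, a, b, t, u, u'} : Finset α).card < Fintype.card α :=
    lt_of_le_of_lt Finset.card_le_six (by omega)
  obtain ⟨w, hw⟩ : ∃ w, w ∉ ({x, a, b, t, u, u'} : Finset α) := by
    by_contra hcon
    push Not at hcon
    have : ({x, a, b, t, u, u'} : Finset α) = Finset.univ := by
      ext y; simpa using hcon y
    rw [this, Finset.card_univ] at hcard
    exact lt_irrefl _ hcard
  simp only [Finset.mem_insert, Finset.mem_singleton, not_or] at hw
  obtain ⟨wx, wa, wb, wt, wu, wu'⟩ := hw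
  refine seven h3 c Finset.univ (fun i j k l _ _ _ _ h => hskew i j k l h)
    (fun i j k l m n _ _ _ _ _ _ h => hclosed i j k l m n h) x a b t u u' w
    (Finset.mem_univ _) (Finset.mem_univ _) (Finset.mem_univ _) (Finset.mem_univ _)
    (Finset.mem_univ _) (Finset.mem_univ _) (Finset.mem_univ _) ?_
  simp only [List.nodup_cons, List.mem_cons, List.not_mem_nil, or_false, not_or,
    not_false_eq_true, List.nodup_nil, and_true] at hnd ⊢
  obtain ⟨⟨n1, n2, n3, n4, n5⟩, ⟨n6, n7, n8, n9⟩, ⟨n10, n11, n12⟩, ⟨n13, n14⟩, n15⟩ := hnd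
  exact ⟨⟨n1, n2, n3, n4, n5, Ne.symm wx⟩, ⟨n6, n7, n8, n9, Ne.symm wa⟩,
    ⟨n10, n11, n12, Ne.symm wb⟩, ⟨n13, n14, Ne.symm wt⟩, ⟨n15, Ne.symm wu⟩, Ne.symm wu'⟩

private theorem gconst [DecidableEq α] [Fintype α] (hα : 7 ≤ Fintype.card α)
    (h3 : ∀ v : V, (3 : ℤ) • v = 0 → v = 0) (c : α → α → α → α → V)
    (hskew : ∀ i j k l, [i, j, k, l].Nodup → c k l i j = - c i j k l)
    (hclosed : ∀ i j k l m n, [i, j, k, l, m, n].Nodup →
      c i j k l + c k l m n + c m n i j = 0)
    (hs1 : ∀ i j k l, [i, j, k, l].Nodup → c j i k l = c i j k l)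
    (hs2 : ∀ i j k l, [i, j, k, l].Nodup → c i j l k = c i j k l)
    (x a b : α) (hxa : x ≠ a) (hxb : x ≠ b) (hab : a ≠ b) (t u t' u' : α)
    (htu : t ≠ u) (htx : t ≠ x) (hta : t ≠ a) (htb : t ≠ b)
    (hux : u ≠ x) (hua : u ≠ a) (hub : u ≠ b) (htu' : t' ≠ u') (htx' : t' ≠ x) (hta' : t' ≠ a)
    (htb' : t' ≠ b) (hux' : u' ≠ x) (hua' : u' ≠ a) (hub' : u' ≠ b) :
    c x a t u + c t u x b = c x a t' u' + c t' u' x b := by
  have step : ∀ t u u' : α, t ≠ u → t ≠ u' → t ≠ x → t ≠ a → t ≠ b → u ≠ x → u ≠ a → u ≠ b →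
      u' ≠ x → u' ≠ a → u' ≠ b → c x a t u + c t u x b = c x a t u' + c t u' x b := by
    intro t u u' h1 h2 h3' h4 h5 h6 h7 h8 h9 h10 h11
    by_cases huu : u = u'
    · rw [huu]
    · refine gstep hα h3 c hskew hclosed x a b t u u' ?_
      simp only [List.nodup_cons, List.mem_cons, List.not_mem_nil, or_false, not_or,
        not_false_eq_true, List.nodup_nil, and_true]
      exact ⟨⟨hxa, hxb, Ne.symm h3', Ne.symm h6, Ne.symm h9⟩,
        ⟨hab, Ne.symm h4, Ne.symm h7, Ne.symm h10⟩, ⟨Ne.symm h5, Ne.symm h8, Ne.symm h11⟩,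
        ⟨h1, h2⟩, huu⟩
  have sym : ∀ t u : α, t ≠ u → t ≠ x → t ≠ a → t ≠ b → u ≠ x → u ≠ a → u ≠ b →
      c x a t u + c t u x b = c x a u t + c u t x b := by
    intro t u h1 h2 h3' h4 h5 h6 h7
    rw [hs2 x a t u (nd4 hxa (Ne.symm h2) (Ne.symm h5) (Ne.symm h3') (Ne.symm h6) h1),
      hs1 t u x b (nd4 h1 h2 h4 h5 h7 hxb)]
  by_cases h1 : t = t'
  · subst h1
    exact step t u u' htu htu' htx hta htb hux hua hub hux' hua' hub'
  · by_cases h2 : u = t'
    · subst h2
      rw [sym t u htu htx hta htb hux hua hub]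
      exact step u t u' (Ne.symm htu) htu' hux hua hub htx hta htb hux' hua' hub'
    · rw [sym t u htu htx hta htb hux hua hub,
        step u t t' (Ne.symm htu) h2 hux hua hub htx hta htb htx' hta' htb',
        sym u t' h2 hux hua hub htx' hta' htb']
      exact step t' u u' (Ne.symm h2) htu' htx' hta' htb' hux hua hub hux' hua' hub'

private theorem exists_two [DecidableEq α] [Fintype α] (hα : 7 ≤ Fintype.card α)
    (T : Finset α) (hT : T.card ≤ 5) : ∃ t u : α, t ≠ u ∧ t ∉ T ∧ u ∉ T := by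
  have h : 1 < (Tᶜ).card := by
    rw [Finset.card_compl]; omega
  obtain ⟨t, ht, u, hu, htu⟩ := Finset.one_lt_card.1 h
  exact ⟨t, u, htu, by simpa using ht, by simpa using hu⟩

private theorem abs_glue [DecidableEq α] [Fintype α] (hα : 7 ≤ Fintype.card α)
    (h3 : ∀ v : V, (3 : ℤ) • v = 0 → v = 0) (c : α → α → α → α → V)
    (hskew : ∀ i j k l, [i, j, k, l].Nodup → c k l i j = - c i j k l)
    (hclosed : ∀ i j k l m n, [i, j, k, l, m, n].Nodup →
      c i j k l + c k l m n + c m n i j = 0)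
    (hs1 : ∀ i j k l, [i, j, k, l].Nodup → c j i k l = c i j k l)
    (hs2 : ∀ i j k l, [i, j, k, l].Nodup → c i j l k = c i j k l) :
    ∃ k : α → α → V, (∀ p q, p ≠ q → k q p = k p q) ∧
      ∀ p q r s, [p, q, r, s].Nodup → c p q r s = k r s - k p q := by
  obtain ⟨b0, b1, hb, -, -⟩ := exists_two hα (∅ : Finset α) (by simp)
  have hG := gconst hα h3 c hskew hclosed hs1 hs2
  have indep : ∀ p q t u t' u' : α, p ≠ q → t ≠ u → t ≠ b0 → t ≠ b1 → t ≠ p → t ≠ q →
      u ≠ b0 → u ≠ b1 → u ≠ p → u ≠ q → t' ≠ u' → t' ≠ b0 → t' ≠ b1 → t' ≠ p → t' ≠ q →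
      u' ≠ b0 → u' ≠ b1 → u' ≠ p → u' ≠ q →
      c b0 b1 t u + c t u p q = c b0 b1 t' u' + c t' u' p q := by
    intro p q t u t' u' hpq htu t0 t1 tp tq u0 u1 up uq htu' t0' t1' tp' tq' u0' u1' up' uq'
    by_cases hp0 : p = b0
    · subst hp0
      by_cases hq1 : q = b1
      · subst hq1
        rw [hskew p q t u (nd4 hb (Ne.symm t0) (Ne.symm u0) (Ne.symm t1) (Ne.symm u1) htu),
          hskew p q t' u' (nd4 hb (Ne.symm t0') (Ne.symm u0') (Ne.symm t1') (Ne.symm u1') htu')]
        simp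
      · exact hG p b1 q hb hpq (Ne.symm hq1) t u t' u' htu t0 t1 tq u0 u1 uq htu' t0' t1' tq'
          u0' u1' uq'
    · by_cases hp1 : p = b1
      · subst hp1
        by_cases hq0 : q = b0
        · subst hq0
          rw [hs2 t u q p (nd4 htu t0 t1 u0 u1 hb), hs2 t' u' q p (nd4 htu' t0' t1' u0' u1' hb),
            hskew q p t u (nd4 hb (Ne.symm t0) (Ne.symm u0) (Ne.symm t1) (Ne.symm u1) htu),
            hskew q p t' u' (nd4 hb (Ne.symm t0') (Ne.symm u0') (Ne.symm t1') (Ne.symm u1') htu')]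
          simp
        · rw [← hs1 b0 p t u (nd4 hb (Ne.symm t0) (Ne.symm u0) (Ne.symm t1) (Ne.symm u1) htu),
            ← hs1 b0 p t' u' (nd4 hb (Ne.symm t0') (Ne.symm u0') (Ne.symm t1') (Ne.symm u1') htu')]
          exact hG p b0 q (Ne.symm hb) hpq (Ne.symm hq0) t u t' u' htu t1 t0 tq u1 u0 uq htu'
            t1' t0' tq' u1' u0' uq'
      · by_cases hq0 : q = b0
        · subst hq0
          rw [← hs2 t u p q (nd4 htu tp tq up uq hpq), ← hs2 t' u' p q (nd4 htu' tp' tq' up' uq' hpq)]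
          exact hG q b1 p hb (Ne.symm hpq) (Ne.symm hp1) t u t' u' htu t0 t1 tp u0 u1 up htu'
            t0' t1' tp' u0' u1' up'
        · by_cases hq1 : q = b1
          · subst hq1
            rw [← hs2 t u p q (nd4 htu tp tq up uq hpq),
              ← hs2 t' u' p q (nd4 htu' tp' tq' up' uq' hpq),
              ← hs1 b0 q t u (nd4 hb (Ne.symm t0) (Ne.symm u0) (Ne.symm t1) (Ne.symm u1) htu),
              ← hs1 b0 q t' u'
                (nd4 hb (Ne.symm t0') (Ne.symm u0') (Ne.symm t1') (Ne.symm u1') htu')]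
            exact hG q b0 p (Ne.symm hb) (Ne.symm hpq) (Ne.symm hp0) t u t' u' htu t1 t0 tp u1 u0 up
              htu' t1' t0' tp' u1' u0' up'
          · have e1 := hclosed b0 b1 t u p q (by
              have := Ne.symm t0; have := Ne.symm u0; have := Ne.symm t1; have := Ne.symm u1
              have := Ne.symm hp0; have := Ne.symm hp1; have := Ne.symm hq0; have := Ne.symm hq1
              simp [*])
            have e2 := hclosed b0 b1 t' u' p q (by
              have := Ne.symm t0'; have := Ne.symm u0'; have := Ne.symm t1'; have := Ne.symm u1'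
              have := Ne.symm hp0; have := Ne.symm hp1; have := Ne.symm hq0; have := Ne.symm hq1
              simp [*])
            rw [← e2] at e1
            exact add_right_cancel e1
  have hk : ∀ p q : α, ∃ v : V, p ≠ q → ∀ t u, t ≠ u → t ≠ b0 → t ≠ b1 → t ≠ p → t ≠ q →
      u ≠ b0 → u ≠ b1 → u ≠ p → u ≠ q → v = c b0 b1 t u + c t u p q := by
    intro p q
    obtain ⟨t, u, htu, ht, hu⟩ := exists_two hα ({b0, b1, p, q} : Finset α)
      (le_trans Finset.card_le_four (by omega))
    simp only [Finset.mem_insert, Finset.mem_singleton, not_or] at ht hu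
    refine ⟨c b0 b1 t u + c t u p q, fun hpq t' u' h1 h2 h3' h4 h5 h6 h7 h8 h9 => ?_⟩
    exact indep p q t u t' u' hpq htu ht.1 ht.2.1 ht.2.2.1 ht.2.2.2 hu.1 hu.2.1 hu.2.2.1 hu.2.2.2
      h1 h2 h3' h4 h5 h6 h7 h8 h9
  choose k hk using hk
  refine ⟨k, ?_, ?_⟩
  · intro p q hpq
    obtain ⟨t, u, htu, ht, hu⟩ := exists_two hα ({b0, b1, p, q} : Finset α)
      (le_trans Finset.card_le_four (by omega))
    simp only [Finset.mem_insert, Finset.mem_singleton, not_or] at ht hu
    obtain ⟨t0, t1, tp, tq⟩ := ht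
    obtain ⟨u0, u1, up, uq⟩ := hu
    rw [hk q p (Ne.symm hpq) t u htu t0 t1 tq tp u0 u1 uq up,
      hk p q hpq t u htu t0 t1 tp tq u0 u1 up uq, hs2 t u p q (nd4 htu tp tq up uq hpq)]
  · intro p q r s hnd
    have hnd' := hnd
    simp only [List.nodup_cons, List.mem_cons, List.not_mem_nil, or_false, not_or,
      not_false_eq_true, List.nodup_nil, and_true] at hnd'
    obtain ⟨⟨pq, pr, ps⟩, ⟨qr, qs⟩, rs⟩ := hnd'
    by_cases hdis : b0 ∉ ({p, q, r, s} : Finset α) ∧ b1 ∉ ({p, q, r, s} : Finset α)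
    · simp only [Finset.mem_insert, Finset.mem_singleton, not_or] at hdis
      obtain ⟨⟨p0, q0, r0, s0⟩, ⟨p1, q1, r1, s1⟩⟩ := hdis
      have e1 := hk r s rs p q pq (Ne.symm p0) (Ne.symm p1) pr ps (Ne.symm q0) (Ne.symm q1) qr qs
      have e2 := hk p q pq r s rs (Ne.symm r0) (Ne.symm r1) (Ne.symm pr) (Ne.symm qr) (Ne.symm s0)
        (Ne.symm s1) (Ne.symm ps) (Ne.symm qs)
      have e3 := hclosed b0 b1 p q r s (by simp [*])
      rw [hskew p q r s hnd] at e2
      rw [hskew b0 b1 r s (nd4 hb r0 s0 r1 s1 rs)] at e3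
      rw [e1, e2]
      have e4 : c b0 b1 r s = c b0 b1 p q + c p q r s := by
        rw [← sub_eq_add_neg] at e3
        exact (sub_eq_zero.1 e3).symm
      rw [e4]
      abel
    · have hT : ∃ T : Finset α, T.card ≤ 5 ∧ b0 ∈ T ∧ b1 ∈ T ∧ p ∈ T ∧ q ∈ T ∧ r ∈ T ∧ s ∈ T := by
        by_cases h0 : b0 ∈ ({p, q, r, s} : Finset α)
        · refine ⟨insert b1 {p, q, r, s}, ?_, ?_, ?_, ?_, ?_, ?_, ?_⟩
          · refine le_trans (Finset.card_insert_le _ _) ?_
            have := Finset.card_le_four (a := p) (b := q) (c := r) (d := s)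
            omega
          · exact Finset.mem_insert_of_mem h0
          all_goals simp
        · have h1 : b1 ∈ ({p, q, r, s} : Finset α) := by
            by_contra hcon
            exact hdis ⟨h0, hcon⟩
          refine ⟨insert b0 {p, q, r, s}, ?_, ?_, ?_, ?_, ?_, ?_, ?_⟩
          · refine le_trans (Finset.card_insert_le _ _) ?_
            have := Finset.card_le_four (a := p) (b := q) (c := r) (d := s)
            omega
          · simp
          · exact Finset.mem_insert_of_mem h1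
          all_goals simp
      obtain ⟨T, hT5, m0, m1, mp, mq, mr, ms⟩ := hT
      obtain ⟨t, u, htu, ht, hu⟩ := exists_two hα T hT5
      have ne : ∀ {x y : α}, x ∉ T → y ∈ T → x ≠ y := fun hx hy h => hx (h ▸ hy)
      have tp := ne ht mp
      have tq := ne ht mq
      have tr := ne ht mr
      have ts := ne ht ms
      have up := ne hu mp
      have uq := ne hu mq
      have ur := ne hu mr
      have us := ne hu ms
      have e1 := hk r s rs t u htu (ne ht m0) (ne ht m1) tr ts (ne hu m0) (ne hu m1) ur us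
      have e2 := hk p q pq t u htu (ne ht m0) (ne ht m1) tp tq (ne hu m0) (ne hu m1) up uq
      have e3 := hclosed p q r s t u (by
        have := Ne.symm tp; have := Ne.symm tq; have := Ne.symm tr; have := Ne.symm ts
        have := Ne.symm up; have := Ne.symm uq; have := Ne.symm ur; have := Ne.symm us
        simp [*])
      rw [hskew t u r s (nd4 htu tr ts ur us rs)] at e3
      rw [e1, e2]
      have e4 : c p q r s = c t u r s - c t u p q := by
        have : c p q r s - (c t u r s - c t u p q) = c p q r s + -c t u r s + c t u p q := by abel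
        rw [← sub_eq_zero, this, e3]
      rw [e4]
      abel

end Abstract

/-! ### Matchings with given pairs -/

omit [DecidableEq ι] in
private theorem Vert.apply_mem {S : Finset ι} {b : ι} {σ : Perm ι} (h : Vert S b σ) {p : ι}
    (hp : p ∈ S) (hpb : p ≠ b) : σ p ∈ S ∧ σ p ≠ b ∧ σ p ≠ p := by
  have h1 : σ p ≠ p := (h.2.2 p).2 ⟨hp, hpb⟩
  have h2 : σ (σ p) ≠ σ p := by rw [h.2.1 p]; exact Ne.symm h1
  have h3 := (h.2.2 (σ p)).1 h2
  exact ⟨h3.1, h3.2, h1⟩

private theorem insert_two {S : Finset ι} {b : ι} {τ : Perm ι} {p q r s : ι} (hp : p ∈ S)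
    (hq : q ∈ S) (hr : r ∈ S) (hs : s ∈ S) (pq : p ≠ q) (pr : p ≠ r) (ps : p ≠ s) (qr : q ≠ r)
    (qs : q ≠ s) (rs : r ≠ s) (h : Vert ((S \ {p, q}) \ {r, s}) b τ) :
    Vert S b (τ * swap r s * swap p q) ∧ (τ * swap r s * swap p q) p = q ∧
      (τ * swap r s * swap p q) r = s := by
  obtain ⟨h1, h2⟩ := Vert.insert_pair (S := S \ {p, q}) (p := r) (q := s)
    (by simp [hr, Ne.symm pr, Ne.symm qr]) (by simp [hs, Ne.symm ps, Ne.symm qs]) rs h
  obtain ⟨h3, h4⟩ := Vert.insert_pair hp hq pq h1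
  refine ⟨h3, h4, ?_⟩
  rw [Perm.mul_apply, swap_apply_of_ne_of_ne (Ne.symm pr) (Ne.symm qr), h2]

private theorem exists_of_two {S : Finset ι} (hS : 7 ≤ S.card) (hodd : Odd S.card)
    {p q r s : ι} (hp : p ∈ S) (hq : q ∈ S) (hr : r ∈ S) (hs : s ∈ S) (pq : p ≠ q)
    (pr : p ≠ r) (ps : p ≠ s) (qr : q ≠ r) (qs : q ≠ s) (rs : r ≠ s) :
    ∃ b σ, Vert S b σ ∧ σ p = q ∧ σ r = s := by
  have hc : ((S \ {p, q}) \ {r, s}).card = S.card - 4 := by
    rw [Finset.card_sdiff_of_subset, Finset.card_sdiff_of_subset, Finset.card_pair pq,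
      Finset.card_pair rs]
    · omega
    · intro x hx
      simp only [Finset.mem_insert, Finset.mem_singleton] at hx
      rcases hx with rfl | rfl <;> assumption
    · intro x hx
      simp only [Finset.mem_insert, Finset.mem_singleton] at hx
      rcases hx with rfl | rfl
      · simp [hr, Ne.symm pr, Ne.symm qr]
      · simp [hs, Ne.symm ps, Ne.symm qs]
  have ho : Odd ((S \ {p, q}) \ {r, s}).card := by
    rw [hc]
    obtain ⟨m, hm⟩ := hodd
    exact ⟨m - 2, by omega⟩
  obtain ⟨b, τ, hτ⟩ := exists_vert _ ho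
  exact ⟨b, _, insert_two hp hq hr hs pq pr ps qr qs rs hτ⟩

private theorem exists_of_three {S : Finset ι} (hS : 7 ≤ S.card) (hodd : Odd S.card)
    {p q r s m n : ι} (hp : p ∈ S) (hq : q ∈ S) (hr : r ∈ S) (hs : s ∈ S) (hm : m ∈ S)
    (hn : n ∈ S) (hnd : [p, q, r, s, m, n].Nodup) :
    ∃ b σ, Vert S b σ ∧ σ p = q ∧ σ r = s ∧ σ m = n := by
  simp only [List.nodup_cons, List.mem_cons, List.not_mem_nil, or_false, not_or,
    not_false_eq_true, List.nodup_nil, and_true] at hnd
  obtain ⟨⟨pq, pr, ps, pm, pn⟩, ⟨qr, qs, qm, qn⟩, ⟨rs, rm, rn⟩, ⟨sm, sn⟩, mn⟩ := hnd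
  have hc : (((S \ {p, q}) \ {r, s}) \ {m, n}).card = S.card - 6 := by
    rw [Finset.card_sdiff_of_subset, Finset.card_sdiff_of_subset, Finset.card_sdiff_of_subset,
      Finset.card_pair pq, Finset.card_pair rs, Finset.card_pair mn]
    · omega
    · intro x hx
      simp only [Finset.mem_insert, Finset.mem_singleton] at hx
      rcases hx with rfl | rfl <;> assumption
    · intro x hx
      simp only [Finset.mem_insert, Finset.mem_singleton] at hx
      rcases hx with rfl | rfl
      · simp [hr, Ne.symm pr, Ne.symm qr]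
      · simp [hs, Ne.symm ps, Ne.symm qs]
    · intro x hx
      simp only [Finset.mem_insert, Finset.mem_singleton] at hx
      rcases hx with rfl | rfl
      · simp [hm, Ne.symm pm, Ne.symm qm, Ne.symm rm, Ne.symm sm]
      · simp [hn, Ne.symm pn, Ne.symm qn, Ne.symm rn, Ne.symm sn]
  have ho : Odd (((S \ {p, q}) \ {r, s}) \ {m, n}).card := by
    rw [hc]
    obtain ⟨j, hj⟩ := hodd
    exact ⟨j - 3, by omega⟩
  obtain ⟨b, τ, hτ⟩ := exists_vert _ ho
  obtain ⟨h1, h2⟩ := Vert.insert_pair (S := (S \ {p, q}) \ {r, s}) (p := m) (q := n)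
    (by simp [hm, Ne.symm pm, Ne.symm qm, Ne.symm rm, Ne.symm sm])
    (by simp [hn, Ne.symm pn, Ne.symm qn, Ne.symm rn, Ne.symm sn]) mn hτ
  obtain ⟨h3, h4, h5⟩ := insert_two hp hq hr hs pq pr ps qr qs rs h1
  refine ⟨b, _, h3, h4, h5, ?_⟩
  rw [Perm.mul_apply, swap_apply_of_ne_of_ne (Ne.symm pm) (Ne.symm qm), Perm.mul_apply,
    swap_apply_of_ne_of_ne (Ne.symm rm) (Ne.symm sm), h2]

omit [AddCommGroup V] in
/-- A function which is constant along the moves which do not touch two given pairs is constant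
on the matchings with these two pairs. -/
private theorem const_of_two {S : Finset ι} {p q r s : ι} (hp : p ∈ S)
    (hq : q ∈ S) (hr : r ∈ S) (hs : s ∈ S) (pq : p ≠ q) (pr : p ≠ r) (ps : p ≠ s) (qr : q ≠ r)
    (qs : q ≠ s) (rs : r ≠ s) (G : ι → Perm ι → V)
    (hG : ∀ b σ a, Vert S b σ → σ p = q → σ r = s → a ∈ S → a ≠ b → a ≠ p → a ≠ q → a ≠ r →
      a ≠ s → G b σ = G a (mv a b σ)) {b b' : ι} {σ σ' : Perm ι} (h : Vert S b σ)
    (hpσ : σ p = q) (hrσ : σ r = s) (h' : Vert S b' σ') (hpσ' : σ' p = q) (hrσ' : σ' r = s) :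
    G b σ = G b' σ' := by
  have key : ∀ {b : ι} {σ : Perm ι}, Vert S b σ → σ p = q → σ r = s →
      Vert ((S \ {p, q}) \ {r, s}) b (σ * swap p q * swap r s) := by
    intro b σ h h1 h2
    have h3 := h.erase_pair pq h1
    refine h3.erase_pair rs ?_
    rw [Perm.mul_apply, swap_apply_of_ne_of_ne (Ne.symm pr) (Ne.symm qr), h2]
  have back : ∀ σ : Perm ι, σ * swap p q * swap r s * swap r s * swap p q = σ := by
    intro σ
    rw [mul_assoc (σ * swap p q), swap_mul_self, mul_one, mul_assoc, swap_mul_self, mul_one]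
  have hc := conn ((S \ {p, q}) \ {r, s}) (fun b τ => G b (τ * swap r s * swap p q)) ?_ b
    (σ * swap p q * swap r s) b' (σ' * swap p q * swap r s) (key h hpσ hrσ) (key h' hpσ' hrσ')
  · simpa only [back] using hc
  · intro b τ a hτ ha hab
    obtain ⟨h1, h2, h3⟩ := insert_two hp hq hr hs pq pr ps qr qs rs hτ
    have hb := hτ.1
    simp only [Finset.mem_sdiff, Finset.mem_insert, Finset.mem_singleton, not_or] at ha hb
    obtain ⟨⟨haS, hap, haq⟩, har, has⟩ := ha
    obtain ⟨⟨hbS, hbp, hbq⟩, hbr, hbs⟩ := hb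
    have := hG b _ a h1 h2 h3 haS hab hap haq har has
    show G b (τ * swap r s * swap p q) = G a (mv a b τ * swap r s * swap p q)
    rw [this, mv_mul_swap _ hap haq hbp hbq, mv_mul_swap _ har has hbr hbs]

/-- Gluing.  `ell b σ a` is a function on the oriented edges `(b, σ) → (a, mv a b σ)`.  If it is
the boundary of a potential on the part of the graph where `{p, q}` is a pair, for every pair
`{p, q}`, and `S` has at least seven points, then it is the boundary of a potential.

Proof.  Choose `Φ p q = Φ q p` for all pairs (for unordered pairs).  If `{p, q}` and `{r, s}` are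
disjoint then the difference `Φ p q b σ - Φ r s b σ` does not depend on the matching `(b, σ)` with
`σ p = q`, `σ r = s` (`conn` for `S \ {p, q, r, s}`); call it `c p q r s`.  It is skew and closed
on triples of disjoint pairs (there is a matching which contains three given disjoint pairs, as
`S` has at least seven points).  Fix a pair `B` in `S`.  For a pair `P` of `S` take a pair `T`
disjoint from `B` and `P` and put `k P = c B T + c T P`.  This does not depend on `T`: let `T, T'`
be two pairs disjoint from `B` and `P`.  If `B = P` then both are `0`.  If `B` and `P` are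
disjoint both values are `c B P`.  If they have one point in common and `T, T'` are disjoint use
the triples `(B, T, T')` and `(P, T, T')`; if `T, T'` have one point in common and `S` has at
least 9 points take `T''` disjoint from `B, P, T, T'` and use the previous case twice; if `S` has
seven points this is `seven` (file Seven).  For disjoint pairs `P, Q` choose `T` disjoint from `B, P, Q` if
there is one: `k Q - k P = c T Q - c T P = c P Q`; there is one unless `S` has seven points and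
`B, P, Q` are disjoint, and then (`k P = c B P`, `k Q = c B Q`) use the triple `(B, P, Q)`.
So `Φ p q b σ + k {p, q}` (up to the sign of `k`) does not depend on the pair `{p, q}` of the
matching `σ`, and this is the potential. -/
theorem glue (h3 : ∀ v : V, (3 : ℤ) • v = 0 → v = 0) (S : Finset ι) (hS : 7 ≤ S.card)
    (hodd : Odd S.card) (ell : ι → Perm ι → ι → V)
    (H : ∀ p ∈ S, ∀ q ∈ S, p ≠ q → ∃ Φ : ι → Perm ι → V, ∀ b σ a, Vert S b σ → σ p = q →
      a ∈ S → a ≠ b → a ≠ p → a ≠ q → Φ b σ - Φ a (mv a b σ) = ell b σ a) :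
    ∃ Φ : ι → Perm ι → V, ∀ b σ a, Vert S b σ → a ∈ S → a ≠ b →
      Φ b σ - Φ a (mv a b σ) = ell b σ a := by
  classical
  -- potentials for unordered pairs
  have hF0 : ∀ e : Sym2 ι, ∃ Φ : ι → Perm ι → V, ∀ p q, e = s(p, q) → p ∈ S → q ∈ S → p ≠ q →
      ∀ b σ a, Vert S b σ → σ p = q → a ∈ S → a ≠ b → a ≠ p → a ≠ q →
      Φ b σ - Φ a (mv a b σ) = ell b σ a := by
    intro e
    induction e using Sym2.ind with
    | _ x y =>
      by_cases hxy : x ∈ S ∧ y ∈ S ∧ x ≠ y
      · obtain ⟨Φ, hΦ⟩ := H x hxy.1 y hxy.2.1 hxy.2.2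
        refine ⟨Φ, fun p q he hp hq hpq b σ a hv hσ ha hab hap haq => ?_⟩
        rcases Sym2.eq_iff.1 he with ⟨rfl, rfl⟩ | ⟨rfl, rfl⟩
        · exact hΦ b σ a hv hσ ha hab hap haq
        · exact hΦ b σ a hv (by rw [← hσ, hv.2.1]) ha hab haq hap
      · refine ⟨fun _ _ => 0, fun p q he hp hq hpq => ?_⟩
        exfalso
        rcases Sym2.eq_iff.1 he with ⟨rfl, rfl⟩ | ⟨rfl, rfl⟩
        · exact hxy ⟨hp, hq, hpq⟩
        · exact hxy ⟨hq, hp, Ne.symm hpq⟩
  choose F hF' using hF0
  have hF : ∀ p q, p ∈ S → q ∈ S → p ≠ q → ∀ b σ a, Vert S b σ → σ p = q → a ∈ S → a ≠ b →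
      a ≠ p → a ≠ q → F s(p, q) b σ - F s(p, q) a (mv a b σ) = ell b σ a :=
    fun p q hp hq hpq => hF' s(p, q) p q rfl hp hq hpq
  clear hF'
  -- the differences
  have hc0 : ∀ p q r s : {x // x ∈ S}, ∃ v : V, [p, q, r, s].Nodup → ∀ b σ, Vert S b σ →
      σ p = q → σ r = s → F s((p : ι), (q : ι)) b σ - F s((r : ι), (s : ι)) b σ = v := by
    intro p q r s
    by_cases hnd : [p, q, r, s].Nodup
    · have hnd' := hnd
      simp only [List.nodup_cons, List.mem_cons, List.not_mem_nil, or_false, not_or,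
        not_false_eq_true, List.nodup_nil, and_true, ← Subtype.coe_inj] at hnd'
      obtain ⟨⟨pq, pr, ps⟩, ⟨qr, qs⟩, rs⟩ := hnd'
      obtain ⟨b0, σ0, hv0, h1, h2⟩ := exists_of_two hS hodd p.2 q.2 r.2 s.2 pq pr ps qr qs rs
      refine ⟨F s((p : ι), (q : ι)) b0 σ0 - F s((r : ι), (s : ι)) b0 σ0,
        fun _ b σ hv h3 h4 => ?_⟩
      refine const_of_two p.2 q.2 r.2 s.2 pq pr ps qr qs rs
        (fun b σ => F s((p : ι), (q : ι)) b σ - F s((r : ι), (s : ι)) b σ) ?_ hv h3 h4 hv0 h1 h2
      intro b σ a hv h5 h6 ha hab hap haq har has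
      have e1 := hF p q p.2 q.2 pq b σ a hv h5 ha hab hap haq
      have e2 := hF r s r.2 s.2 rs b σ a hv h6 ha hab har has
      rw [← e2] at e1
      show F s((p : ι), (q : ι)) b σ - F s((r : ι), (s : ι)) b σ =
        F s((p : ι), (q : ι)) a (mv a b σ) - F s((r : ι), (s : ι)) a (mv a b σ)
      rw [sub_eq_sub_iff_add_eq_add] at e1 ⊢
      rw [e1]
      abel
    · exact ⟨0, fun h => absurd h hnd⟩
  choose c hc using hc0
  have hα : 7 ≤ Fintype.card {x // x ∈ S} := by simpa using hS
  obtain ⟨k, hksym, hk⟩ := abs_glue hα h3 c (by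
      intro i j k l hnd
      have hnd' := hnd
      simp only [List.nodup_cons, List.mem_cons, List.not_mem_nil, or_false, not_or,
        not_false_eq_true, List.nodup_nil, and_true, ← Subtype.coe_inj] at hnd'
      obtain ⟨⟨pq, pr, ps⟩, ⟨qr, qs⟩, rs⟩ := hnd'
      obtain ⟨b, σ, hv, h1, h2⟩ := exists_of_two hS hodd i.2 j.2 k.2 l.2 pq pr ps qr qs rs
      rw [← hc i j k l hnd b σ hv h1 h2, ← hc k l i j (by
        have := Ne.symm pr; have := Ne.symm ps; have := Ne.symm qr; have := Ne.symm qs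
        simp [← Subtype.coe_inj, *]) b σ hv h2 h1]
      abel) (by
      intro i j k l m n hnd
      obtain ⟨b, σ, hv, h1, h2, h3'⟩ := exists_of_three hS hodd i.2 j.2 k.2 l.2 m.2 n.2 (by
        have := hnd.map (f := Subtype.val) Subtype.val_injective
        simpa using this)
      simp only [List.nodup_cons, List.mem_cons, List.not_mem_nil, or_false, not_or,
        not_false_eq_true, List.nodup_nil, and_true] at hnd
      obtain ⟨⟨ij, ik, il, im, iN⟩, ⟨jk, jl, jm, jn⟩, ⟨kl, km, kn⟩, ⟨lm, ln⟩, mn⟩ := hnd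
      rw [← hc i j k l (nd4 ij ik il jk jl kl) b σ hv h1 h2,
        ← hc k l m n (nd4 kl km kn lm ln mn) b σ hv h2 h3',
        ← hc m n i j (nd4 mn (Ne.symm im) (Ne.symm jm) (Ne.symm iN) (Ne.symm jn) ij) b σ hv h3' h1]
      abel) (by
      intro i j k l hnd
      have hnd' := hnd
      simp only [List.nodup_cons, List.mem_cons, List.not_mem_nil, or_false, not_or,
        not_false_eq_true, List.nodup_nil, and_true, ← Subtype.coe_inj] at hnd'
      obtain ⟨⟨pq, pr, ps⟩, ⟨qr, qs⟩, rs⟩ := hnd'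
      obtain ⟨b, σ, hv, h1, h2⟩ := exists_of_two hS hodd i.2 j.2 k.2 l.2 pq pr ps qr qs rs
      rw [← hc i j k l hnd b σ hv h1 h2, ← hc j i k l (by
        have := Ne.symm pq
        simp [← Subtype.coe_inj, *]) b σ hv (by rw [← h1, hv.2.1]) h2, Sym2.eq_swap]) (by
      intro i j k l hnd
      have hnd' := hnd
      simp only [List.nodup_cons, List.mem_cons, List.not_mem_nil, or_false, not_or,
        not_false_eq_true, List.nodup_nil, and_true, ← Subtype.coe_inj] at hnd'
      obtain ⟨⟨pq, pr, ps⟩, ⟨qr, qs⟩, rs⟩ := hnd'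
      obtain ⟨b, σ, hv, h1, h2⟩ := exists_of_two hS hodd i.2 j.2 k.2 l.2 pq pr ps qr qs rs
      rw [← hc i j k l hnd b σ hv h1 h2, ← hc i j l k (by
        have := Ne.symm rs
        simp [← Subtype.coe_inj, *]) b σ hv h1 (by rw [← h2, hv.2.1]),
        Sym2.eq_swap (a := (l : ι)) (b := (k : ι))])
  -- extend `k`
  obtain ⟨k', hk'⟩ : ∃ k' : ι → ι → V, ∀ p q : {x // x ∈ S}, k' p q = k p q :=
    ⟨fun p q => if h : p ∈ S ∧ q ∈ S then k ⟨p, h.1⟩ ⟨q, h.2⟩ else 0, fun p q => by
      dsimp only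
      rw [dif_pos ⟨p.2, q.2⟩]⟩
  have hk's : ∀ p q, p ∈ S → q ∈ S → p ≠ q → k' q p = k' p q := by
    intro p q hp hq hpq
    have := hksym ⟨p, hp⟩ ⟨q, hq⟩ (fun h => hpq (congrArg Subtype.val h))
    rw [← hk', ← hk'] at this
    exact this
  have hdiff : ∀ b σ, Vert S b σ → ∀ p q r s, p ∈ S → q ∈ S → r ∈ S → s ∈ S →
      [p, q, r, s].Nodup → σ p = q → σ r = s →
      F s(p, q) b σ - F s(r, s) b σ = k' r s - k' p q := by
    intro b σ hv p q r s hp hq hr hs hnd h1 h2
    have hnd2 : [(⟨p, hp⟩ : {x // x ∈ S}), ⟨q, hq⟩, ⟨r, hr⟩, ⟨s, hs⟩].Nodup := by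
      refine List.Nodup.of_map Subtype.val ?_
      simpa using hnd
    have e1 := hc ⟨p, hp⟩ ⟨q, hq⟩ ⟨r, hr⟩ ⟨s, hs⟩ hnd2 b σ hv h1 h2
    have e2 := hk ⟨p, hp⟩ ⟨q, hq⟩ ⟨r, hr⟩ ⟨s, hs⟩ hnd2
    rw [e2, ← hk', ← hk'] at e1
    exact e1
  -- the potential
  have hΦ0 : ∀ (b : ι) (σ : Perm ι), ∃ v : V, Vert S b σ → ∀ p ∈ S, p ≠ b →
      v = F s(p, σ p) b σ + k' p (σ p) := by
    intro b σ
    by_cases hv : Vert S b σ
    · obtain ⟨p0, hp0, hp0b⟩ : ∃ p0 ∈ S, p0 ≠ b := Finset.exists_mem_ne (by omega) b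
      refine ⟨F s(p0, σ p0) b σ + k' p0 (σ p0), fun _ p hp hpb => ?_⟩
      obtain ⟨m0, n0, o0⟩ := hv.apply_mem hp0 hp0b
      obtain ⟨m1, n1, o1⟩ := hv.apply_mem hp hpb
      by_cases h1 : p = p0
      · rw [h1]
      · by_cases h2 : p = σ p0
        · rw [h2, hv.2.1, Sym2.eq_swap, hk's p0 (σ p0) hp0 m0 (Ne.symm o0)]
        · have h4 : σ p ≠ p0 := fun h => h2 (by rw [← h, hv.2.1])
          have h5 : σ p ≠ σ p0 := fun h => h1 (σ.injective h)
          have := hdiff b σ hv p0 (σ p0) p (σ p) hp0 m0 hp m1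
            (nd4 (Ne.symm o0) (Ne.symm h1) (Ne.symm h4) (Ne.symm h2) (Ne.symm h5) (Ne.symm o1))
            rfl rfl
          rw [sub_eq_sub_iff_add_eq_add] at this
          rw [this, add_comm]
    · exact ⟨0, fun h => absurd h hv⟩
  choose Φ hΦ using hΦ0
  refine ⟨Φ, fun b σ a hv ha hab => ?_⟩
  have hv' := hv.mv_vert ha hab
  obtain ⟨p, hp, hpT⟩ : ∃ p ∈ S, p ∉ ({b, a, σ a} : Finset ι) := by
    refine Finset.exists_mem_notMem_of_card_lt_card (lt_of_le_of_lt Finset.card_le_three ?_)
    omega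
  simp only [Finset.mem_insert, Finset.mem_singleton, not_or] at hpT
  obtain ⟨hpb, hpa, hpσ⟩ := hpT
  obtain ⟨m1, n1, o1⟩ := hv.apply_mem hp hpb
  have hσpa : σ p ≠ a := fun h => hpσ (by rw [← h, hv.2.1])
  have hmv : mv a b σ p = σ p := by
    unfold mv
    rw [Perm.mul_apply, Perm.mul_apply, swap_apply_of_ne_of_ne hpa hpb,
      swap_apply_of_ne_of_ne hσpa n1]
  rw [hΦ b σ hv p hp hpb, hΦ a (mv a b σ) hv' p hp hpa, hmv, add_sub_add_right_eq_sub]
  exact hF p (σ p) hp m1 (Ne.symm o1) b σ a hv rfl ha hab (Ne.symm hpa) (Ne.symm hσpa)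

end Pool.Agent.Lib.MP_b4a71d_al.S
end

section

/-!
# MP_b4a71d_al, S point: the potential for five letters
-/

set_option autoImplicit false

namespace Pool.Agent.Lib.MP_b4a71d_al.S

universe u v w

open Equiv

section

variable {ι : Type u} [DecidableEq ι] {L : Type v} [LieRing L]

private theorem five_elems {S : Finset ι} (hS : S.card = 5) {b : ι} {σ : Perm ι}
    (hv : Vert S b σ) {a d : ι} (ha : a ∈ S) (hab : a ≠ b) (hd : d ∈ S) (hda : d ≠ a)
    (hdb : d ≠ b) (hdc : d ≠ σ a) :
    σ a ≠ a ∧ σ a ≠ b ∧ σ d ≠ d ∧ σ d ≠ b ∧ σ d ≠ a ∧ σ d ≠ σ a ∧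
      S = {a, σ a, d, σ d, b} := by
  obtain ⟨hb, h1, h2⟩ := hv
  have hca : σ a ≠ a := (h2 a).2 ⟨ha, hab⟩
  have hc : σ a ∈ S ∧ σ a ≠ b := (h2 (σ a)).1 (by rw [h1]; exact hca.symm)
  have hed : σ d ≠ d := (h2 d).2 ⟨hd, hdb⟩
  have he : σ d ∈ S ∧ σ d ≠ b := (h2 (σ d)).1 (by rw [h1]; exact hed.symm)
  have hea : σ d ≠ a := fun h => hdc (by rw [← h, h1])
  have hec : σ d ≠ σ a := fun h => hda (σ.injective h)
  refine ⟨hca, hc.2, hed, he.2, hea, hec, ?_⟩
  symm
  apply Finset.eq_of_subset_of_card_le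
  · intro y hy
    simp only [Finset.mem_insert, Finset.mem_singleton] at hy
    rcases hy with h | h | h | h | h
    · rw [h]; exact ha
    · rw [h]; exact hc.1
    · rw [h]; exact hd
    · rw [h]; exact he.1
    · rw [h]; exact hb
  · rw [hS, Finset.card_insert_of_notMem, Finset.card_insert_of_notMem,
      Finset.card_insert_of_notMem, Finset.card_insert_of_notMem, Finset.card_singleton]
    · simpa using he.2
    · simp only [Finset.mem_insert, Finset.mem_singleton, not_or]
      exact ⟨hed.symm, hdb⟩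
    · simp only [Finset.mem_insert, Finset.mem_singleton, not_or]
      exact ⟨hdc.symm, hec.symm, hc.2⟩
    · simp only [Finset.mem_insert, Finset.mem_singleton, not_or]
      exact ⟨hca.symm, hda.symm, hea.symm, hab⟩

private theorem five_indep {S : Finset ι} (hS : S.card = 5) {b : ι} {σ : Perm ι}
    (hv : Vert S b σ) {E : L → L → L} (hE : Cen E) (x : ι → L) {a d a' d' : ι} (ha : a ∈ S)
    (hab : a ≠ b) (hd : d ∈ S) (hda : d ≠ a) (hdb : d ≠ b) (hdc : d ≠ σ a) (ha' : a' ∈ S)
    (hab' : a' ≠ b) (hd' : d' ∈ S) (hda' : d' ≠ a') (hdb' : d' ≠ b) (hdc' : d' ≠ σ a') :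
    G5 E (x a') (x (σ a')) (x d') (x (σ d')) (x b) =
      G5 E (x a) (x (σ a)) (x d) (x (σ d)) (x b) := by
  obtain ⟨-, -, -, -, -, -, h1⟩ := five_elems hS hv ha hab hd hda hdb hdc
  have h2 := hv.2.1
  rw [h1] at ha' hd'
  simp only [Finset.mem_insert, Finset.mem_singleton] at ha' hd'
  have hex : ∀ a c d e : L, G5 E a c d e (x b) = G5 E d e a c (x b) :=
    fun a c d e => (G5_exch hE a c d e (x b)).symm
  have hsw : ∀ a c d e : L, G5 E a c d e (x b) = G5 E c a d e (x b) :=
    fun a c d e => (G5_swap hE a c d e (x b)).symm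
  rcases ha' with e1 | e1 | e1 | e1 | e1
  · rcases hd' with e2 | e2 | e2 | e2 | e2
    · exact absurd (e2.trans e1.symm) hda'
    · exact absurd (e2.trans (by rw [e1])) hdc'
    · rw [e1, e2]
    · rw [e1, e2, h2, hex, hsw, hex]
    · exact absurd e2 hdb'
  · rcases hd' with e2 | e2 | e2 | e2 | e2
    · exact absurd (e2.trans (by rw [e1, h2])) hdc'
    · exact absurd (e2.trans e1.symm) hda'
    · rw [e1, e2, h2, hsw]
    · rw [e1, e2, h2, h2, hsw, hex, hsw, hex]
    · exact absurd e2 hdb'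
  · rcases hd' with e2 | e2 | e2 | e2 | e2
    · rw [e1, e2, hex]
    · rw [e1, e2, h2, hex, hsw]
    · exact absurd (e2.trans e1.symm) hda'
    · exact absurd (e2.trans (by rw [e1])) hdc'
    · exact absurd e2 hdb'
  · rcases hd' with e2 | e2 | e2 | e2 | e2
    · rw [e1, e2, h2, hsw, hex]
    · rw [e1, e2, h2, h2, hsw, hex, hsw]
    · exact absurd (e2.trans (by rw [e1, h2])) hdc'
    · exact absurd (e2.trans e1.symm) hda'
    · exact absurd e2 hdb'
  · exact absurd e1 hab'

/-- five letters: the potential at the vertex with free point `b` and pairs `{a, c}`, `{d, e}` is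
`(1/60) G5 E (x a) (x c) (x d) (x e) (x b)`. -/
theorem potential_five_aux {F : Type w} [Field F] [CharZero F] [LieAlgebra F L] (h : Law L)
    (x : ι → L) (S : Finset ι) (hS : S.card = 5) (E : CenT L) :
    ∃ Φ : ι → Perm ι → L, ∀ b σ a, Vert S b σ → a ∈ S → a ≠ b →
      Φ b σ - Φ a (mv a b σ) =
        ⁅(smon h x (prs σ (S \ {a, b, σ a})) E).1 (x a) (x b), x (σ a)⁆ := by
  classical
  let P : ι → Perm ι → ι × ι → Prop := fun b σ z =>
    z.1 ∈ S ∧ z.1 ≠ b ∧ z.2 ∈ S ∧ z.2 ≠ z.1 ∧ z.2 ≠ b ∧ z.2 ≠ σ z.1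
  let g : ι → Perm ι → ι × ι → L := fun b σ z =>
    G5 E.1 (x z.1) (x (σ z.1)) (x z.2) (x (σ z.2)) (x b)
  let Φ : ι → Perm ι → L := fun b σ =>
    if hz : ∃ z, P b σ z then (60 : F)⁻¹ • g b σ hz.choose else 0
  have hΦ : ∀ b σ z, Vert S b σ → P b σ z → Φ b σ = (60 : F)⁻¹ • g b σ z := by
    intro b σ z hv hz
    have hz' : ∃ z, P b σ z := ⟨z, hz⟩
    have h1 : Φ b σ = (60 : F)⁻¹ • g b σ hz'.choose := dif_pos hz'
    have h2 := hz'.choose_spec
    rw [h1]
    congr 1
    exact five_indep hS hv E.2 x hz.1 hz.2.1 hz.2.2.1 hz.2.2.2.1 hz.2.2.2.2.1 hz.2.2.2.2.2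
      h2.1 h2.2.1 h2.2.2.1 h2.2.2.2.1 h2.2.2.2.2.1 h2.2.2.2.2.2
  refine ⟨Φ, ?_⟩
  intro b σ a hv ha hab
  have hc : σ a ≠ a := (hv.2.2 a).2 ⟨ha, hab⟩
  have hcb : σ a ≠ b := ((hv.2.2 (σ a)).1 (by rw [hv.2.1]; exact hc.symm)).2
  -- a fourth point
  obtain ⟨d, hd⟩ : (S \ {a, b, σ a}).Nonempty := by
    rw [← Finset.card_pos]
    have h1 := Finset.le_card_sdiff {a, b, σ a} S
    have h2 : ({a, b, σ a} : Finset ι).card ≤ 3 := Finset.card_le_three
    omega
  simp only [Finset.mem_sdiff, Finset.mem_insert, Finset.mem_singleton, not_or] at hd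
  obtain ⟨hd, hda, hdb, hdc⟩ := hd
  obtain ⟨h1, h2, h3, h4, h5, h6, h7⟩ := five_elems hS hv ha hab hd hda hdb hdc
  have hv' := hv.mv_vert ha hab
  have m1 : mv a b σ b = σ a := by
    rw [mv, Perm.mul_apply, Perm.mul_apply, swap_apply_right, swap_apply_of_ne_of_ne hc hcb]
  have m2 : mv a b σ d = σ d := by
    rw [mv, Perm.mul_apply, Perm.mul_apply, swap_apply_of_ne_of_ne hda hdb,
      swap_apply_of_ne_of_ne h5 h4]
  have e1 := hΦ b σ (a, d) hv ⟨ha, hab, hd, hda, hdb, hdc⟩
  have e2 := hΦ a (mv a b σ) (b, d) hv' ⟨hv.1, hab.symm, hd, hdb, hda, by rw [m1]; exact hdc⟩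
  have e3 : prs σ (S \ {a, b, σ a}) = {s(d, σ d)} := by
    have h8 : S \ {a, b, σ a} = {d, σ d} := by
      ext y
      conv_lhs => rw [h7]
      simp only [Finset.mem_sdiff, Finset.mem_insert, Finset.mem_singleton, not_or]
      constructor
      · rintro ⟨h9 | h9 | h9 | h9 | h9, h10, h11, h12⟩
        · exact absurd h9 h10
        · exact absurd h9 h12
        · exact Or.inl h9
        · exact Or.inr h9
        · exact absurd h9 h11
      · rintro (h9 | h9)
        · rw [h9]
          exact ⟨Or.inr (Or.inr (Or.inl rfl)), hda, hdb, hdc⟩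
        · rw [h9]
          exact ⟨Or.inr (Or.inr (Or.inr (Or.inl rfl))), h5, h4, h6⟩
    rw [prs, h8, Finset.image_insert, Finset.image_singleton, hv.2.1, Sym2.eq_swap (a := σ d),
      Finset.insert_eq_of_mem (Finset.mem_singleton_self _), Finset.singleton_val]
  have e4 : (smon h x (prs σ (S \ {a, b, σ a})) E).1 = sg E.1 (x d) (x (σ d)) := by
    rw [e3, ← Multiset.cons_zero, smon_cons, smon_zero, opS_mk]
  rw [e1, e2, e4, ← smul_sub]
  change (60 : F)⁻¹ • (G5 E.1 (x a) (x (σ a)) (x d) (x (σ d)) (x b) -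
    G5 E.1 (x b) (x (mv a b σ b)) (x d) (x (mv a b σ d)) (x a)) = _
  rw [m1, m2, E.2.potential5 h]
  have h60 : ∀ z : L, (60 : ℤ) • z = (60 : F) • z := fun z => by
    have := (Int.cast_smul_eq_zsmul F (60 : ℤ) z).symm
    rw [this]
    norm_num
  rw [h60, smul_smul, inv_mul_cancel₀ (by norm_num), one_smul]

end

end Pool.Agent.Lib.MP_b4a71d_al.S
end
end
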