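import Mathlib
import Pool.Agent.Lib.MP_b4a71d_al.S.Smon
import Pool.Agent.Lib.MP_b4a71d_al.Mat
import Pool.Agent.Lib.MP_b4a71d_al.Level

section

/-!
# MP_b4a71d_al, S point: distributivity criterion for finite group representations

`ρ : G →* (V →ₗ[F] V)` is a representation of a finite group in characteristic zero.
-/

set_option autoImplicit false

namespace Pool.Agent.Lib.MP_b4a71d_al.S

universe u v w

section

variable {F : Type u} [Field F] {G : Type v} [Group G] {V : Type w} [AddCommGroup V] [Module F V]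

/-- stable subspaces -/
def Stab (ρ : G →* (V →ₗ[F] V)) (N : Submodule F V) : Prop := ∀ g, ∀ x ∈ N, ρ g x ∈ N

/-- the lattice of stable subspaces `A` with `K ≤ A ≤ M` is distributive -/
def DistBetween (ρ : G →* (V →ₗ[F] V)) (K M : Submodule F V) : Prop :=
  ∀ A B C : Submodule F V, Stab ρ A → Stab ρ B → Stab ρ C → K ≤ A → K ≤ B → K ≤ C →
    A ≤ M → B ≤ M → C ≤ M → A ⊓ (B ⊔ C) ≤ (A ⊓ B) ⊔ (A ⊓ C)

/-- Maschke: an equivariant projection onto a stable subspace (average of a linear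
projection). -/
theorem exists_equivariant_proj [Finite G] [CharZero F] (ρ : G →* (V →ₗ[F] V))
    (N : Submodule F V) (hN : Stab ρ N) :
    ∃ p : V →ₗ[F] V, (∀ g, p ∘ₗ ρ g = ρ g ∘ₗ p) ∧ (∀ x, p x ∈ N) ∧ ∀ x ∈ N, p x = x := by
  classical
  cases nonempty_fintype G
  obtain ⟨π, hπ⟩ := LinearMap.exists_leftInverse_of_injective N.subtype
    (LinearMap.ker_eq_bot.mpr N.injective_subtype)
  have hπN : ∀ x ∈ N, ((π x : N) : V) = x := by
    intro x hx
    have h1 := congrArg (fun f => ((f ⟨x, hx⟩ : N) : V)) hπ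
    simpa using h1
  have hcard : (Fintype.card G : F) ≠ 0 := by
    have : Fintype.card G ≠ 0 := Fintype.card_ne_zero
    exact_mod_cast this
  set Q : V →ₗ[F] V := N.subtype ∘ₗ π with hQ
  have hQN : ∀ x, Q x ∈ N := fun x => (π x).2
  have hQx : ∀ x ∈ N, Q x = x := hπN
  refine ⟨(Fintype.card G : F)⁻¹ • ∑ g : G, ρ g ∘ₗ Q ∘ₗ ρ g⁻¹, ?_, ?_, ?_⟩
  · intro h
    ext x
    simp only [LinearMap.comp_apply, LinearMap.smul_apply, LinearMap.sum_apply, map_smul, map_sum]
    congr 1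
    refine (Fintype.sum_equiv (Equiv.mulLeft h) _ _ fun g => ?_).symm
    simp only [Equiv.coe_mulLeft, mul_inv_rev, map_mul, Module.End.mul_apply]
    congr 3
    rw [← Module.End.mul_apply (ρ h⁻¹) (ρ h), ← map_mul, inv_mul_cancel, map_one]
    simp
  · intro x
    simp only [LinearMap.comp_apply, LinearMap.smul_apply, LinearMap.sum_apply]
    exact N.smul_mem _ (N.sum_mem fun g _ => hN g _ (hQN _))
  · intro x hx
    simp only [LinearMap.comp_apply, LinearMap.smul_apply, LinearMap.sum_apply]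
    have h1 : ∀ g : G, ρ g (Q (ρ g⁻¹ x)) = x := by
      intro g
      rw [hQx _ (hN g⁻¹ x hx), ← Module.End.mul_apply, ← map_mul, mul_inv_cancel, map_one]
      simp
    simp only [h1, Finset.sum_const, Finset.card_univ]
    rw [← Nat.cast_smul_eq_nsmul F, smul_smul, inv_mul_cancel₀ hcard, one_smul]

/-- If `W` is stable and all pairs of equivariant endomorphisms with range in `W` commute on `W`
then the lattice of stable subspaces of `W` is distributive.  (Take the equivariant projections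
`p, q` onto `A` and `B`; `x ∈ A ⊓ (B ⊔ C)`, `x = y + z`, so `x = p x = p y + p z` and
`p y = p (q y) = q (p y) ∈ A ⊓ B`.) -/
theorem distBetween_of_comm [Finite G] [CharZero F] (ρ : G →* (V →ₗ[F] V)) (W : Submodule F V)
    (hcomm : ∀ p q : V →ₗ[F] V, (∀ g, p ∘ₗ ρ g = ρ g ∘ₗ p) → (∀ g, q ∘ₗ ρ g = ρ g ∘ₗ q) →
      (∀ x, p x ∈ W) → (∀ x, q x ∈ W) → ∀ x ∈ W, p (q x) = q (p x)) :
    DistBetween ρ ⊥ W := by
  intro A B C hA hB hC _ _ _ hAW hBW hCW x hx
  obtain ⟨hxA, hxBC⟩ := Submodule.mem_inf.mp hx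
  obtain ⟨y, hy, z, hz, rfl⟩ := Submodule.mem_sup.mp hxBC
  obtain ⟨p, hp1, hp2, hp3⟩ := exists_equivariant_proj ρ A hA
  obtain ⟨q, hq1, hq2, hq3⟩ := exists_equivariant_proj ρ B hB
  obtain ⟨r, hr1, hr2, hr3⟩ := exists_equivariant_proj ρ C hC
  have h1 : p y ∈ A ⊓ B := by
    refine Submodule.mem_inf.mpr ⟨hp2 y, ?_⟩
    have h2 := hcomm p q hp1 hq1 (fun x => hAW (hp2 x)) (fun x => hBW (hq2 x)) y (hBW hy)
    rw [hq3 y hy] at h2
    rw [h2]
    exact hq2 _
  have h2 : p z ∈ A ⊓ C := by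
    refine Submodule.mem_inf.mpr ⟨hp2 z, ?_⟩
    have h3 := hcomm p r hp1 hr1 (fun x => hAW (hp2 x)) (fun x => hCW (hr2 x)) z (hCW hz)
    rw [hr3 z hz] at h3
    rw [h3]
    exact hr2 _
  have h3 : y + z = p y + p z := by
    rw [← map_add, hp3 _ hxA]
  rw [h3]
  exact Submodule.add_mem_sup h1 h2

/-- Transfer of distributivity along an equivariant linear map `ψ` which is defined on a stable
subspace `W` (we only use the values of `ψ` on `W`): stable subspaces of `ψ '' W`. -/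
theorem DistBetween.map {V' : Type*} [AddCommGroup V'] [Module F V'] (ρ : G →* (V →ₗ[F] V))
    (ρ' : G →* (V' →ₗ[F] V')) (W : Submodule F V) (hW : Stab ρ W) (h : DistBetween ρ ⊥ W)
    (ψ : V →ₗ[F] V') (hψ : ∀ g, ∀ x ∈ W, ψ (ρ g x) = ρ' g (ψ x)) :
    DistBetween ρ' ⊥ (W.map ψ) := by
  intro A B C hA hB hC _ _ _ hAW hBW hCW x hx
  obtain ⟨hxA, hxBC⟩ := Submodule.mem_inf.mp hx
  obtain ⟨y, hy, z, hz, rfl⟩ := Submodule.mem_sup.mp hxBC
  obtain ⟨y₀, hy₀, rfl⟩ := Submodule.mem_map.mp (hBW hy)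
  obtain ⟨z₀, hz₀, rfl⟩ := Submodule.mem_map.mp (hCW hz)
  have hst : ∀ D : Submodule F V', Stab ρ' D → Stab ρ (W ⊓ D.comap ψ) := by
    intro D hD g x hx
    obtain ⟨h1, h2⟩ := Submodule.mem_inf.mp hx
    refine Submodule.mem_inf.mpr ⟨hW g x h1, ?_⟩
    rw [Submodule.mem_comap, hψ g x h1]
    exact hD g _ h2
  have h1 := h (W ⊓ A.comap ψ) (W ⊓ B.comap ψ) (W ⊓ C.comap ψ) (hst A hA) (hst B hB) (hst C hC)
    bot_le bot_le bot_le inf_le_left inf_le_left inf_le_left
  have h2 : y₀ + z₀ ∈ (W ⊓ A.comap ψ) ⊓ ((W ⊓ B.comap ψ) ⊔ (W ⊓ C.comap ψ)) := by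
    refine Submodule.mem_inf.mpr ⟨Submodule.mem_inf.mpr ⟨W.add_mem hy₀ hz₀, ?_⟩, ?_⟩
    · rw [Submodule.mem_comap, map_add]; exact hxA
    · exact Submodule.add_mem_sup (Submodule.mem_inf.mpr ⟨hy₀, hy⟩)
        (Submodule.mem_inf.mpr ⟨hz₀, hz⟩)
  obtain ⟨u, hu, v, hv, huv⟩ := Submodule.mem_sup.mp (h1 h2)
  obtain ⟨hu1, hu2⟩ := Submodule.mem_inf.mp hu
  obtain ⟨hv1, hv2⟩ := Submodule.mem_inf.mp hv
  have h3 : ψ y₀ + ψ z₀ = ψ u + ψ v := by rw [← map_add, ← map_add, huv]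
  rw [h3]
  exact Submodule.add_mem_sup
    (Submodule.mem_inf.mpr ⟨(Submodule.mem_inf.mp hu1).2, (Submodule.mem_inf.mp hu2).2⟩)
    (Submodule.mem_inf.mpr ⟨(Submodule.mem_inf.mp hv1).2, (Submodule.mem_inf.mp hv2).2⟩)

end

section fun_rep

variable {F : Type u} [Field F] [CharZero F] {G : Type v} [Group G] [Finite G]
  {Ω : Type w} [Fintype Ω] [MulAction G Ω]

/-- the permutation representation on functions -/
def funRep (F : Type u) [Field F] (G : Type v) [Group G] (Ω : Type w) [MulAction G Ω] :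
    G →* ((Ω → F) →ₗ[F] (Ω → F)) where
  toFun g := LinearMap.funLeft F F (fun ω => g⁻¹ • ω)
  map_one' := by
    ext f ω
    simp [LinearMap.funLeft]
  map_mul' g h := by
    ext f ω
    simp [LinearMap.funLeft, mul_smul]

private theorem ker_sum {F : Type u} [Field F] {Ω : Type w} [Fintype Ω] [DecidableEq Ω]
    (p : (Ω → F) →ₗ[F] (Ω → F)) (f : Ω → F) (ω : Ω) :
    p f ω = ∑ η, f η * p (Pi.single η 1) ω := by
  have h1 : f = ∑ η, f η • (Pi.single η (1 : F) : Ω → F) := by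
    funext x
    simp [Finset.sum_apply, Pi.single_apply]
  conv_lhs => rw [h1]
  rw [map_sum, Finset.sum_apply]
  simp [map_smul]

private theorem comm_of_symm {F : Type u} [Field F] {Ω : Type w} [Fintype Ω] [DecidableEq Ω]
    (p q : (Ω → F) →ₗ[F] (Ω → F))
    (hp : ∀ ω ω', p (Pi.single ω' 1) ω = p (Pi.single ω 1) ω')
    (hq : ∀ ω ω', q (Pi.single ω' 1) ω = q (Pi.single ω 1) ω')
    (hpq : ∀ ω ω', p (q (Pi.single ω' 1)) ω = p (q (Pi.single ω 1)) ω') (f : Ω → F) :
    p (q f) = q (p f) := by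
  have h1 : ∀ ω ω', p (q (Pi.single ω' 1)) ω = q (p (Pi.single ω' 1)) ω := by
    intro ω ω'
    rw [hpq, ker_sum p (q (Pi.single ω 1)) ω', ker_sum q (p (Pi.single ω' 1)) ω]
    refine Finset.sum_congr rfl fun η _ => ?_
    rw [hq η ω, hp ω' η]
    ring
  funext ω
  have h2 := ker_sum (p ∘ₗ q) f ω
  have h3 := ker_sum (q ∘ₗ p) f ω
  simp only [LinearMap.comp_apply] at h2 h3
  rw [h2, h3]
  exact Finset.sum_congr rfl fun η _ => by rw [h1]

private theorem funRep_single {F : Type u} [Field F] {G : Type v} [Group G] {Ω : Type w}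
    [DecidableEq Ω] [MulAction G Ω] (g : G) (ω : Ω) :
    funRep F G Ω g (Pi.single ω 1) = Pi.single (g • ω) 1 := by
  funext x
  change (Pi.single ω (1 : F) : Ω → F) (g⁻¹ • x) = _
  simp only [Pi.single_apply, inv_smul_eq_iff]

private theorem ker_inv {F : Type u} [Field F] {G : Type v} [Group G] {Ω : Type w}
    [DecidableEq Ω] [MulAction G Ω] (p : (Ω → F) →ₗ[F] (Ω → F))
    (hp : ∀ g, p ∘ₗ funRep F G Ω g = funRep F G Ω g ∘ₗ p) (g : G) (ω ω' : Ω) :
    p (Pi.single (g • ω') 1) (g • ω) = p (Pi.single ω' 1) ω := by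
  have h1 := congrArg (fun T => T (Pi.single ω' 1) (g • ω)) (hp g)
  simp only [LinearMap.comp_apply] at h1
  rw [funRep_single] at h1
  rw [h1]
  change p (Pi.single ω' 1) (g⁻¹ • g • ω) = _
  rw [inv_smul_smul]

/-- Gelfand's trick, symmetric orbits: if any two points can be exchanged by a group element then
all equivariant endomorphisms of the permutation representation are symmetric matrices, hence
commute. -/
theorem gelfand_sym (h : ∀ ω₁ ω₂ : Ω, ∃ g : G, g • ω₁ = ω₂ ∧ g • ω₂ = ω₁) :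
    DistBetween (funRep F G Ω) ⊥ ⊤ := by
  classical
  have hsym : ∀ p : (Ω → F) →ₗ[F] (Ω → F),
      (∀ g, p ∘ₗ funRep F G Ω g = funRep F G Ω g ∘ₗ p) →
      ∀ ω ω', p (Pi.single ω' 1) ω = p (Pi.single ω 1) ω' := by
    intro p hp ω ω'
    obtain ⟨g, h1, h2⟩ := h ω ω'
    have h3 := ker_inv p hp g ω ω'
    rw [h1, h2] at h3
    exact h3.symm
  refine distBetween_of_comm _ _ fun p q hp hq _ _ x _ => ?_
  refine comm_of_symm p q (hsym p hp) (hsym q hq) ?_ x
  have hpq : ∀ g, (p ∘ₗ q) ∘ₗ funRep F G Ω g = funRep F G Ω g ∘ₗ (p ∘ₗ q) := by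
    intro g
    rw [LinearMap.comp_assoc, hq g, ← LinearMap.comp_assoc, hp g, LinearMap.comp_assoc]
  exact hsym (p ∘ₗ q) hpq

/-- the functions which are odd under an involution `ι` -/
def oddFun (F : Type u) [Field F] {Ω : Type w} (ι : Ω → Ω) : Submodule F (Ω → F) where
  carrier := {f | ∀ ω, f (ι ω) = - f ω}
  add_mem' := by
    intro f g hf hg ω
    simp only [Set.mem_setOf_eq, Pi.add_apply] at *
    rw [hf, hg]; ring
  zero_mem' := by intro ω; simp
  smul_mem' := by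
    intro c f hf ω
    simp only [Set.mem_setOf_eq, Pi.smul_apply, smul_eq_mul] at *
    rw [hf]; ring

/-- Gelfand's trick, signed version.  `ι` is an equivariant involution of `Ω`; for all `ω₁ ω₂`
either `g` exchanges them, or `g` exchanges them up to `ι` (in both places), or there is a group
element with `g ω₁ = ι ω₁`, `g ω₂ = ω₂` (then every invariant kernel on the odd functions vanishes
at `(ω₁, ω₂)` and `(ω₂, ω₁)`).  Proof: an equivariant `p` with values in the odd functions,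
composed with the projection `f ↦ (f - f ∘ ι) / 2` onto the odd functions, has a matrix `K` with
`K (g ω) (g ω') = K ω ω'`, odd in both variables, so it is symmetric; symmetric matrices closed
under products commute. -/
theorem gelfand_odd (ι : Ω → Ω) (hι : ∀ ω, ι (ι ω) = ω) (hg : ∀ (g : G) ω, ι (g • ω) = g • ι ω)
    (h : ∀ ω₁ ω₂ : Ω, (∃ g : G, g • ω₁ = ω₂ ∧ g • ω₂ = ω₁) ∨
      (∃ g : G, g • ω₁ = ι ω₂ ∧ g • ω₂ = ι ω₁) ∨ (∃ g : G, g • ω₁ = ι ω₁ ∧ g • ω₂ = ω₂)) :
    DistBetween (funRep F G Ω) ⊥ (oddFun F ι) := by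
  classical
  -- the projection onto the odd functions
  set P : (Ω → F) →ₗ[F] (Ω → F) :=
    (2 : F)⁻¹ • (LinearMap.id - LinearMap.funLeft F F ι) with hPdef
  have hPapp : ∀ f ω, P f ω = (2 : F)⁻¹ * (f ω - f (ι ω)) := by
    intro f ω
    simp [hPdef, LinearMap.funLeft]
  have h2 : (2 : F) ≠ 0 := two_ne_zero
  have hPodd : ∀ f, f ∈ oddFun F ι → P f = f := by
    intro f hf
    funext ω
    have hf' : f (ι ω) = - f ω := hf ω
    rw [hPapp, hf']
    field_simp
    ring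
  have hPeq : ∀ g, P ∘ₗ funRep F G Ω g = funRep F G Ω g ∘ₗ P := by
    intro g
    refine LinearMap.ext fun f => funext fun ω => ?_
    simp only [LinearMap.comp_apply]
    change P (fun x => f (g⁻¹ • x)) ω = P f (g⁻¹ • ω)
    rw [hPapp, hPapp, hg]
  have hPι : ∀ ω, P (Pi.single (ι ω) 1) = - P (Pi.single ω 1) := by
    intro ω
    funext x
    rw [Pi.neg_apply, hPapp, hPapp]
    have e1 : (Pi.single (ι ω) (1 : F) : Ω → F) x = (Pi.single ω (1 : F) : Ω → F) (ι x) := by
      simp only [Pi.single_apply]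
      by_cases hx : x = ι ω
      · rw [if_pos hx, if_pos (by rw [hx, hι])]
      · rw [if_neg hx, if_neg (fun h' => hx (by rw [← h', hι]))]
    have e2 : (Pi.single (ι ω) (1 : F) : Ω → F) (ι x) = (Pi.single ω (1 : F) : Ω → F) x := by
      simp only [Pi.single_apply]
      by_cases hx : x = ω
      · rw [if_pos hx, if_pos (by rw [hx])]
      · rw [if_neg hx, if_neg (fun h' => hx (by rw [← hι x, h', hι]))]
    rw [e1, e2]
    ring
  have hsym : ∀ p : (Ω → F) →ₗ[F] (Ω → F),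
      (∀ g, p ∘ₗ funRep F G Ω g = funRep F G Ω g ∘ₗ p) → (∀ x, p x ∈ oddFun F ι) →
      ∀ ω ω', (p ∘ₗ P) (Pi.single ω' 1) ω = (p ∘ₗ P) (Pi.single ω 1) ω' := by
    intro p hp hodd ω ω'
    have hpP : ∀ g, (p ∘ₗ P) ∘ₗ funRep F G Ω g = funRep F G Ω g ∘ₗ (p ∘ₗ P) := by
      intro g
      rw [LinearMap.comp_assoc, hPeq g, ← LinearMap.comp_assoc, hp g, LinearMap.comp_assoc]
    have o1 : ∀ f ω, (p ∘ₗ P) f (ι ω) = - (p ∘ₗ P) f ω := fun f ω => hodd (P f) ω
    have o2 : ∀ ω ω', (p ∘ₗ P) (Pi.single (ι ω') 1) ω = - (p ∘ₗ P) (Pi.single ω' 1) ω := by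
      intro ω ω'
      simp only [LinearMap.comp_apply]
      rw [hPι, map_neg, Pi.neg_apply]
    rcases h ω ω' with ⟨g, h1, h3⟩ | ⟨g, h1, h3⟩ | ⟨g, h1, h3⟩
    · have h4 := ker_inv _ hpP g ω ω'
      rw [h1, h3] at h4
      exact h4.symm
    · have h4 := ker_inv _ hpP g ω ω'
      rw [h1, h3, o1, o2, neg_neg] at h4
      exact h4.symm
    · have h4 := ker_inv _ hpP g ω ω'
      rw [h1, h3, o1] at h4
      have h5 := ker_inv _ hpP g ω' ω
      rw [h1, h3, o2] at h5
      have h6 : (p ∘ₗ P) (Pi.single ω' 1) ω = 0 := by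
        have : (2 : F) * (p ∘ₗ P) (Pi.single ω' 1) ω = 0 := by linear_combination -h4
        exact (mul_eq_zero.mp this).resolve_left h2
      have h7 : (p ∘ₗ P) (Pi.single ω 1) ω' = 0 := by
        have : (2 : F) * (p ∘ₗ P) (Pi.single ω 1) ω' = 0 := by linear_combination -h5
        exact (mul_eq_zero.mp this).resolve_left h2
      rw [h6, h7]
  refine distBetween_of_comm _ _ fun p q hp hq hpo hqo x hx => ?_
  have hpq : ∀ g, (p ∘ₗ q) ∘ₗ funRep F G Ω g = funRep F G Ω g ∘ₗ (p ∘ₗ q) := by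
    intro g
    rw [LinearMap.comp_assoc, hq g, ← LinearMap.comp_assoc, hp g, LinearMap.comp_assoc]
  have h3 := comm_of_symm (p ∘ₗ P) (q ∘ₗ P) (hsym p hp hpo) (hsym q hq hqo) (by
    intro ω ω'
    have h4 := hsym (p ∘ₗ q) hpq (fun x => hpo _) ω ω'
    simp only [LinearMap.comp_apply] at h4 ⊢
    rw [hPodd _ (hqo _), hPodd _ (hqo _)]
    exact h4) x
  simp only [LinearMap.comp_apply] at h3
  rw [hPodd x hx, hPodd _ (hqo _), hPodd _ (hpo _)] at h3
  exact h3

end fun_rep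

end Pool.Agent.Lib.MP_b4a71d_al.S
end

section

/-!
# MP_b4a71d_al, S point: spanning sets of Lie algebras with the law
-/

set_option autoImplicit false

namespace Pool.Agent.Lib.MP_b4a71d_al.S

universe u v

noncomputable section

variable {F : Type u} [Field F] {L : Type v} [LieRing L] [LieAlgebra F L]

/-- The span of the letters, of the `m [x_c, x_d]` and of the `[m [x_a, x_b], x_c]` (where `m` is
a monomial in the `s_{ab}`) of content `s`. -/
def TS (F : Type u) [Field F] [LieAlgebra F L] (h : Law L) (x : ℕ → L) (s : Multiset ℕ) :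
    Submodule F L :=
  Submodule.span F {y | (∃ i, s = {i} ∧ y = x i) ∨
    (∃ M c d, s = c ::ₘ d ::ₘ mc M ∧ y = (smon h x M (E0 h)).1 (x c) (x d)) ∨
    ∃ M a b c, s = a ::ₘ b ::ₘ c ::ₘ mc M ∧ y = ⁅(smon h x M (E0 h)).1 (x a) (x b), x c⁆}

private theorem TS_perm1 (i c d : ℕ) (T : Multiset ℕ) :
    i ::ₘ c ::ₘ d ::ₘ T = c ::ₘ d ::ₘ i ::ₘ T := by
  simp only [← Multiset.singleton_add]
  abel

private theorem TS_perm2 (i a b c : ℕ) (T : Multiset ℕ) :
    i ::ₘ a ::ₘ b ::ₘ c ::ₘ T = b ::ₘ i ::ₘ a ::ₘ c ::ₘ T := by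
  simp only [← Multiset.singleton_add]
  abel

private theorem TS_perm3 (i a b c : ℕ) (T : Multiset ℕ) :
    i ::ₘ a ::ₘ b ::ₘ c ::ₘ T = a ::ₘ i ::ₘ b ::ₘ c ::ₘ T := by
  simp only [← Multiset.singleton_add]
  abel

private theorem TS_var (h : Law L) (x : ℕ → L) (i : ℕ) : x i ∈ TS F h x {i} :=
  Submodule.subset_span (Or.inl ⟨i, rfl, rfl⟩)

private theorem TS_two (h : Law L) (x : ℕ → L) (M : Multiset (Sym2 ℕ)) (c d : ℕ) :
    (smon h x M (E0 h)).1 (x c) (x d) ∈ TS F h x (c ::ₘ d ::ₘ mc M) :=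
  Submodule.subset_span (Or.inr (Or.inl ⟨M, c, d, rfl, rfl⟩))

private theorem TS_three (h : Law L) (x : ℕ → L) (M : Multiset (Sym2 ℕ)) (a b c : ℕ) :
    ⁅(smon h x M (E0 h)).1 (x a) (x b), x c⁆ ∈ TS F h x (a ::ₘ b ::ₘ c ::ₘ mc M) :=
  Submodule.subset_span (Or.inr (Or.inr ⟨M, a, b, c, rfl, rfl⟩))

/-- One step: `[m [x_a, x_b], x_c, x_d] = (1/2) (s_{ac} m [x_b, x_d] - s_{bc} m [x_a, x_d])` by
`Cen.two_lie` and `smon_cons`. -/
theorem TS_lie_x [CharZero F] (h : Law L) (x : ℕ → L) {s : Multiset ℕ} {y : L}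
    (hy : y ∈ TS F h x s) (i : ℕ) : ⁅y, x i⁆ ∈ TS F h x (i ::ₘ s) := by
  induction hy using Submodule.span_induction with
  | mem y hy =>
    rcases hy with ⟨j, hs, hy⟩ | ⟨M, c, d, hs, hy⟩ | ⟨M, a, b, c, hs, hy⟩
    · rw [hs, hy]
      have h1 := TS_two (F := F) h x 0 j i
      rw [smon_zero, mc_zero] at h1
      have h2 : i ::ₘ ({j} : Multiset ℕ) = j ::ₘ i ::ₘ 0 := by
        rw [Multiset.cons_swap j i 0]
        rfl
      rw [h2]
      exact h1
    · rw [hs, hy, TS_perm1]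
      exact TS_three h x M c d i
    · rw [hs, hy]
      have h1 : (opS h x s(a, c) (smon h x M (E0 h))).1 (x b) (x i) ∈
          TS F h x (i ::ₘ a ::ₘ b ::ₘ c ::ₘ mc M) := by
        rw [← smon_cons, TS_perm2, ← mc_cons]
        exact TS_two h x _ b i
      have h2 : (opS h x s(b, c) (smon h x M (E0 h))).1 (x a) (x i) ∈
          TS F h x (i ::ₘ a ::ₘ b ::ₘ c ::ₘ mc M) := by
        rw [← smon_cons, TS_perm3, ← mc_cons]
        exact TS_two h x _ a i
      rw [opS_mk] at h1 h2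
      have h3 := (smon h x M (E0 h)).2.two_lie (x a) (x b) (x c) (x i)
      have h4 : ⁅⁅(smon h x M (E0 h)).1 (x a) (x b), x c⁆, x i⁆ =
          (2⁻¹ : F) • (sg (smon h x M (E0 h)).1 (x a) (x c) (x b) (x i) -
            sg (smon h x M (E0 h)).1 (x b) (x c) (x a) (x i)) := by
        rw [← h3, two_zsmul, ← two_smul F, smul_smul, inv_mul_cancel₀ two_ne_zero, one_smul]
      rw [h4]
      exact Submodule.smul_mem _ _ (Submodule.sub_mem _ h1 h2)
  | zero =>
    rw [zero_lie]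
    exact Submodule.zero_mem _
  | add y z _ _ h1 h2 =>
    rw [add_lie]
    exact Submodule.add_mem _ h1 h2
  | smul c y _ h1 =>
    rw [smul_lie]
    exact Submodule.smul_mem _ _ h1

/-- By induction on `f` (`homC_induction`): `[y, π [f, g]] = [[y, π f], π g] - [[y, π g], π f]`. -/
theorem TS_lie [CharZero F] (h : Law L) (x : ℕ → L) (π : FL F →ₗ⁅F⁆ L)
    (hx : ∀ i, π (X F i) = x i) {s t : Multiset ℕ} {y : L} (hy : y ∈ TS F h x s) {f : FL F}
    (hf : f ∈ HomC t) : ⁅y, π f⁆ ∈ TS F h x (s + t) := by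
  suffices hmain : ∀ (s : Multiset ℕ) (y : L), y ∈ TS F h x s → ⁅y, π f⁆ ∈ TS F h x (s + t) from
    hmain s y hy
  refine homC_induction (p := fun t f => ∀ (s : Multiset ℕ) (y : L), y ∈ TS F h x s →
    ⁅y, π f⁆ ∈ TS F h x (s + t)) ?_ ?_ ?_ ?_ ?_ hf
  · intro i s y hy
    have h1 := TS_lie_x h x hy i
    rw [hx, add_comm, Multiset.singleton_add]
    exact h1
  · intro t1 t2 a b _ _ h1 h2 s y hy
    have e1 : ⁅y, π ⁅a, b⁆⁆ = ⁅⁅y, π a⁆, π b⁆ - ⁅⁅y, π b⁆, π a⁆ := by
      rw [LieHom.map_lie, leibniz_lie, ← lie_skew (π a) ⁅y, π b⁆, sub_eq_add_neg]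
    rw [e1]
    refine Submodule.sub_mem _ ?_ ?_
    · rw [← add_assoc]
      exact h2 _ _ (h1 _ _ hy)
    · have h3 := h1 _ _ (h2 _ _ hy)
      have e2 : s + (t1 + t2) = s + t2 + t1 := by abel
      rw [e2]
      exact h3
  · intro t s y _
    rw [map_zero, lie_zero]
    exact Submodule.zero_mem _
  · intro t a b _ _ h1 h2 s y hy
    rw [map_add, lie_add]
    exact Submodule.add_mem _ (h1 s y hy) (h2 s y hy)
  · intro t c a _ h1 s y hy
    rw [map_smul, lie_smul]
    exact Submodule.smul_mem _ _ (h1 s y hy)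

theorem map_mem_TS [CharZero F] (h : Law L) (x : ℕ → L) (π : FL F →ₗ⁅F⁆ L)
    (hx : ∀ i, π (X F i) = x i) {s : Multiset ℕ} {f : FL F} (hf : f ∈ HomC s) :
    π f ∈ TS F h x s := by
  refine homC_induction (p := fun s f => π f ∈ TS F h x s) ?_ ?_ ?_ ?_ ?_ hf
  · intro i
    rw [hx]
    exact TS_var h x i
  · intro s t a b _ hb h1 _
    rw [LieHom.map_lie]
    exact TS_lie h x π hx h1 hb
  · intro s
    rw [map_zero]
    exact Submodule.zero_mem _
  · intro s a b _ _ h1 h2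
    rw [map_add]
    exact Submodule.add_mem _ h1 h2
  · intro s c a _ h1
    rw [map_smul]
    exact Submodule.smul_mem _ _ h1

end

end Pool.Agent.Lib.MP_b4a71d_al.S
end

section

/-!
# MP_b4a71d_al, S point: from permutation representations to `DistP`
-/

set_option autoImplicit false

namespace Pool.Agent.Lib.MP_b4a71d_al.S

universe u v

noncomputable section

open Equiv

variable {F : Type u} [Field F]

/-- The law as an element of the free Lie algebra. -/
def lawFL (F : Type u) [Field F] : FL F :=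
  ⁅phi (X F 0) (X F 1) (X F 2) (X F 3), X F 4⁆ - phi (X F 0) (X F 1) ⁅X F 2, X F 3⁆ (X F 4)

/-- The relatively free algebra of a T-ideal which contains the law satisfies the law
(`IsTIdeal.relFree_mem`). -/
theorem law_relFree {J : Submodule F (FL F)} (hJ : IsTIdeal F J) (h : lawFL F ∈ J) :
    Law hJ.relFree.carrier := by
  intro a b c d v
  have h1 := hJ.relFree_mem (lawFL F) h
    (FreeLieAlgebra.lift F (fun i => val5 a b c d v i))
  rw [lawFL, map_sub, LieHom.map_lie] at h1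
  simp only [phi, map_sub, LieHom.map_lie, FreeLieAlgebra.lift_of_apply] at h1
  rw [← sub_eq_zero]
  exact h1

/-- Extension of a permutation of `Fin n` to `ℕ`. -/
def pext {n : ℕ} (g : Perm (Fin n)) : Perm ℕ := g.viaEmbedding Fin.valEmbedding

theorem pext_coe {n : ℕ} (g : Perm (Fin n)) (i : Fin n) : pext g i = g i :=
  Equiv.Perm.viaEmbedding_apply g Fin.valEmbedding i

theorem pext_of_le {n : ℕ} (g : Perm (Fin n)) {i : ℕ} (hi : n ≤ i) : pext g i = i := by
  apply Equiv.Perm.viaEmbedding_apply_of_notMem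
  rintro ⟨j, hj⟩
  have h1 : (j : ℕ) = i := hj
  have := j.2
  omega

theorem pext_mul {n : ℕ} (g h : Perm (Fin n)) : pext (g * h) = pext g * pext h := by
  ext i
  rw [Perm.mul_apply]
  by_cases hi : i < n
  · have e1 := pext_coe (g * h) ⟨i, hi⟩
    have e2 := pext_coe h ⟨i, hi⟩
    have e3 := pext_coe g (h ⟨i, hi⟩)
    simp only at e1 e2 e3
    rw [e1, e2, e3, Perm.mul_apply]
  · rw [pext_of_le _ (not_lt.mp hi), pext_of_le h (not_lt.mp hi), pext_of_le g (not_lt.mp hi)]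

theorem exists_pext {n : ℕ} (σ : Perm ℕ) (h : ∀ i, i ∉ Finset.range n → σ i = i) :
    ∃ g : Perm (Fin n), pext g = σ := by
  have h1 : ∀ i, i < n → σ i < n := by
    intro i hi
    by_contra h2
    have h3 := h (σ i) (by rw [Finset.mem_range]; exact h2)
    have h4 := σ.injective h3
    omega
  have h1' : ∀ i, i < n → σ⁻¹ i < n := by
    intro i hi
    by_contra h2
    have h3 := h (σ⁻¹ i) (by rw [Finset.mem_range]; exact h2)
    rw [show σ (σ⁻¹ i) = i from σ.apply_symm_apply i] at h3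
    omega
  refine ⟨⟨fun i => ⟨σ i, h1 i i.2⟩, fun i => ⟨σ⁻¹ i, h1' i i.2⟩, fun i => Fin.ext ?_,
    fun i => Fin.ext ?_⟩, ?_⟩
  · exact σ.symm_apply_apply i
  · exact σ.apply_symm_apply i
  · ext i
    by_cases hi : i < n
    · exact pext_coe _ (⟨i, hi⟩ : Fin n)
    · rw [pext_of_le _ (not_lt.mp hi), h i (by rw [Finset.mem_range]; exact hi)]

theorem ren_pext_mem {n : ℕ} (g : Perm (Fin n)) {f : FL F} (hf : f ∈ P n) :
    ren (pext g) f ∈ P n := by
  have h1 := ren_mem (pext g) hf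
  have h2 : (Multiset.range n).map (pext g) = Multiset.range n := by
    have h3 : (Finset.range n).image (pext g) = Finset.range n := by
      apply Finset.eq_of_subset_of_card_le
      · intro x hx
        obtain ⟨i, hi, rfl⟩ := Finset.mem_image.mp hx
        rw [Finset.mem_range] at hi ⊢
        have e1 := pext_coe g ⟨i, hi⟩
        simp only at e1
        rw [e1]
        exact (g ⟨i, hi⟩).2
      · rw [Finset.card_image_of_injective _ (pext g).injective]
    have h4 := image_val (Finset.range n) (pext g)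
    rw [h3] at h4
    exact h4.symm
  rw [h2] at h1
  exact h1

/-- `P n` modulo `J` is an equivariant image (modulo `J`) of a stable space `W` of functions whose
lattice of stable subspaces is distributive; so `DistP J n`.  (For `A ≤ P n` stable with
`J ⊓ P n ≤ A` the space of all `f ∈ W` with `Ψ f ∈ A` is stable.) -/
theorem distP_of_fun {n : ℕ} {J : Submodule F (FL F)} (hJ : IsTIdeal F J) {Ω : Type v} [Fintype Ω]
    [MulAction (Perm (Fin n)) Ω] (W : Submodule F (Ω → F))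
    (hW : Stab (funRep F (Perm (Fin n)) Ω) W)
    (hd : DistBetween (funRep F (Perm (Fin n)) Ω) ⊥ W) (Ψ : (Ω → F) →ₗ[F] FL F)
    (h1 : ∀ f ∈ W, Ψ f ∈ P n) (h2 : ∀ p ∈ P n, ∃ f ∈ W, p - Ψ f ∈ J)
    (h3 : ∀ g, ∀ f ∈ W, Ψ (funRep F (Perm (Fin n)) Ω g f) - ren (pext g) (Ψ f) ∈ J) :
    DistP J n := by
  intro A B C hAP hBP hCP hA hB hC hJA hJB hJC x hx
  have hst : ∀ D : Submodule F (FL F), D ≤ P n →
      Pool.Agent.Lib.MP_b4a71d_al.Stab (Finset.range n) D → J ⊓ P n ≤ D →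
      Stab (funRep F (Perm (Fin n)) Ω) (W ⊓ D.comap Ψ) := by
    intro D _ hD hJD g f hf
    obtain ⟨hf1, hf2⟩ := Submodule.mem_inf.mp hf
    refine Submodule.mem_inf.mpr ⟨hW g f hf1, ?_⟩
    rw [Submodule.mem_comap] at hf2 ⊢
    have e1 : ren (pext g) (Ψ f) ∈ D := by
      apply hD (pext g)
      · intro i hi
        rw [Finset.mem_range, not_lt] at hi
        exact pext_of_le g hi
      · exact hf2
    have e2 : Ψ (funRep F (Perm (Fin n)) Ω g f) - ren (pext g) (Ψ f) ∈ D := by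
      apply hJD
      refine Submodule.mem_inf.mpr ⟨h3 g f hf1, Submodule.sub_mem _ (h1 _ (hW g f hf1)) ?_⟩
      exact ren_pext_mem g (h1 f hf1)
    have e3 := D.add_mem e2 e1
    rwa [sub_add_cancel] at e3
  obtain ⟨hxA, hxBC⟩ := Submodule.mem_inf.mp hx
  obtain ⟨y, hy, z, hz, rfl⟩ := Submodule.mem_sup.mp hxBC
  obtain ⟨y₀, hy₀, hy1⟩ := h2 y (hBP hy)
  obtain ⟨z₀, hz₀, hz1⟩ := h2 z (hCP hz)
  have hyP : y - Ψ y₀ ∈ J ⊓ P n :=
    Submodule.mem_inf.mpr ⟨hy1, Submodule.sub_mem _ (hBP hy) (h1 _ hy₀)⟩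
  have hzP : z - Ψ z₀ ∈ J ⊓ P n :=
    Submodule.mem_inf.mpr ⟨hz1, Submodule.sub_mem _ (hCP hz) (h1 _ hz₀)⟩
  have hyB : Ψ y₀ ∈ B := by
    have := B.sub_mem hy (hJB hyP)
    rwa [sub_sub_cancel] at this
  have hzC : Ψ z₀ ∈ C := by
    have := C.sub_mem hz (hJC hzP)
    rwa [sub_sub_cancel] at this
  have hsum : (y + z) - Ψ (y₀ + z₀) ∈ J ⊓ P n := by
    have e1 := Submodule.add_mem _ hyP hzP
    have e2 : (y + z) - Ψ (y₀ + z₀) = (y - Ψ y₀) + (z - Ψ z₀) := by
      rw [map_add]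
      abel
    rw [e2]
    exact e1
  have hxA' : Ψ (y₀ + z₀) ∈ A := by
    have := A.sub_mem hxA (hJA hsum)
    rwa [sub_sub_cancel] at this
  have key := hd (W ⊓ A.comap Ψ) (W ⊓ B.comap Ψ) (W ⊓ C.comap Ψ) (hst A hAP hA hJA)
    (hst B hBP hB hJB) (hst C hCP hC hJC) bot_le bot_le bot_le inf_le_left inf_le_left inf_le_left
  have hmem : y₀ + z₀ ∈ (W ⊓ A.comap Ψ) ⊓ ((W ⊓ B.comap Ψ) ⊔ (W ⊓ C.comap Ψ)) :=
    Submodule.mem_inf.mpr ⟨Submodule.mem_inf.mpr ⟨W.add_mem hy₀ hz₀, hxA'⟩,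
      Submodule.add_mem_sup (Submodule.mem_inf.mpr ⟨hy₀, hyB⟩) (Submodule.mem_inf.mpr ⟨hz₀, hzC⟩)⟩
  obtain ⟨u, hu, v, hv, huv⟩ := Submodule.mem_sup.mp (key hmem)
  obtain ⟨hu1, hu2⟩ := Submodule.mem_inf.mp hu
  obtain ⟨hv1, hv2⟩ := Submodule.mem_inf.mp hv
  have e1 : y + z = (Ψ u + ((y + z) - Ψ (y₀ + z₀))) + Ψ v := by
    rw [← huv, map_add]
    abel
  rw [e1]
  refine Submodule.add_mem_sup (Submodule.add_mem _ ?_ ?_) ?_
  · exact Submodule.mem_inf.mpr ⟨(Submodule.mem_inf.mp hu1).2, (Submodule.mem_inf.mp hu2).2⟩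
  · exact Submodule.mem_inf.mpr ⟨hJA hsum, hJB hsum⟩
  · exact Submodule.mem_inf.mpr ⟨(Submodule.mem_inf.mp hv1).2, (Submodule.mem_inf.mp hv2).2⟩

/-- The action of a permutation on the relatively free algebra. -/
theorem exists_act {J : Submodule F (FL F)} (hJ : IsTIdeal F J) (σ : ℕ → ℕ) :
    ∃ ψ : hJ.relFree.carrier →ₗ⁅F⁆ hJ.relFree.carrier,
      ∀ f : FL F, ψ (hJ.proj f) = hJ.proj (ren σ f) := by
  have key : ∀ f : FL F,
      hJ.proj (ren σ (Function.surjInv hJ.proj_surjective (hJ.proj f))) = hJ.proj (ren σ f) := by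
    intro f
    have h1 : hJ.proj (Function.surjInv hJ.proj_surjective (hJ.proj f)) = hJ.proj f :=
      Function.surjInv_eq hJ.proj_surjective _
    have h2 : Function.surjInv hJ.proj_surjective (hJ.proj f) - f ∈ J := by
      rw [← hJ.proj_eq_zero, map_sub, h1, sub_self]
    have h3 := (hJ.proj_eq_zero _).mpr (hJ.map_mem (ren σ) _ h2)
    rw [map_sub, map_sub, sub_eq_zero] at h3
    exact h3
  refine ⟨⟨⟨⟨fun y => hJ.proj (ren σ (Function.surjInv hJ.proj_surjective y)), ?_⟩, ?_⟩, ?_⟩,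
    fun f => key f⟩
  · intro y z
    obtain ⟨f, rfl⟩ := hJ.proj_surjective y
    obtain ⟨g, rfl⟩ := hJ.proj_surjective z
    rw [← map_add, key, key, key, map_add, map_add]
  · intro c y
    obtain ⟨f, rfl⟩ := hJ.proj_surjective y
    simp only [RingHom.id_apply]
    rw [← map_smul, key, key, map_smul, map_smul]
  · intro y z
    obtain ⟨f, rfl⟩ := hJ.proj_surjective y
    obtain ⟨g, rfl⟩ := hJ.proj_surjective z
    change hJ.proj (ren σ (Function.surjInv hJ.proj_surjective ⁅hJ.proj f, hJ.proj g⁆)) =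
      ⁅hJ.proj (ren σ (Function.surjInv hJ.proj_surjective (hJ.proj f))),
        hJ.proj (ren σ (Function.surjInv hJ.proj_surjective (hJ.proj g)))⁆
    rw [← LieHom.map_lie, key, key, key, LieHom.map_lie, LieHom.map_lie]

/-- Values of monomials lift to the free Lie algebra (by induction on `M`, with iterated `sg` on
the free Lie algebra; use `map_sg`). -/
theorem exists_lift_smon [CharZero F] {J : Submodule F (FL F)} (hJ : IsTIdeal F J)
    (h : Law hJ.relFree.carrier) (M : Multiset (Sym2 ℕ)) :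
    ∃ E' : FL F → FL F → FL F,
      (∀ u v, hJ.proj (E' u v) =
        (smon h (fun i => hJ.proj (X F i)) M (E0 h)).1 (hJ.proj u) (hJ.proj v)) ∧
      ∀ (s t : Multiset ℕ) (u v : FL F), u ∈ HomC s → v ∈ HomC t →
        E' u v ∈ HomC (F := F) (s + t + mc M) := by
  induction M using Multiset.induction_on with
  | empty =>
    refine ⟨fun u v => ⁅u, v⁆, ?_, ?_⟩
    · intro u v
      rw [LieHom.map_lie]
      rfl
    · intro s t u v hu hv
      rw [mc_zero, add_zero]
      exact lie_mem_homC hu hv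
  | cons p M ih =>
    obtain ⟨E', h1, h2⟩ := ih
    induction p using Sym2.ind with
    | _ a b =>
      refine ⟨fun u v => sg E' (X F a) (X F b) u v, ?_, ?_⟩
      · intro u v
        rw [smon_cons, opS_mk]
        exact map_sg (hJ.proj : FL F →ₗ[F] hJ.relFree.carrier).toAddMonoidHom
          (fun x y => LieHom.map_lie hJ.proj x y) h1 (X F a) (X F b) u v
      · intro s t u v hu hv
        have ha := X_mem (F := F) a
        have hb := X_mem (F := F) b
        have e : s + t + mc (s(a, b) ::ₘ M) = {a} + s + mc M + ({b} + t) := by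
          rw [mc_cons, ← Multiset.singleton_add, ← Multiset.singleton_add]
          abel
        have e' : s + t + mc (s(a, b) ::ₘ M) = {a} + t + mc M + ({b} + s) := by
          rw [e]
          abel
        have e2 : s + t + mc (s(a, b) ::ₘ M) = s + t + mc M + {a} + {b} := by
          rw [e]
          abel
        have e3 : s + t + mc (s(a, b) ::ₘ M) = s + t + mc M + {b} + {a} := by
          rw [e]
          abel
        unfold sg
        refine Submodule.sub_mem _ (Submodule.sub_mem _ (Submodule.sub_mem _ ?_ ?_) ?_) ?_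
        · rw [e]
          exact lie_mem_homC (h2 _ _ _ _ ha hu) (lie_mem_homC hb hv)
        · rw [e']
          exact lie_mem_homC (h2 _ _ _ _ ha hv) (lie_mem_homC hb hu)
        · rw [e2]
          exact lie_mem_homC (lie_mem_homC (h2 _ _ _ _ hu hv) ha) hb
        · rw [e3]
          exact lie_mem_homC (lie_mem_homC (h2 _ _ _ _ hu hv) hb) ha

/-- The spanning sets consist of images of elements of the right content. -/
theorem TS_le_map [CharZero F] {J : Submodule F (FL F)} (hJ : IsTIdeal F J)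
    (h : Law hJ.relFree.carrier) (s : Multiset ℕ) :
    TS F h (fun i => hJ.proj (X F i)) s ≤ (HomC (F := F) s).map hJ.proj.toLinearMap := by
  rw [TS, Submodule.span_le]
  rintro y (⟨i, rfl, rfl⟩ | ⟨M, c, d, rfl, rfl⟩ | ⟨M, a, b, c, rfl, rfl⟩)
  · exact ⟨X F i, X_mem i, rfl⟩
  · obtain ⟨E', h1, h2⟩ := exists_lift_smon hJ h M
    refine ⟨E' (X F c) (X F d), ?_, h1 _ _⟩
    have h3 := h2 _ _ _ _ (X_mem (F := F) c) (X_mem (F := F) d)
    have e : c ::ₘ d ::ₘ mc M = {c} + {d} + mc M := by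
      rw [← Multiset.singleton_add, ← Multiset.singleton_add, add_assoc]
    rw [e]
    exact h3
  · obtain ⟨E', h1, h2⟩ := exists_lift_smon hJ h M
    refine ⟨⁅E' (X F a) (X F b), X F c⁆, ?_, ?_⟩
    · have h3 := lie_mem_homC (h2 _ _ _ _ (X_mem (F := F) a) (X_mem (F := F) b))
        (X_mem (F := F) c)
      have e : a ::ₘ b ::ₘ c ::ₘ mc M = {a} + {b} + mc M + {c} := by
        rw [← Multiset.singleton_add, ← Multiset.singleton_add, ← Multiset.singleton_add]
        abel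
      rw [e]
      exact h3
    · change hJ.proj ⁅E' (X F a) (X F b), X F c⁆ = _
      rw [LieHom.map_lie, h1]

end

end Pool.Agent.Lib.MP_b4a71d_al.S
end
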