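import Pool.Agent.Lib.MP_b4a71d_al.Bridge
import Pool.Agent.Lib.MP_b4a71d_al.S.Smon
import Pool.Agent.Lib.MP_b4a71d_al.S.Pot5
import Pool.Agent.Lib.MP_b4a71d_al.S.Quot

section

/-!
# Spanning sets: left normed monomials
-/

set_option autoImplicit false
set_option linter.unusedSectionVars false

namespace Pool.Agent.Lib.MP_b4a71d_al

universe u

noncomputable section

variable {F : Type u} [Field F]

/-- The left normed product `[u, x_{l_1}, x_{l_2}, ...]`. -/
def lnm (u : FL F) (l : List ℕ) : FL F := l.foldl (fun v i => ⁅v, X F i⁆) u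

@[simp] theorem lnm_nil (u : FL F) : lnm u [] = u := rfl

@[simp] theorem lnm_cons (u : FL F) (i : ℕ) (l : List ℕ) : lnm u (i :: l) = lnm ⁅u, X F i⁆ l := rfl

theorem lnm_append (u : FL F) (l l' : List ℕ) : lnm u (l ++ l') = lnm (lnm u l) l' := by
  rw [lnm, List.foldl_append]
  rfl

theorem lnm_concat (u : FL F) (l : List ℕ) (i : ℕ) : lnm u (l ++ [i]) = ⁅lnm u l, X F i⁆ := by
  rw [lnm_append]
  rfl

theorem lnm_zero (l : List ℕ) : lnm (0 : FL F) l = 0 := by
  induction l with
  | nil => rfl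
  | cons i l ih => rw [lnm_cons, zero_lie, ih]

theorem lnm_add (u v : FL F) (l : List ℕ) : lnm (u + v) l = lnm u l + lnm v l := by
  induction l generalizing u v with
  | nil => rfl
  | cons i l ih => rw [lnm_cons, add_lie, ih]; rfl

theorem lnm_smul (c : F) (u : FL F) (l : List ℕ) : lnm (c • u) l = c • lnm u l := by
  induction l generalizing u with
  | nil => rfl
  | cons i l ih => rw [lnm_cons, smul_lie, ih]; rfl

theorem lnm_isMonoC {s : Multiset ℕ} {u : FL F} (hu : IsMonoC s u) (l : List ℕ) :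
    IsMonoC (s + (l : Multiset ℕ)) (lnm u l) := by
  induction l generalizing s u with
  | nil =>
    rw [lnm_nil, Multiset.coe_nil, add_zero]
    exact hu
  | cons i l ih =>
    rw [lnm_cons]
    have := ih (IsMonoC.brac hu (IsMonoC.var i))
    rw [add_assoc, Multiset.singleton_add, Multiset.cons_coe] at this
    exact this

theorem lnm_mem {s : Multiset ℕ} {u : FL F} (hu : u ∈ HomC s) (l : List ℕ) :
    lnm u l ∈ HomC (F := F) (s + (l : Multiset ℕ)) := by
  induction l generalizing s u with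
  | nil =>
    rw [lnm_nil, Multiset.coe_nil, add_zero]
    exact hu
  | cons i l ih =>
    rw [lnm_cons]
    have := ih (lie_mem_homC hu (X_mem i))
    rw [add_assoc, Multiset.singleton_add, Multiset.cons_coe] at this
    exact this

theorem map_lnm {L : Type*} [LieRing L] [LieAlgebra F L] (φ : FL F →ₗ⁅F⁆ L) (u : FL F)
    (l : List ℕ) : φ (lnm u l) = l.foldl (fun v i => ⁅v, φ (X F i)⁆) (φ u) := by
  induction l generalizing u with
  | nil => rfl
  | cons i l ih => rw [lnm_cons, ih, List.foldl_cons, LieHom.map_lie]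

theorem ren_lnm (g : ℕ → ℕ) (u : FL F) (l : List ℕ) : ren g (lnm u l) = lnm (ren g u) (l.map g) := by
  induction l generalizing u with
  | nil => rfl
  | cons i l ih => rw [lnm_cons, ih, List.map_cons, lnm_cons, LieHom.map_lie, ren_X]

/-- The span of the left normed monomials of content `s` with first letter `j`. -/
def NSpan (j : ℕ) (s : Multiset ℕ) : Submodule F (FL F) :=
  Submodule.span F {f | ∃ l : List ℕ, j ::ₘ (l : Multiset ℕ) = s ∧ f = lnm (X F j) l}

theorem nSpan_le (j : ℕ) (s : Multiset ℕ) : NSpan (F := F) j s ≤ HomC s := by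
  rw [NSpan, Submodule.span_le]
  rintro _ ⟨l, rfl, rfl⟩
  exact lnm_mem (X_mem j) l

theorem nSpan_lie_X {j : ℕ} {s : Multiset ℕ} {u : FL F} (hu : u ∈ NSpan (F := F) j s) (i : ℕ) :
    ⁅u, X F i⁆ ∈ NSpan (F := F) j (s + {i}) := by
  induction hu using Submodule.span_induction with
  | mem f h =>
    obtain ⟨l, rfl, rfl⟩ := h
    rw [← lnm_concat]
    apply Submodule.subset_span
    refine ⟨l ++ [i], ?_, rfl⟩
    rw [← Multiset.coe_add, ← Multiset.cons_add]
    rfl
  | zero =>
    rw [zero_lie]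
    exact Submodule.zero_mem _
  | add f g _ _ h1 h2 =>
    rw [add_lie]
    exact Submodule.add_mem _ h1 h2
  | smul c f _ h =>
    rw [smul_lie]
    exact Submodule.smul_mem _ c h

theorem nSpan_lie {j : ℕ} {t : Multiset ℕ} {b : FL F} (hb : b ∈ HomC t) :
    ∀ (s : Multiset ℕ) (u : FL F), u ∈ NSpan (F := F) j s → ⁅u, b⁆ ∈ NSpan (F := F) j (s + t) := by
  refine homC_induction (p := fun t b => ∀ (s : Multiset ℕ) (u : FL F),
    u ∈ NSpan (F := F) j s → ⁅u, b⁆ ∈ NSpan (F := F) j (s + t)) ?_ ?_ ?_ ?_ ?_ hb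
  · intro i s u hu
    exact nSpan_lie_X hu i
  · intro t t' b c _ _ h1 h2 s u hu
    have h3 : ⁅u, ⁅b, c⁆⁆ = ⁅⁅u, b⁆, c⁆ - ⁅⁅u, c⁆, b⁆ := by
      rw [leibniz_lie u b c, ← lie_skew b ⁅u, c⁆, sub_eq_add_neg]
    rw [h3]
    apply Submodule.sub_mem
    · have := h2 _ _ (h1 s u hu)
      rwa [add_assoc] at this
    · have := h1 _ _ (h2 s u hu)
      rwa [add_assoc, add_comm t' t] at this
  · intro t s u _
    rw [lie_zero]
    exact Submodule.zero_mem _
  · intro t b c _ _ h1 h2 s u hu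
    rw [lie_add]
    exact Submodule.add_mem _ (h1 s u hu) (h2 s u hu)
  · intro t c b _ h s u hu
    rw [lie_smul]
    exact Submodule.smul_mem _ c (h s u hu)

/-- Spanning by left normed monomials with given first letter. -/
theorem homC_eq_nSpan {j : ℕ} {s : Multiset ℕ} (hj : j ∈ s) : HomC (F := F) s = NSpan j s := by
  apply le_antisymm _ (nSpan_le j s)
  rw [HomC, Submodule.span_le]
  intro f hf
  induction hf with
  | var i =>
    rw [Multiset.mem_singleton] at hj
    subst hj
    exact Submodule.subset_span ⟨[], rfl, rfl⟩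
  | @brac s t a b ha hb h1 h2 =>
    rcases Multiset.mem_add.1 hj with h | h
    · exact nSpan_lie hb.mem s a (h1 h)
    · rw [← lie_skew]
      apply Submodule.neg_mem
      rw [add_comm]
      exact nSpan_lie ha.mem t b (h2 h)

theorem homC_replicate (m i : ℕ) (hm : 2 ≤ m) : HomC (F := F) (Multiset.replicate m i) = ⊥ := by
  obtain ⟨m, rfl⟩ : ∃ m', m = m' + 2 := ⟨m - 2, by omega⟩
  rw [homC_eq_nSpan (j := i) (by rw [Multiset.mem_replicate]; exact ⟨by omega, rfl⟩), NSpan,
    Submodule.span_eq_bot]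
  rintro f ⟨l, hl, rfl⟩
  rw [Multiset.replicate_succ, Multiset.cons_inj_right] at hl
  rcases l with _ | ⟨a, l⟩
  · simp at hl
  · have : a = i := by
      have ha : a ∈ Multiset.replicate (m + 1) i := by
        rw [← hl]
        simp
      exact Multiset.eq_of_mem_replicate ha
    rw [this, lnm_cons, lie_self, lnm_zero]

theorem WW_singleton (j d : ℕ) :
    WW (F := F) {j} d = Submodule.span F {lnm (X F j) (List.replicate d 0)} := by
  have hj : j ∈ cont {j} d := by
    rw [cont, Multiset.mem_add]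
    exact Or.inr (Finset.mem_singleton_self j)
  rw [WW, homC_eq_nSpan hj, NSpan]
  congr 1
  ext f
  constructor
  · rintro ⟨l, hl, rfl⟩
    rw [cont, Finset.singleton_val, add_comm, Multiset.singleton_add,
      Multiset.cons_inj_right] at hl
    have : l = List.replicate d 0 := by
      rw [← Multiset.coe_replicate, Multiset.coe_eq_coe] at hl
      exact List.perm_replicate.1 hl
    rw [this]
    rfl
  · intro h
    rw [Set.mem_singleton_iff] at h
    refine ⟨List.replicate d 0, ?_, h⟩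
    rw [cont, Finset.singleton_val, add_comm, Multiset.singleton_add, Multiset.coe_replicate]

end

end Pool.Agent.Lib.MP_b4a71d_al
end

section

section

/-!
# MP_b4a71d_al, S point: multilinear monomials are matchings
-/

set_option autoImplicit false

namespace Pool.Agent.Lib.MP_b4a71d_al.S

universe u

open Equiv

/-- splitting off a pair -/
private theorem prs_insert {ι : Type u} [DecidableEq ι] (σ : Perm ι) (a b : ι) (S : Finset ι)
    (ha : a ∉ S) (hb : b ∉ S) (h1 : σ a = b) (h2 : σ b = a) :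
    prs σ (insert a (insert b S)) = s(a, b) ::ₘ prs σ S := by
  unfold prs
  rw [Finset.image_insert, Finset.image_insert, h1, h2, Sym2.eq_swap (a := b) (b := a),
    Finset.insert_idem, Finset.insert_val_of_notMem]
  rw [Finset.mem_image]
  rintro ⟨i, hi, h⟩
  rw [Sym2.eq_iff] at h
  rcases h with ⟨h, _⟩ | ⟨h, _⟩
  · exact ha (h ▸ hi)
  · exact hb (h ▸ hi)

/-- renaming, general form -/
private theorem prs_map {ι : Type u} {κ : Type*} [DecidableEq ι] [DecidableEq κ] (f : ι → κ)
    (hf : Function.Injective f) (τ : Perm ι) (σ : Perm κ) (h : ∀ i, f (τ i) = σ (f i))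
    (S : Finset ι) : prs σ (S.image f) = (prs τ S).map (Sym2.map f) := by
  unfold prs
  rw [Finset.image_image, ← Finset.image_val_of_injOn ((Sym2.map.injective hf).injOn),
    Finset.image_image]
  congr 1
  apply Finset.image_congr
  intro i _
  simp only [Function.comp_apply, Sym2.map_mk, h]

/-- the induction step -/
private theorem step {ι : Type u} [DecidableEq ι] (M : Multiset (Sym2 ι)) (a b : ι)
    (hM : (a ::ₘ b ::ₘ mc M).Nodup) (σ : Perm ι) (h1 : ∀ i, σ (σ i) = i)
    (h2 : ∀ i, σ i ≠ i ↔ i ∈ mc M) (h3 : M = prs σ (mc M).toFinset) :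
    ∃ ρ : Perm ι, (∀ i, ρ (ρ i) = i) ∧ (∀ i, ρ i ≠ i ↔ i ∈ a ::ₘ b ::ₘ mc M) ∧
      ρ a = b ∧ ρ b = a ∧ M = prs ρ (mc M).toFinset := by
  rw [Multiset.nodup_cons, Multiset.nodup_cons, Multiset.mem_cons, not_or] at hM
  obtain ⟨⟨hab, ha⟩, hb, hM⟩ := hM
  have hσa : σ a = a := by
    by_contra h
    exact ha ((h2 a).1 h)
  have hσb : σ b = b := by
    by_contra h
    exact hb ((h2 b).1 h)
  have e1 : (σ * swap a b) a = b := by rw [Perm.mul_apply, swap_apply_left, hσb]
  have e2 : (σ * swap a b) b = a := by rw [Perm.mul_apply, swap_apply_right, hσa]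
  have e3 : ∀ x, x ≠ a → x ≠ b → (σ * swap a b) x = σ x := by
    intro x hx hx'
    rw [Perm.mul_apply, swap_apply_of_ne_of_ne hx hx']
  refine ⟨σ * swap a b, fun x => ?_, fun x => ?_, e1, e2, ?_⟩
  · by_cases hxa : x = a
    · rw [hxa, e1, e2]
    · by_cases hxb : x = b
      · rw [hxb, e2, e1]
      · rw [e3 x hxa hxb, e3 _ ?_ ?_, h1]
        · intro h
          apply hxa
          rw [← h1 x, h, hσa]
        · intro h
          apply hxb
          rw [← h1 x, h, hσb]
  · rw [Multiset.mem_cons, Multiset.mem_cons]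
    by_cases hxa : x = a
    · rw [hxa, e1]
      exact ⟨fun _ => Or.inl rfl, fun _ => Ne.symm hab⟩
    · by_cases hxb : x = b
      · rw [hxb, e2]
        exact ⟨fun _ => Or.inr (Or.inl rfl), fun _ => hab⟩
      · rw [e3 x hxa hxb, h2]
        simp [hxa, hxb]
  · conv_lhs => rw [h3]
    unfold prs
    congr 1
    apply Finset.image_congr
    intro i hi
    rw [Finset.mem_coe, Multiset.mem_toFinset] at hi
    show s(i, σ i) = s(i, (σ * swap a b) i)
    rw [e3 i]
    · rintro rfl
      exact ha hi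
    · rintro rfl
      exact hb hi

/-- A monomial with multilinear content comes from an involution.  (Induction on `M`: if
`M = s(a, b) ::ₘ M'` multiply the involution of `M'` by `swap a b`.) -/
theorem exists_involution {ι : Type u} [DecidableEq ι] (M : Multiset (Sym2 ι))
    (hM : (mc M).Nodup) :
    ∃ σ : Perm ι, (∀ i, σ (σ i) = i) ∧ (∀ i, σ i ≠ i ↔ i ∈ mc M) ∧ M = prs σ (mc M).toFinset := by
  induction M using Multiset.induction_on with
  | empty =>
    refine ⟨1, fun i => rfl, fun i => ?_, rfl⟩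
    rw [mc_zero]
    simp
  | cons p M ih =>
    induction p using Sym2.ind with
    | _ a b =>
      rw [mc_cons] at hM ⊢
      have hM' := hM
      rw [Multiset.nodup_cons, Multiset.nodup_cons, Multiset.mem_cons, not_or] at hM'
      obtain ⟨⟨hab, ha⟩, hb, hM'⟩ := hM'
      obtain ⟨σ, h1, h2, h3⟩ := ih hM'
      obtain ⟨ρ, h4, h5, h6, h7, h8⟩ := step M a b hM σ h1 h2 h3
      refine ⟨ρ, h4, h5, ?_⟩
      rw [Multiset.toFinset_cons, Multiset.toFinset_cons, prs_insert ρ a b _ ?_ ?_ h6 h7, ← h8]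
      · rw [Multiset.mem_toFinset]
        exact ha
      · rw [Multiset.mem_toFinset]
        exact hb

/-- restriction of an involution to `Fin n` -/
private def restr (n : ℕ) (σ : Perm ℕ) (h1 : ∀ i, σ (σ i) = i) (h2 : ∀ i, i < n → σ i < n) :
    Perm (Fin n) where
  toFun i := ⟨σ i, h2 i i.2⟩
  invFun i := ⟨σ i, h2 i i.2⟩
  left_inv i := Fin.ext (h1 i)
  right_inv i := Fin.ext (h1 i)

/-- Even case, letters `0, ..., n - 1`: `(M, c, d)` comes from a fixed point free involution `τ`
of `Fin n` and the point `c`, with `d = τ c`. -/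
theorem exists_even (n : ℕ) (M : Multiset (Sym2 ℕ)) (c d : ℕ)
    (h : Multiset.range n = c ::ₘ d ::ₘ mc M) :
    ∃ (τ : Perm (Fin n)) (c' : Fin n), Fpf τ ∧ c = c' ∧ d = τ c' ∧
      M = (prs τ (Finset.univ \ {c', τ c'})).map (Sym2.map (fun i : Fin n => (i : ℕ))) := by
  have hmem : ∀ x, x < n ↔ x ∈ c ::ₘ d ::ₘ mc M := by
    intro x
    rw [← h, Multiset.mem_range]
  have hnd : (c ::ₘ d ::ₘ mc M).Nodup := by
    rw [← h]
    exact Multiset.nodup_range n
  have hnd' := hnd
  rw [Multiset.nodup_cons, Multiset.nodup_cons, Multiset.mem_cons, not_or] at hnd'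
  obtain ⟨⟨hcd, hc⟩, hd, hM⟩ := hnd'
  obtain ⟨σ, h1, h2, h3⟩ := exists_involution M hM
  obtain ⟨ρ, h4, h5, h6, h7, h8⟩ := step M c d hnd σ h1 h2 h3
  have hlt : ∀ i, i < n → ρ i < n := by
    intro i hi
    rw [hmem, ← h5] at hi ⊢
    rw [h4]
    exact hi.symm
  have hcn : c < n := by
    rw [hmem]
    exact Multiset.mem_cons_self _ _
  refine ⟨restr n ρ h4 hlt, ⟨c, hcn⟩, fun i => ⟨Fin.ext (h4 i), fun h => ?_⟩, rfl, h6.symm, ?_⟩
  · have h9 := (h5 i).2 ((hmem i).1 i.2)
    exact h9 (congrArg Fin.val h)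
  · rw [← prs_map (fun i : Fin n => (i : ℕ)) Fin.val_injective (restr n ρ h4 hlt) ρ
      (fun i => rfl)]
    conv_lhs => rw [h8]
    congr 1
    ext x
    rw [Multiset.mem_toFinset, Finset.mem_image]
    constructor
    · intro hx
      have hxn : x < n := by
        rw [hmem, Multiset.mem_cons, Multiset.mem_cons]
        exact Or.inr (Or.inr hx)
      refine ⟨⟨x, hxn⟩, ?_, rfl⟩
      rw [Finset.mem_sdiff, Finset.mem_insert, Finset.mem_singleton, not_or]
      refine ⟨Finset.mem_univ _, fun h => ?_, fun h => ?_⟩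
      · have h10 : x = c := Fin.ext_iff.1 h
        exact hc (h10 ▸ hx)
      · have h10 : x = d := (Fin.ext_iff.1 h).trans h6
        exact hd (h10 ▸ hx)
    · rintro ⟨i, hi, rfl⟩
      rw [Finset.mem_sdiff, Finset.mem_insert, Finset.mem_singleton, not_or] at hi
      obtain ⟨_, hi1, hi2⟩ := hi
      have h9 := (hmem i).1 i.2
      rw [Multiset.mem_cons, Multiset.mem_cons] at h9
      rcases h9 with h9 | h9 | h9
      · exact absurd (Fin.ext h9) hi1
      · exact absurd (Fin.ext (h9.trans h6.symm)) hi2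
      · exact h9

/-- Odd case: `(M, a, b, c)` comes from a near perfect matching `σ` of `Fin n` with free point
`b` and the point `a`, with `c = σ a`. -/
theorem exists_odd (n : ℕ) (M : Multiset (Sym2 ℕ)) (a b c : ℕ)
    (h : Multiset.range n = a ::ₘ b ::ₘ c ::ₘ mc M) :
    ∃ (σ : Perm (Fin n)) (a' b' : Fin n), Vert Finset.univ b' σ ∧ a' ≠ b' ∧ a = a' ∧ b = b' ∧
      c = σ a' ∧
      M = (prs σ (Finset.univ \ {a', b', σ a'})).map (Sym2.map (fun i : Fin n => (i : ℕ))) := by
  have h' : Multiset.range n = b ::ₘ a ::ₘ c ::ₘ mc M := by rw [h, Multiset.cons_swap]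
  have hmem : ∀ x, x < n ↔ x ∈ b ::ₘ a ::ₘ c ::ₘ mc M := by
    intro x
    rw [← h', Multiset.mem_range]
  have hnd : (b ::ₘ a ::ₘ c ::ₘ mc M).Nodup := by
    rw [← h']
    exact Multiset.nodup_range n
  rw [Multiset.nodup_cons] at hnd
  obtain ⟨hb, hnd⟩ := hnd
  have hnd' := hnd
  rw [Multiset.nodup_cons, Multiset.nodup_cons, Multiset.mem_cons, not_or] at hnd'
  obtain ⟨⟨hac, ha⟩, hc, hM⟩ := hnd'
  obtain ⟨σ, h1, h2, h3⟩ := exists_involution M hM
  obtain ⟨ρ, h4, h5, h6, h7, h8⟩ := step M a c hnd σ h1 h2 h3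
  have hρb : ρ b = b := by
    by_contra h
    exact hb ((h5 b).1 h)
  have hlt : ∀ i, i < n → ρ i < n := by
    intro i hi
    by_cases hib : i = b
    · rw [hib, hρb, ← hib]
      exact hi
    · rw [hmem, Multiset.mem_cons, ← h5] at hi ⊢
      right
      rw [h4]
      exact (hi.resolve_left hib).symm
  have hbn : b < n := by
    rw [hmem]
    exact Multiset.mem_cons_self _ _
  have han : a < n := by
    rw [hmem]
    exact Multiset.mem_cons_of_mem (Multiset.mem_cons_self _ _)
  rw [Multiset.mem_cons, Multiset.mem_cons, not_or, not_or] at hb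
  obtain ⟨hba, hbc, hbM⟩ := hb
  refine ⟨restr n ρ h4 hlt, ⟨a, han⟩, ⟨b, hbn⟩, ⟨Finset.mem_univ _, fun i => Fin.ext (h4 i),
    fun i => ?_⟩, fun h => hba (Fin.ext_iff.1 h).symm, rfl, rfl, h6.symm, ?_⟩
  · have e1 : (restr n ρ h4 hlt) i ≠ i ↔ ρ i ≠ i := by
      rw [Ne, Fin.ext_iff]
      rfl
    rw [e1, h5]
    have h9 := (hmem i).1 i.2
    rw [Multiset.mem_cons] at h9
    constructor
    · intro h10
      refine ⟨Finset.mem_univ _, ?_⟩
      rintro rfl
      exact ((h5 b).2 h10) hρb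
    · rintro ⟨_, h10⟩
      exact h9.resolve_left fun h11 => h10 (Fin.ext h11)
  · rw [← prs_map (fun i : Fin n => (i : ℕ)) Fin.val_injective (restr n ρ h4 hlt) ρ
      (fun i => rfl)]
    conv_lhs => rw [h8]
    congr 1
    ext x
    rw [Multiset.mem_toFinset, Finset.mem_image]
    constructor
    · intro hx
      have hxn : x < n := by
        rw [hmem, Multiset.mem_cons, Multiset.mem_cons, Multiset.mem_cons]
        exact Or.inr (Or.inr (Or.inr hx))
      refine ⟨⟨x, hxn⟩, ?_, rfl⟩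
      rw [Finset.mem_sdiff, Finset.mem_insert, Finset.mem_insert, Finset.mem_singleton, not_or,
        not_or]
      refine ⟨Finset.mem_univ _, fun h => ?_, fun h => ?_, fun h => ?_⟩
      · have h10 : x = a := Fin.ext_iff.1 h
        exact ha (h10 ▸ hx)
      · have h10 : x = b := Fin.ext_iff.1 h
        exact hbM (h10 ▸ hx)
      · have h10 : x = c := (Fin.ext_iff.1 h).trans h6
        exact hc (h10 ▸ hx)
    · rintro ⟨i, hi, rfl⟩
      rw [Finset.mem_sdiff, Finset.mem_insert, Finset.mem_insert, Finset.mem_singleton, not_or,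
        not_or] at hi
      obtain ⟨_, hi1, hi2, hi3⟩ := hi
      have h9 := (hmem i).1 i.2
      rw [Multiset.mem_cons, Multiset.mem_cons, Multiset.mem_cons] at h9
      rcases h9 with h9 | h9 | h9 | h9
      · exact absurd (Fin.ext h9) hi2
      · exact absurd (Fin.ext h9) hi1
      · exact absurd (Fin.ext (h9.trans h6.symm)) hi3
      · exact h9

/-- renaming -/
theorem prs_conj {ι : Type u} [DecidableEq ι] (g σ : Perm ι) (S : Finset ι) :
    prs (g * σ * g⁻¹) (S.image g) = (prs σ S).map (Sym2.map g) := by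
  apply prs_map g g.injective σ (g * σ * g⁻¹)
  intro i
  show g (σ i) = g (σ (g⁻¹ (g i)))
  rw [show g⁻¹ (g i) = i from g.symm_apply_apply i]

end Pool.Agent.Lib.MP_b4a71d_al.S
end

section

/-!
# MP_b4a71d_al, S point: potentials on near perfect matchings
-/

set_option autoImplicit false

namespace Pool.Agent.Lib.MP_b4a71d_al.S

universe u v w

open Equiv

section

variable {ι : Type u} [DecidableEq ι] {L : Type v} [LieRing L]

/-- the value of the edge from `(b, σ)` to `(a, mv a b σ)` -/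
def ell (h : Law L) (x : ι → L) (E : CenT L) (S : Finset ι) (b : ι) (σ : Perm ι) (a : ι) : L :=
  ⁅(smon h x (prs σ (S \ {a, b, σ a})) E).1 (x a) (x b), x (σ a)⁆

/-- removing a pair of the matching -/
theorem ell_erase (h : Law L) (x : ι → L) (E : CenT L) {S : Finset ι} {b : ι} {σ : Perm ι}
    (hv : Vert S b σ) {p q a : ι} (hpq : p ≠ q) (hσ : σ p = q) (ha : a ∈ S) (hab : a ≠ b)
    (hap : a ≠ p) (haq : a ≠ q) :
    ell h x E S b σ a = ell h x (opS h x s(p, q) E) (S \ {p, q}) b (σ * swap p q) a := by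
  obtain ⟨hb, h1, h2⟩ := hv
  have hσq : σ q = p := by rw [← hσ, h1]
  have hp := (h2 p).1 (by rw [hσ]; exact hpq.symm)
  have hq := (h2 q).1 (by rw [hσq]; exact hpq)
  have hpa : p ≠ σ a := by
    intro hh
    apply haq
    rw [← hσ, hh, h1]
  have hqa : q ≠ σ a := by
    intro hh
    apply hap
    rw [← hσq, hh, h1]
  have e3 : ∀ y, y ≠ p → y ≠ q → (σ * swap p q) y = σ y := by
    intro y hy hy'
    rw [Perm.mul_apply, swap_apply_of_ne_of_ne hy hy']
  have hT : S \ {a, b, σ a} = insert p (insert q ((S \ {p, q}) \ {a, b, σ a})) := by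
    ext y
    simp only [Finset.mem_sdiff, Finset.mem_insert, Finset.mem_singleton, not_or]
    constructor
    · rintro ⟨m1, m2, m3, m4⟩
      by_cases hyp : y = p
      · exact Or.inl hyp
      · by_cases hyq : y = q
        · exact Or.inr (Or.inl hyq)
        · exact Or.inr (Or.inr ⟨⟨m1, hyp, hyq⟩, m2, m3, m4⟩)
    · rintro (hyp | hyq | ⟨⟨m1, -, -⟩, m2, m3, m4⟩)
      · rw [hyp]
        exact ⟨hp.1, hap.symm, hp.2, hpa⟩
      · rw [hyq]
        exact ⟨hq.1, haq.symm, hq.2, hqa⟩
      · exact ⟨m1, m2, m3, m4⟩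
  have hprs : prs σ (S \ {a, b, σ a}) =
      s(p, q) ::ₘ prs (σ * swap p q) ((S \ {p, q}) \ {a, b, σ a}) := by
    have him : ((S \ {p, q}) \ {a, b, σ a}).image (fun i => s(i, (σ * swap p q) i)) =
        ((S \ {p, q}) \ {a, b, σ a}).image (fun i => s(i, σ i)) := by
      refine Finset.image_congr fun y hy => ?_
      have hy' := Finset.mem_coe.1 hy
      simp only [Finset.mem_sdiff, Finset.mem_insert, Finset.mem_singleton, not_or] at hy'
      show s(y, (σ * swap p q) y) = s(y, σ y)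
      rw [e3 y hy'.1.2.1 hy'.1.2.2]
    have hnot : s(p, q) ∉ ((S \ {p, q}) \ {a, b, σ a}).image (fun i => s(i, σ i)) := by
      intro hh
      obtain ⟨i, hi, hi'⟩ := Finset.mem_image.1 hh
      simp only [Finset.mem_sdiff, Finset.mem_insert, Finset.mem_singleton, not_or] at hi
      rcases Sym2.eq_iff.1 hi' with ⟨h3, -⟩ | ⟨h3, -⟩
      · exact hi.1.2.1 h3
      · exact hi.1.2.2 h3
    unfold prs
    rw [him, hT, Finset.image_insert, Finset.image_insert, hσ, hσq, Sym2.eq_swap (a := q),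
      Finset.insert_idem, Finset.insert_val_of_notMem hnot]
  unfold ell
  rw [e3 a hap haq, hprs, smon_cons']

/-- three letters: the potential is `(1/3) ([E (x a) (x b), x c] + [E (x c) (x b), x a])` at the
vertex with free point `b` (`Cen.potential3`, `E.2.skew`) -/
theorem potential_three {F : Type w} [Field F] [CharZero F] [LieAlgebra F L] (h : Law L)
    (x : ι → L) (S : Finset ι) (hS : S.card = 3) (E : CenT L) :
    ∃ Φ : ι → Perm ι → L, ∀ b σ a, Vert S b σ → a ∈ S → a ≠ b →
      Φ b σ - Φ a (mv a b σ) = ell h x E S b σ a := by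
  refine ⟨fun b σ => (3 : F)⁻¹ • ∑ i ∈ S.erase b, ⁅E.1 (x i) (x b), x (σ i)⁆, ?_⟩
  intro b σ a hv ha hab
  obtain ⟨hb, h1, h2⟩ := hv
  have hca : σ a ≠ a := (h2 a).2 ⟨ha, hab⟩
  have hc : σ a ∈ S ∧ σ a ≠ b := (h2 (σ a)).1 (by rw [h1]; exact hca.symm)
  have hS' : S = {a, b, σ a} := by
    symm
    apply Finset.eq_of_subset_of_card_le
    · intro y hy
      simp only [Finset.mem_insert, Finset.mem_singleton] at hy
      rcases hy with h | h | h
      · rw [h]; exact ha
      · rw [h]; exact hb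
      · rw [h]; exact hc.1
    · rw [hS, Finset.card_insert_of_notMem, Finset.card_insert_of_notMem, Finset.card_singleton]
      · simpa using hc.2.symm
      · simp only [Finset.mem_insert, Finset.mem_singleton, not_or]
        exact ⟨hab, hca.symm⟩
  have hS1 : S.erase b = {a, σ a} := by
    ext y
    rw [Finset.mem_erase]
    conv_lhs => rw [hS']
    simp only [Finset.mem_insert, Finset.mem_singleton]
    constructor
    · rintro ⟨m1, m2 | m2 | m2⟩
      · exact Or.inl m2
      · exact absurd m2 m1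
      · exact Or.inr m2
    · rintro (m | m)
      · exact ⟨by rw [m]; exact hab, Or.inl m⟩
      · exact ⟨by rw [m]; exact hc.2, Or.inr (Or.inr m)⟩
  have hS2 : S.erase a = {b, σ a} := by
    ext y
    rw [Finset.mem_erase]
    conv_lhs => rw [hS']
    simp only [Finset.mem_insert, Finset.mem_singleton]
    constructor
    · rintro ⟨m1, m2 | m2 | m2⟩
      · exact absurd m2 m1
      · exact Or.inl m2
      · exact Or.inr m2
    · rintro (m | m)
      · exact ⟨by rw [m]; exact hab.symm, Or.inr (Or.inl m)⟩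
      · exact ⟨by rw [m]; exact hca, Or.inr (Or.inr m)⟩
  have m1 : mv a b σ b = σ a := by
    rw [mv, Perm.mul_apply, Perm.mul_apply, swap_apply_right, swap_apply_of_ne_of_ne hca hc.2]
  have m2 : mv a b σ (σ a) = b := by
    rw [mv, Perm.mul_apply, Perm.mul_apply, swap_apply_of_ne_of_ne hca hc.2, h1,
      swap_apply_left]
  have hell : ell h x E S b σ a = ⁅E.1 (x a) (x b), x (σ a)⁆ := by
    unfold ell
    have h0 : S \ {a, b, σ a} = ∅ := by
      rw [Finset.sdiff_eq_empty_iff_subset]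
      exact hS'.subset
    rw [h0]
    rfl
  rw [hell]
  simp only
  rw [hS1, hS2, Finset.sum_pair hca.symm, Finset.sum_pair hc.2.symm, h1, m1, m2, ← smul_sub,
    E.2.potential3]
  have h3 : ∀ z : L, (3 : ℤ) • z = (3 : F) • z := fun z => by
    have := (Int.cast_smul_eq_zsmul F (3 : ℤ) z).symm
    rw [this]
    norm_num
  rw [h3, smul_smul, inv_mul_cancel₀ (by norm_num), one_smul]

/-- five letters: the potential at the vertex with free point `b` and pairs `{a, c}`, `{d, e}` is
`(1/60) G5 E (x a) (x c) (x d) (x e) (x b)`; it is well defined by `G5_swap`, `G5_exch` (so it is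
also symmetric in `d, e`), and the edge `a` leads to the vertex with free point `a` and pairs
`{b, c}`, `{d, e}` (`Cen.potential5`; `(smon h x {s(d, e)} E).1 = sg E.1 (x d) (x e)`). -/
theorem potential_five {F : Type w} [Field F] [CharZero F] [LieAlgebra F L] (h : Law L)
    (x : ι → L) (S : Finset ι) (hS : S.card = 5) (E : CenT L) :
    ∃ Φ : ι → Perm ι → L, ∀ b σ a, Vert S b σ → a ∈ S → a ≠ b →
      Φ b σ - Φ a (mv a b σ) = ell h x E S b σ a :=
  potential_five_aux (F := F) h x S hS E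

/-- all odd numbers of letters, by induction (in steps of two) with `glue`, `ell_erase` -/
theorem potential {F : Type w} [Field F] [CharZero F] [LieAlgebra F L] (h : Law L)
    (x : ι → L) (S : Finset ι) (hodd : Odd S.card) (E : CenT L) :
    ∃ Φ : ι → Perm ι → L, ∀ b σ a, Vert S b σ → a ∈ S → a ≠ b →
      Φ b σ - Φ a (mv a b σ) = ell h x E S b σ a := by
  have h3 : ∀ v : L, (3 : ℤ) • v = 0 → v = 0 := fun v hv => by
    have h4 : (3 : ℤ) • v = (3 : F) • v := by
      have := (Int.cast_smul_eq_zsmul F (3 : ℤ) v).symm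
      rw [this]
      norm_num
    rw [h4] at hv
    exact (smul_eq_zero.1 hv).resolve_left (by norm_num)
  obtain ⟨n, hn⟩ : ∃ n, S.card = n := ⟨_, rfl⟩
  induction n using Nat.strong_induction_on generalizing S E with
  | _ n ih =>
    by_cases h7 : 7 ≤ S.card
    · refine glue h3 S h7 hodd (ell h x E S) fun p hp q hq hpq => ?_
      have hsub : ({p, q} : Finset ι) ⊆ S := by
        intro y hy
        rw [Finset.mem_insert, Finset.mem_singleton] at hy
        rcases hy with rfl | rfl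
        · exact hp
        · exact hq
      have hcard : (S \ {p, q}).card = S.card - 2 := by
        rw [Finset.card_sdiff_of_subset hsub, Finset.card_pair hpq]
      have hodd' : Odd (S \ {p, q}).card := by
        rw [hcard]
        obtain ⟨k, hk⟩ := hodd
        exact ⟨k - 1, by omega⟩
      obtain ⟨Φ, hΦ⟩ := ih (S \ {p, q}).card (by omega) (S \ {p, q}) hodd'
        (opS h x s(p, q) E) rfl
      refine ⟨fun b σ => Φ b (σ * swap p q), fun b σ a hv hσ ha hab hap haq => ?_⟩
      have hσq : σ q = p := by rw [← hσ, hv.2.1]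
      have hpb := ((hv.2.2 p).1 (by rw [hσ]; exact hpq.symm)).2
      have hqb := ((hv.2.2 q).1 (by rw [hσq]; exact hpq)).2
      simp only
      rw [ell_erase h x E hv hpq hσ ha hab hap haq,
        ← hΦ b (σ * swap p q) a (hv.erase_pair hpq hσ) (by simp [ha, hap, haq]) hab,
        mv_mul_swap σ hap haq hpb.symm hqb.symm]
    · have hcases : S.card = 1 ∨ S.card = 3 ∨ S.card = 5 := by
        obtain ⟨k, hk⟩ := hodd
        omega
      rcases hcases with h1 | h1 | h1
      · refine ⟨fun _ _ => 0, fun b σ a hv ha hab => ?_⟩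
        exact absurd (Finset.card_le_one.1 h1.le a ha b hv.1) hab
      · exact potential_three (F := F) h x S h1 E
      · exact potential_five (F := F) h x S h1 E

end

end Pool.Agent.Lib.MP_b4a71d_al.S
end

section

/-!
# MP_b4a71d_al, S point: even degree
-/

set_option autoImplicit false

namespace Pool.Agent.Lib.MP_b4a71d_al.S

universe u v

noncomputable section

open Equiv

variable {F : Type u} [Field F]

/-- Marked perfect matchings of `Fin n`. -/
def Om2 (n : ℕ) : Type := {ω : Perm (Fin n) × Fin n // Fpf ω.1}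

instance (n : ℕ) : Fintype (Om2 n) := by
  classical
  unfold Om2
  exact Fintype.ofFinite _

private theorem inv_app {α : Type v} (g : Perm α) (x : α) : g⁻¹ (g x) = x := g.symm_apply_apply x

private theorem app_inv {α : Type v} (g : Perm α) (x : α) : g (g⁻¹ x) = x := g.apply_symm_apply x

theorem fpf_conj {n : ℕ} (g : Perm (Fin n)) {σ : Perm (Fin n)} (h : Fpf σ) :
    Fpf (g * σ * g⁻¹) := by
  intro x
  simp only [Perm.mul_apply]
  constructor
  · rw [inv_app, (h _).1, app_inv]
  · intro h1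
    apply (h (g⁻¹ x)).2
    apply g.injective
    rw [h1, app_inv]

instance (n : ℕ) : MulAction (Perm (Fin n)) (Om2 n) where
  smul g ω := ⟨(g * ω.1.1 * g⁻¹, g ω.1.2), fpf_conj g ω.2⟩
  one_smul ω := by
    apply Subtype.ext
    change (1 * ω.1.1 * 1⁻¹, (1 : Perm (Fin n)) ω.1.2) = ω.1
    simp
  mul_smul g h ω := by
    apply Subtype.ext
    change (g * h * ω.1.1 * (g * h)⁻¹, (g * h) ω.1.2) =
      (g * (h * ω.1.1 * h⁻¹) * g⁻¹, g (h ω.1.2))
    simp [mul_assoc]

/-- The other point of the marked pair. -/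
def flip {n : ℕ} (ω : Om2 n) : Om2 n := ⟨(ω.1.1, ω.1.1 ω.1.2), ω.2⟩

private theorem flip_flip {n : ℕ} (ω : Om2 n) : flip (flip ω) = ω := by
  apply Subtype.ext
  change (ω.1.1, ω.1.1 (ω.1.1 ω.1.2)) = (ω.1.1, ω.1.2)
  rw [(ω.2 ω.1.2).1]

private theorem smul_val {n : ℕ} (g : Perm (Fin n)) (ω : Om2 n) :
    (g • ω).1 = (g * ω.1.1 * g⁻¹, g ω.1.2) := rfl

private theorem flip_val {n : ℕ} (ω : Om2 n) : (flip ω).1 = (ω.1.1, ω.1.1 ω.1.2) := rfl

private theorem flip_smul {n : ℕ} (g : Perm (Fin n)) (ω : Om2 n) :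
    flip (g • ω) = g • flip ω := by
  apply Subtype.ext
  rw [flip_val, smul_val, smul_val, flip_val]
  simp only [Perm.mul_apply, inv_app]

/-- `gelfand_odd` with `exists_exchange_marked`. -/
theorem dist_even [CharZero F] (n : ℕ) :
    DistBetween (funRep F (Perm (Fin n)) (Om2 n)) ⊥ (oddFun F (flip (n := n))) := by
  refine gelfand_odd flip flip_flip flip_smul ?_
  intro ω₁ ω₂
  have hconj : ∀ g a b : Perm (Fin n), (∀ x, g (a x) = b (g x)) → g * a * g⁻¹ = b := by
    intro g a b h
    rw [mul_inv_eq_iff_eq_mul]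
    exact Equiv.ext h
  rcases exists_exchange_marked ω₁.1.1 ω₂.1.1 ω₁.2 ω₂.2 ω₁.1.2 ω₂.1.2 with
    ⟨g, h1, h2, h3, h4⟩ | ⟨g, h1, h2, h3, h4⟩ | ⟨g, h1, h2, h3, h4⟩
  · refine Or.inl ⟨g, Subtype.ext ?_, Subtype.ext ?_⟩
    · rw [smul_val, hconj g _ _ h1, h3]
    · rw [smul_val, hconj g _ _ h2, h4]
  · refine Or.inr (Or.inl ⟨g, Subtype.ext ?_, Subtype.ext ?_⟩)
    · rw [smul_val, flip_val, hconj g _ _ h1, h3]
    · rw [smul_val, flip_val, hconj g _ _ h2, h4]
  · refine Or.inr (Or.inr ⟨g, Subtype.ext ?_, Subtype.ext ?_⟩)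
    · rw [smul_val, flip_val, hconj g _ _ h1, h3]
    · rw [smul_val, hconj g _ _ h2, h4]

/-- The element of the relatively free algebra of a marked matching. -/
def ev2 {J : Submodule F (FL F)} (hJ : IsTIdeal F J) (h : Law hJ.relFree.carrier) {n : ℕ}
    (ω : Om2 n) : hJ.relFree.carrier :=
  (smon h (fun i : Fin n => hJ.proj (X F i)) (prs ω.1.1 (Finset.univ \ {ω.1.2, ω.1.1 ω.1.2}))
    (E0 h)).1 (hJ.proj (X F (ω.1.2 : ℕ))) (hJ.proj (X F (ω.1.1 ω.1.2 : ℕ)))

private theorem CenT.skew' {L : Type v} [LieRing L] (E : CenT L) (x y : L) :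
    E.1 x y = - E.1 y x := E.2.skew x y

theorem ev2_flip {J : Submodule F (FL F)} (hJ : IsTIdeal F J) (h : Law hJ.relFree.carrier) {n : ℕ}
    (ω : Om2 n) : ev2 hJ h (flip ω) = - ev2 hJ h ω := by
  rw [ev2, flip_val]
  simp only
  rw [(ω.2 ω.1.2).1, Finset.pair_comm]
  exact CenT.skew' _ _ _

/-- `map_smon`, `smon_map`, `prs_conj` -/
theorem ev2_smul {J : Submodule F (FL F)} (hJ : IsTIdeal F J) (h : Law hJ.relFree.carrier) {n : ℕ}
    (g : Perm (Fin n)) (ψ : hJ.relFree.carrier →ₗ⁅F⁆ hJ.relFree.carrier)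
    (hψ : ∀ f : FL F, ψ (hJ.proj f) = hJ.proj (ren (pext g) f)) (ω : Om2 n) :
    ev2 hJ h (g • ω) = ψ (ev2 hJ h ω) := by
  have hx : ∀ i : Fin n, ψ (hJ.proj (X F i)) = hJ.proj (X F (g i : ℕ)) := by
    intro i
    rw [hψ, ren_X, pext_coe]
  have h1 := map_smon h h (ψ : hJ.relFree.carrier →ₗ[F] hJ.relFree.carrier).toAddMonoidHom
    (fun x y => LieHom.map_lie ψ x y)
    (fun i : Fin n => hJ.proj (X F i)) (fun i : Fin n => hJ.proj (X F (g i : ℕ))) hx
    (prs ω.1.1 (Finset.univ \ {ω.1.2, ω.1.1 ω.1.2})) (E0 h) (E0 h)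
    (fun x y => LieHom.map_lie ψ x y)
    (hJ.proj (X F (ω.1.2 : ℕ))) (hJ.proj (X F (ω.1.1 ω.1.2 : ℕ)))
  have h2 : ψ (ev2 hJ h ω) = (smon h (fun i : Fin n => hJ.proj (X F (g i : ℕ)))
      (prs ω.1.1 (Finset.univ \ {ω.1.2, ω.1.1 ω.1.2})) (E0 h)).1
      (ψ (hJ.proj (X F (ω.1.2 : ℕ)))) (ψ (hJ.proj (X F (ω.1.1 ω.1.2 : ℕ)))) := h1
  rw [h2, hx, hx, ev2, smul_val]
  simp only [Perm.mul_apply, inv_app]
  have h3 : (Finset.univ \ {g ω.1.2, g (ω.1.1 ω.1.2)} : Finset (Fin n)) =
      (Finset.univ \ {ω.1.2, ω.1.1 ω.1.2}).image g := by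
    rw [Finset.image_sdiff _ _ g.injective, Finset.image_univ_of_surjective g.surjective,
      Finset.image_insert, Finset.image_singleton]
  rw [h3, prs_conj, smon_map]
  rfl

private theorem card_mc {ι : Type v} (M : Multiset (Sym2 ι)) :
    Multiset.card (mc M) = 2 * Multiset.card M := by
  induction M using Multiset.induction_on with
  | empty => rfl
  | cons p M ih =>
    induction p using Sym2.ind with
    | _ a b =>
      rw [mc_cons, Multiset.card_cons, Multiset.card_cons, Multiset.card_cons, ih]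
      ring

private theorem mc_map {ι : Type u} {κ : Type v} (g : ι → κ) (M : Multiset (Sym2 ι)) :
    mc (M.map (Sym2.map g)) = (mc M).map g := by
  induction M using Multiset.induction_on with
  | empty => rfl
  | cons p M ih =>
    induction p using Sym2.ind with
    | _ a b =>
      rw [mc_cons, Multiset.map_cons, Sym2.map_mk, mc_cons, ih, Multiset.map_cons,
        Multiset.map_cons]

private theorem mc_prs {ι : Type v} [DecidableEq ι] {σ : Perm ι} (hσ : Fpf σ) :
    ∀ S : Finset ι, (∀ x ∈ S, σ x ∈ S) → mc (prs σ S) = S.val := by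
  intro S
  induction S using Finset.strongInduction with
  | H S ih =>
    intro hS
    rcases S.eq_empty_or_nonempty with h0 | ⟨a, ha⟩
    · rw [h0]
      rfl
    · obtain ⟨T, hT⟩ : ∃ T, T = S \ {a, σ a} := ⟨_, rfl⟩
      have haT : a ∉ T := by
        rw [hT]
        simp
      have hbT : σ a ∉ T := by
        rw [hT]
        simp
      have hab : a ≠ σ a := (hσ a).2.symm
      have hST : S = insert a (insert (σ a) T) := by
        rw [hT]
        ext y
        simp only [Finset.mem_insert, Finset.mem_sdiff, Finset.mem_singleton, not_or]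
        constructor
        · intro hy
          by_cases h1 : y = a
          · exact Or.inl h1
          · by_cases h2 : y = σ a
            · exact Or.inr (Or.inl h2)
            · exact Or.inr (Or.inr ⟨hy, h1, h2⟩)
        · rintro (h1 | h1 | h1)
          · rw [h1]
            exact ha
          · rw [h1]
            exact hS a ha
          · exact h1.1
      have hTS : T ⊂ S := by
        rw [Finset.ssubset_iff_subset_ne]
        refine ⟨by rw [hT]; exact Finset.sdiff_subset, fun h => haT (by rw [h]; exact ha)⟩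
      have hTst : ∀ x ∈ T, σ x ∈ T := by
        intro x hx
        rw [hT, Finset.mem_sdiff, Finset.mem_insert, Finset.mem_singleton, not_or] at hx ⊢
        refine ⟨hS x hx.1, fun h => hx.2.2 ?_, fun h => hx.2.1 (σ.injective h)⟩
        rw [← h, (hσ x).1]
      have h1 : (S.image fun i => s(i, σ i)) = insert s(a, σ a) (T.image fun i => s(i, σ i)) := by
        conv_lhs => rw [hST]
        rw [Finset.image_insert, Finset.image_insert, (hσ a).1, Sym2.eq_swap (a := σ a)]
        exact Finset.insert_eq_of_mem (Finset.mem_insert_self _ _)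
      have h2 : s(a, σ a) ∉ T.image fun i => s(i, σ i) := by
        intro h
        obtain ⟨y, hy, h⟩ := Finset.mem_image.1 h
        rw [Sym2.eq_iff] at h
        rcases h with h | h
        · exact haT (by rw [← h.1]; exact hy)
        · exact hbT (by rw [← h.1]; exact hy)
      have h3 : prs σ S = s(a, σ a) ::ₘ prs σ T := by
        rw [prs, h1, Finset.insert_val_of_notMem h2, prs]
      rw [h3, mc_cons, ih T hTS hTst]
      conv_rhs => rw [hST]
      rw [Finset.insert_val_of_notMem, Finset.insert_val_of_notMem hbT]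
      rw [Finset.mem_insert, not_or]
      exact ⟨hab, haT⟩

private theorem range_eq {n : ℕ} (ω : Om2 n) :
    Multiset.range n = (ω.1.2 : ℕ) ::ₘ (ω.1.1 ω.1.2 : ℕ) ::ₘ
      mc ((prs ω.1.1 (Finset.univ \ {ω.1.2, ω.1.1 ω.1.2})).map
        (Sym2.map (fun i : Fin n => (i : ℕ)))) := by
  have h0 := mc_prs ω.2 Finset.univ (fun x _ => Finset.mem_univ _)
  have h1 := mc_prs ω.2 (Finset.univ \ {ω.1.2, ω.1.1 ω.1.2}) (by
    intro x hx
    rw [Finset.mem_sdiff, Finset.mem_insert, Finset.mem_singleton, not_or] at hx ⊢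
    refine ⟨Finset.mem_univ _, fun h => hx.2.2 ?_, fun h => hx.2.1 (ω.1.1.injective h)⟩
    rw [← h, (ω.2 x).1])
  rw [mc_map, h1]
  have h2 : (Finset.univ : Finset (Fin n)) =
      insert ω.1.2 (insert (ω.1.1 ω.1.2) (Finset.univ \ {ω.1.2, ω.1.1 ω.1.2})) := by
    ext y
    simp only [Finset.mem_univ, Finset.mem_insert, Finset.mem_sdiff, Finset.mem_singleton, not_or,
      true_and, true_iff]
    tauto
  have h3 : (Finset.univ : Finset (Fin n)).val.map (fun i : Fin n => (i : ℕ)) =
      Multiset.range n := by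
    have h4 := Fin.map_valEmbedding_univ (n := n)
    have h5 := congrArg Finset.val h4
    rw [Finset.map_val, Nat.Iio_eq_range, Finset.range_val] at h5
    exact h5
  rw [← h3]
  conv_lhs => rw [h2]
  rw [Finset.insert_val_of_notMem, Finset.insert_val_of_notMem, Multiset.map_cons,
    Multiset.map_cons]
  · simp
  · rw [Finset.mem_insert, not_or]
    exact ⟨(ω.2 ω.1.2).2.symm, by simp⟩

private theorem ev2_eq {J : Submodule F (FL F)} (hJ : IsTIdeal F J)
    (h : Law hJ.relFree.carrier) {n : ℕ} (ω : Om2 n) :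
    ev2 hJ h ω = (smon h (fun i : ℕ => hJ.proj (X F i))
      ((prs ω.1.1 (Finset.univ \ {ω.1.2, ω.1.1 ω.1.2})).map
        (Sym2.map (fun i : Fin n => (i : ℕ)))) (E0 h)).1
      (hJ.proj (X F (ω.1.2 : ℕ))) (hJ.proj (X F (ω.1.1 ω.1.2 : ℕ))) := by
  rw [smon_map]
  rfl

/-- `TS_le_map` -/
theorem ev2_mem [CharZero F] {J : Submodule F (FL F)} (hJ : IsTIdeal F J)
    (h : Law hJ.relFree.carrier) {n : ℕ} (ω : Om2 n) :
    ev2 hJ h ω ∈ (P (F := F) n).map hJ.proj.toLinearMap := by
  apply TS_le_map hJ h (Multiset.range n)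
  apply Submodule.subset_span
  exact Or.inr (Or.inl ⟨_, _, _, range_eq ω, ev2_eq hJ h ω⟩)

/-- `map_mem_TS`, `exists_even` -/
theorem ev2_span [CharZero F] {J : Submodule F (FL F)} (hJ : IsTIdeal F J)
    (h : Law hJ.relFree.carrier) {n : ℕ} (hn : Even n) {p : FL F} (hp : p ∈ P n) :
    hJ.proj p ∈ Submodule.span F (Set.range (ev2 hJ h (n := n))) := by
  have h1 := map_mem_TS h (fun i => hJ.proj (X F i)) hJ.proj (fun i => rfl) hp
  revert h1
  apply Submodule.span_le.2
  rintro y (⟨i, hs, hy⟩ | ⟨M, c, d, hs, hy⟩ | ⟨M, a, b, c, hs, hy⟩)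
  · exfalso
    have h2 := congrArg Multiset.card hs
    rw [Multiset.card_range, Multiset.card_singleton] at h2
    rw [h2] at hn
    exact absurd hn (by decide)
  · obtain ⟨τ, c', h2, h3, h4, h5⟩ := exists_even n M c d hs
    apply Submodule.subset_span
    refine ⟨⟨(τ, c'), h2⟩, ?_⟩
    rw [ev2_eq, hy, h5, h3, h4]
  · exfalso
    have h2 := congrArg Multiset.card hs
    rw [Multiset.card_range, Multiset.card_cons, Multiset.card_cons, Multiset.card_cons,
      card_mc] at h2
    rw [h2] at hn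
    obtain ⟨k, hk⟩ := hn
    omega

/-- Theorem R, even degree.  Choose `e ω ∈ P n` with `proj (e ω) = ev2 ω` and apply
`distP_of_fun` with `W = oddFun F flip`, `Ψ f = ∑ ω, f ω • e ω`. -/
theorem distP_even [CharZero F] {J : Submodule F (FL F)} (hJ : IsTIdeal F J) (hl : lawFL F ∈ J)
    {n : ℕ} (hn : Even n) : DistP J n := by
  have h := law_relFree hJ hl
  have hch : ∀ ω : Om2 n, ∃ f ∈ P (F := F) n, hJ.proj f = ev2 hJ h ω := fun ω => ev2_mem hJ h ω
  choose e he1 he2 using hch
  have hproj : ∀ f : Om2 n → F, hJ.proj (Fintype.linearCombination F e f) =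
      ∑ ω, f ω • ev2 hJ h ω := by
    intro f
    rw [Fintype.linearCombination_apply]
    change hJ.proj.toLinearMap (∑ ω, f ω • e ω) = _
    rw [map_sum]
    refine Finset.sum_congr rfl fun ω _ => ?_
    rw [map_smul]
    congr 1
    exact he2 ω
  have hflip : ∀ f : Om2 n → F, ∑ ω, f (flip ω) • ev2 hJ h ω = - ∑ ω, f ω • ev2 hJ h ω := by
    intro f
    rw [← Finset.sum_neg_distrib]
    refine Fintype.sum_equiv (Function.Involutive.toPerm flip flip_flip) _ _ fun ω => ?_
    change f (flip ω) • ev2 hJ h ω = -(f (flip ω) • ev2 hJ h (flip ω))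
    rw [ev2_flip, smul_neg, neg_neg]
  refine distP_of_fun hJ (oddFun F (flip (n := n))) ?_ (dist_even n)
    (Fintype.linearCombination F e) ?_ ?_ ?_
  · intro g f hf ω
    change f (g⁻¹ • flip ω) = - f (g⁻¹ • ω)
    rw [← flip_smul]
    exact hf _
  · intro f _
    rw [Fintype.linearCombination_apply]
    exact Submodule.sum_mem _ fun ω _ => Submodule.smul_mem _ _ (he1 ω)
  · intro p hp
    obtain ⟨c, hc⟩ := (Submodule.mem_span_range_iff_exists_fun F).1 (ev2_span hJ h hn hp)
    refine ⟨fun ω => (2 : F)⁻¹ * (c ω - c (flip ω)), ?_, ?_⟩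
    · intro ω
      change (2 : F)⁻¹ * (c (flip ω) - c (flip (flip ω))) = -((2 : F)⁻¹ * (c ω - c (flip ω)))
      rw [flip_flip]
      ring
    · rw [← hJ.proj_eq_zero]
      have h1 : hJ.proj (p - Fintype.linearCombination F e
          (fun ω => (2 : F)⁻¹ * (c ω - c (flip ω)))) = hJ.proj p -
          hJ.proj (Fintype.linearCombination F e
          (fun ω => (2 : F)⁻¹ * (c ω - c (flip ω)))) := map_sub hJ.proj.toLinearMap _ _
      rw [h1, hproj, sub_eq_zero]
      have h2 : ∀ ω : Om2 n, ((2 : F)⁻¹ * (c ω - c (flip ω))) • ev2 hJ h ω =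
          (2 : F)⁻¹ • (c ω • ev2 hJ h ω - c (flip ω) • ev2 hJ h ω) := by
        intro ω
        rw [mul_smul, sub_smul]
      simp only [h2]
      rw [← Finset.smul_sum, Finset.sum_sub_distrib, hflip, sub_neg_eq_add, hc, ← two_smul F,
        smul_smul, inv_mul_cancel₀ two_ne_zero, one_smul]
  · intro g f _
    rw [← hJ.proj_eq_zero]
    obtain ⟨ψ, hψ⟩ := exists_act hJ (pext g)
    have h1 : hJ.proj (Fintype.linearCombination F e (funRep F (Perm (Fin n)) (Om2 n) g f) -
        ren (pext g) (Fintype.linearCombination F e f)) =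
        hJ.proj (Fintype.linearCombination F e (funRep F (Perm (Fin n)) (Om2 n) g f)) -
        hJ.proj (ren (pext g) (Fintype.linearCombination F e f)) :=
      map_sub hJ.proj.toLinearMap _ _
    rw [h1, ← hψ, hproj, hproj, sub_eq_zero]
    change _ = ψ.toLinearMap (∑ ω, f ω • ev2 hJ h ω)
    rw [map_sum]
    refine (Fintype.sum_equiv (MulAction.toPerm g) _ _ fun ω => ?_).symm
    change ψ.toLinearMap (f ω • ev2 hJ h ω) = f (g⁻¹ • g • ω) • ev2 hJ h (g • ω)
    rw [map_smul, inv_smul_smul, ev2_smul hJ h g ψ hψ]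
    rfl

end

end Pool.Agent.Lib.MP_b4a71d_al.S
end

section

/-!
# MP_b4a71d_al, S point: odd degree
-/

set_option autoImplicit false

namespace Pool.Agent.Lib.MP_b4a71d_al.S

universe u v

noncomputable section

open Equiv

variable {F : Type u} [Field F]

/-- Near perfect matchings of `Fin n`. -/
def Om1 (n : ℕ) : Type := {ω : Perm (Fin n) × Fin n // Vert Finset.univ ω.2 ω.1}

instance (n : ℕ) : Fintype (Om1 n) := by
  classical
  unfold Om1
  exact Fintype.ofFinite _

private theorem p_inv_self {ι : Type*} (g : Perm ι) (x : ι) : g⁻¹ (g x) = x :=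
  g.symm_apply_apply x

private theorem p_self_inv {ι : Type*} (g : Perm ι) (x : ι) : g (g⁻¹ x) = x :=
  g.apply_symm_apply x

theorem vert_conj {n : ℕ} (g : Perm (Fin n)) {b : Fin n} {σ : Perm (Fin n)}
    (h : Vert Finset.univ b σ) : Vert Finset.univ (g b) (g * σ * g⁻¹) := by
  obtain ⟨_, h1, h2⟩ := h
  refine ⟨Finset.mem_univ _, fun x => ?_, fun x => ?_⟩
  · simp only [Perm.mul_apply, p_inv_self, h1, p_self_inv]
  · have e : (g * σ * g⁻¹) x ≠ x ↔ σ (g⁻¹ x) ≠ g⁻¹ x := by
      rw [not_iff_not, Perm.mul_apply, Perm.mul_apply]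
      constructor
      · intro h
        conv_rhs => rw [← h]
        rw [p_inv_self]
      · intro h
        rw [h, p_self_inv]
    rw [e, h2]
    constructor
    · rintro ⟨_, h⟩
      exact ⟨Finset.mem_univ _, fun h' => h (by rw [h', p_inv_self])⟩
    · rintro ⟨_, h⟩
      exact ⟨Finset.mem_univ _, fun h' => h (by rw [← h', p_self_inv])⟩

instance (n : ℕ) : MulAction (Perm (Fin n)) (Om1 n) where
  smul g ω := ⟨(g * ω.1.1 * g⁻¹, g ω.1.2), vert_conj g ω.2⟩
  one_smul ω := by
    apply Subtype.ext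
    change (1 * ω.1.1 * 1⁻¹, (1 : Perm (Fin n)) ω.1.2) = ω.1
    simp
  mul_smul g h ω := by
    apply Subtype.ext
    change (g * h * ω.1.1 * (g * h)⁻¹, (g * h) ω.1.2) =
      (g * (h * ω.1.1 * h⁻¹) * g⁻¹, g (h ω.1.2))
    simp [mul_assoc]

/-- `gelfand_sym` with `exists_exchange_one`. -/
theorem dist_odd [CharZero F] (n : ℕ) :
    DistBetween (funRep F (Perm (Fin n)) (Om1 n)) ⊥ ⊤ := by
  apply gelfand_sym
  intro ω₁ ω₂
  have hfix : ∀ ω : Om1 n, ∀ x, ω.1.1 x = x ↔ x = ω.1.2 := by
    intro ω x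
    have h := not_iff_not.2 (ω.2.2.2 x)
    rw [not_not] at h
    rw [h]
    constructor
    · intro h
      by_contra h'
      exact h ⟨Finset.mem_univ _, h'⟩
    · rintro h ⟨_, h'⟩
      exact h' h
  obtain ⟨g, h1, h2, h3, h4⟩ := exists_exchange_one ω₁.1.1 ω₂.1.1 ω₁.1.2 ω₂.1.2 ω₁.2.2.1 ω₂.2.2.1
    (hfix ω₁) (hfix ω₂)
  refine ⟨g, Subtype.ext (Prod.ext ?_ h3), Subtype.ext (Prod.ext ?_ h4)⟩
  · change g * ω₁.1.1 * g⁻¹ = ω₂.1.1
    ext x
    rw [Perm.mul_apply, Perm.mul_apply, h1, p_self_inv]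
  · change g * ω₂.1.1 * g⁻¹ = ω₁.1.1
    ext x
    rw [Perm.mul_apply, Perm.mul_apply, h2, p_self_inv]

/-- The functions with sum zero. -/
def sumZero (F : Type u) [Field F] (Ω : Type v) [Fintype Ω] : Submodule F (Ω → F) where
  carrier := {f | ∑ ω, f ω = 0}
  add_mem' := by
    intro f g hf hg
    change ∑ ω, (f ω + g ω) = 0
    rw [Finset.sum_add_distrib, show ∑ ω, f ω = 0 from hf, show ∑ ω, g ω = 0 from hg, add_zero]
  zero_mem' := by
    change ∑ _ω : Ω, (0 : F) = 0
    simp
  smul_mem' := by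
    intro c f hf
    change ∑ ω, c * f ω = 0
    rw [← Finset.mul_sum, show ∑ ω, f ω = 0 from hf, mul_zero]

/-- The functions with sum zero are spanned by the differences along the moves (`conn`). -/
theorem sumZero_le_span (n : ℕ) (f : Om1 n → F) (hf : f ∈ sumZero F (Om1 n)) :
    f ∈ Submodule.span F {φ | ∃ (ω ω' : Om1 n) (a : Fin n), a ≠ ω.1.2 ∧
      ω'.1 = (mv a ω.1.2 ω.1.1, a) ∧ φ = fun η => by
        classical exact (if η = ω then (1 : F) else 0) - (if η = ω' then 1 else 0)} := by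
  classical
  set S : Submodule F (Om1 n → F) := Submodule.span F {φ | ∃ (ω ω' : Om1 n) (a : Fin n),
    a ≠ ω.1.2 ∧ ω'.1 = (mv a ω.1.2 ω.1.1, a) ∧ φ = fun η =>
      (if η = ω then (1 : F) else 0) - (if η = ω' then 1 else 0)} with hS
  have key : ∀ ω ω' : Om1 n,
      (Pi.single ω (1 : F) : Om1 n → F) - Pi.single ω' 1 ∈ S := by
    intro ω ω'
    rw [← Submodule.Quotient.eq]
    have h := conn (V := (Om1 n → F) ⧸ S) Finset.univ
      (fun b σ => Submodule.Quotient.mk (fun η : Om1 n => if η.1 = (σ, b) then (1 : F) else 0))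
      (by
        intro b σ a hb ha hab
        rw [Submodule.Quotient.eq]
        apply Submodule.subset_span
        refine ⟨⟨(σ, b), hb⟩, ⟨(mv a b σ, a), hb.mv_vert ha hab⟩, a, hab, rfl, ?_⟩
        funext η
        simp only [Pi.sub_apply]
        congr 1
        · exact if_congr ⟨fun h => Subtype.ext h, fun h => by rw [h]⟩ rfl rfl
        · exact if_congr ⟨fun h => Subtype.ext h, fun h => by rw [h]⟩ rfl rfl)
      ω.1.2 ω.1.1 ω'.1.2 ω'.1.1 ω.2 ω'.2
    have e : ∀ ω : Om1 n, (fun η : Om1 n => if η.1 = (ω.1.1, ω.1.2) then (1 : F) else 0) =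
        Pi.single ω 1 := by
      intro ω
      funext η
      rw [Pi.single_apply]
      exact if_congr ⟨fun h => Subtype.ext h, fun h => by rw [h]⟩ rfl rfl
    simp only [e] at h
    exact h
  rcases isEmpty_or_nonempty (Om1 n) with hE | ⟨⟨ω₀⟩⟩
  · have : f = 0 := Subsingleton.elim _ _
    rw [this]
    exact Submodule.zero_mem _
  · have h1 : f = ∑ ω, f ω • ((Pi.single ω (1 : F) : Om1 n → F) - Pi.single ω₀ 1) := by
      have h2 : ∑ ω, f ω = 0 := hf
      simp only [smul_sub, Finset.sum_sub_distrib]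
      rw [← Finset.sum_smul, h2, zero_smul, sub_zero]
      funext x
      simp [Finset.sum_apply, Pi.single_apply]
    rw [h1]
    exact Submodule.sum_mem _ fun ω _ => Submodule.smul_mem _ _ (key ω ω₀)

private theorem prs_insert' {ι : Type u} [DecidableEq ι] (σ : Perm ι) (a b : ι) (S : Finset ι)
    (ha : a ∉ S) (hb : b ∉ S) (h1 : σ a = b) (h2 : σ b = a) :
    prs σ (insert a (insert b S)) = s(a, b) ::ₘ prs σ S := by
  unfold prs
  rw [Finset.image_insert, Finset.image_insert, h1, h2, Sym2.eq_swap (a := b) (b := a),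
    Finset.insert_idem, Finset.insert_val_of_notMem]
  rw [Finset.mem_image]
  rintro ⟨i, hi, h⟩
  rw [Sym2.eq_iff] at h
  rcases h with ⟨h, _⟩ | ⟨h, _⟩
  · exact ha (h ▸ hi)
  · exact hb (h ▸ hi)

/-- The content of the pairs of an involution without fixed points on a stable set. -/
private theorem mc_prs' {ι : Type u} [DecidableEq ι] (σ : Perm ι) (hσ : ∀ x, σ (σ x) = x)
    (S : Finset ι) : (∀ x ∈ S, σ x ∈ S ∧ σ x ≠ x) → mc (prs σ S) = S.val := by
  induction S using Finset.strongInduction with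
  | H S ih =>
    intro hS
    rcases S.eq_empty_or_nonempty with rfl | ⟨a, ha⟩
    · rfl
    · obtain ⟨hb, hne⟩ := hS a ha
      set T := (S.erase a).erase (σ a) with hT
      have hbT : σ a ∉ T := Finset.notMem_erase _ _
      have haT : a ∉ T := fun h => Finset.notMem_erase a S (Finset.mem_of_mem_erase h)
      have h1 : insert a (insert (σ a) T) = S := by
        rw [hT, Finset.insert_erase (Finset.mem_erase.2 ⟨hne, hb⟩), Finset.insert_erase ha]
      have h2 : mc (prs σ T) = T.val := by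
        apply ih
        · rw [Finset.ssubset_iff_subset_ne]
          refine ⟨(Finset.erase_subset _ _).trans (Finset.erase_subset _ _), fun h => ?_⟩
          rw [h] at haT
          exact haT ha
        · intro x hx
          have hx' := hx
          rw [hT, Finset.mem_erase, Finset.mem_erase] at hx
          obtain ⟨hx1, hx2, hx3⟩ := hx
          obtain ⟨hx4, hx5⟩ := hS x hx3
          refine ⟨?_, hx5⟩
          rw [hT, Finset.mem_erase, Finset.mem_erase]
          refine ⟨fun h => hx2 (σ.injective h), fun h => hx1 ?_, hx4⟩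
          rw [← h, hσ]
      rw [← h1, prs_insert' σ a (σ a) T haT hbT rfl (hσ a), mc_cons, h2,
        Finset.insert_val_of_notMem, Finset.insert_val_of_notMem hbT]
      rw [Finset.mem_insert, not_or]
      exact ⟨hne.symm, haT⟩

private theorem mc_map' {ι : Type*} {κ : Type*} (f : ι → κ) (M : Multiset (Sym2 ι)) :
    mc (M.map (Sym2.map f)) = (mc M).map f := by
  induction M using Multiset.induction_on with
  | empty => rfl
  | cons p M ih =>
    rw [Multiset.map_cons]
    induction p using Sym2.ind with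
    | _ a b => rw [Sym2.map_mk, mc_cons, mc_cons, ih, Multiset.map_cons, Multiset.map_cons]

private theorem card_mc' {ι : Type*} (M : Multiset (Sym2 ι)) :
    Multiset.card (mc M) = 2 * Multiset.card M := by
  induction M using Multiset.induction_on with
  | empty => rfl
  | cons p M ih =>
    induction p using Sym2.ind with
    | _ a b => rw [mc_cons, Multiset.card_cons, Multiset.card_cons, Multiset.card_cons, ih]; ring

private theorem mem_compl3 {n : ℕ} (ω : Om1 n) (a : Fin n) (ha : a ≠ ω.1.2) :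
    ∀ x ∈ (Finset.univ \ {a, ω.1.2, ω.1.1 a} : Finset (Fin n)),
      ω.1.1 x ∈ (Finset.univ \ {a, ω.1.2, ω.1.1 a} : Finset (Fin n)) ∧ ω.1.1 x ≠ x := by
  obtain ⟨⟨σ, b⟩, h0, h1, h2⟩ := ω
  simp only at h0 h1 h2 ha ⊢
  have hb : σ b = b := by
    by_contra h
    exact ((h2 b).1 h).2 rfl
  intro x hx
  simp only [Finset.mem_sdiff, Finset.mem_univ, true_and, Finset.mem_insert,
    Finset.mem_singleton, not_or] at hx ⊢
  obtain ⟨hx1, hx2, hx3⟩ := hx
  refine ⟨⟨fun h => hx3 ?_, fun h => hx2 ?_, fun h => hx1 (σ.injective h)⟩, ?_⟩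
  · rw [← h, h1]
  · rw [← h1 x, h, hb]
  · exact (h2 x).2 ⟨Finset.mem_univ _, hx2⟩

private theorem cont3 {n : ℕ} (ω : Om1 n) (a : Fin n) (ha : a ≠ ω.1.2) :
    Multiset.range n = (a : ℕ) ::ₘ (ω.1.2 : ℕ) ::ₘ (ω.1.1 a : ℕ) ::ₘ
      mc ((prs ω.1.1 (Finset.univ \ {a, ω.1.2, ω.1.1 a})).map
        (Sym2.map (fun i : Fin n => (i : ℕ)))) := by
  rw [mc_map', mc_prs' ω.1.1 ω.2.2.1 _ (mem_compl3 ω a ha)]
  have h3 : ω.1.1 a ≠ a := (ω.2.2.2 a).2 ⟨Finset.mem_univ _, ha⟩
  have hb : ω.1.1 ω.1.2 = ω.1.2 := by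
    by_contra h
    exact ((ω.2.2.2 _).1 h).2 rfl
  have h4 : ω.1.2 ≠ ω.1.1 a := by
    intro h
    rw [← hb] at h
    exact ha (ω.1.1.injective h).symm
  have h5 : (Finset.univ : Finset (Fin n)).val = a ::ₘ ω.1.2 ::ₘ ω.1.1 a ::ₘ
      (Finset.univ \ {a, ω.1.2, ω.1.1 a} : Finset (Fin n)).val := by
    have h6 : (Finset.univ : Finset (Fin n)) = insert a (insert ω.1.2 (insert (ω.1.1 a)
        (Finset.univ \ {a, ω.1.2, ω.1.1 a}))) := by
      ext x
      simp only [Finset.mem_univ, Finset.mem_insert, Finset.mem_sdiff, true_and,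
        Finset.mem_singleton, not_or]
      tauto
    conv_lhs => rw [h6]
    rw [Finset.insert_val_of_notMem, Finset.insert_val_of_notMem, Finset.insert_val_of_notMem]
    · simp
    · simp [h4]
    · simp [ha, h3.symm]
  have h7 : Multiset.range n = (Finset.univ : Finset (Fin n)).val.map (fun i : Fin n => (i : ℕ)) := by
    rw [Fin.univ_val_map]
    simp [Multiset.range, List.ofFn_eq_map]
  rw [h7, h5, Multiset.map_cons, Multiset.map_cons, Multiset.map_cons]

/-- The element of the relatively free algebra of an edge. -/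
def ev1 {J : Submodule F (FL F)} (hJ : IsTIdeal F J) (h : Law hJ.relFree.carrier) {n : ℕ}
    (ω : Om1 n) (a : Fin n) : hJ.relFree.carrier :=
  ell h (fun i : Fin n => hJ.proj (X F i)) (E0 h) Finset.univ ω.1.2 ω.1.1 a

/-- `map_smon`, `smon_map`, `prs_conj` -/
theorem ev1_smul {J : Submodule F (FL F)} (hJ : IsTIdeal F J) (h : Law hJ.relFree.carrier) {n : ℕ}
    (g : Perm (Fin n)) (ψ : hJ.relFree.carrier →ₗ⁅F⁆ hJ.relFree.carrier)
    (hψ : ∀ f : FL F, ψ (hJ.proj f) = hJ.proj (ren (pext g) f)) (ω : Om1 n) (a : Fin n) :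
    ev1 hJ h (g • ω) (g a) = ψ (ev1 hJ h ω a) := by
  have hx : ∀ i : Fin n, ψ (hJ.proj (X F (i : ℕ))) = hJ.proj (X F (g i : ℕ)) := by
    intro i
    rw [hψ, ren_X, pext_coe]
  have hset : (Finset.univ \ {g a, g ω.1.2, (g * ω.1.1 * g⁻¹) (g a)} : Finset (Fin n)) =
      (Finset.univ \ {a, ω.1.2, ω.1.1 a} : Finset (Fin n)).image g := by
    rw [Perm.mul_apply, Perm.mul_apply, p_inv_self]
    ext x
    simp only [Finset.mem_sdiff, Finset.mem_univ, true_and, Finset.mem_insert,
      Finset.mem_singleton, Finset.mem_image, not_or]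
    constructor
    · rintro ⟨h1, h2, h3⟩
      refine ⟨g⁻¹ x, ⟨fun h => h1 ?_, fun h => h2 ?_, fun h => h3 ?_⟩, p_self_inv _ _⟩
      · rw [← h, p_self_inv]
      · rw [← h, p_self_inv]
      · rw [← h, p_self_inv]
    · rintro ⟨y, ⟨h1, h2, h3⟩, rfl⟩
      exact ⟨fun h => h1 (g.injective h), fun h => h2 (g.injective h), fun h => h3 (g.injective h)⟩
  change ⁅(smon h (fun i : Fin n => hJ.proj (X F (i : ℕ)))
      (prs (g * ω.1.1 * g⁻¹) (Finset.univ \ {g a, g ω.1.2, (g * ω.1.1 * g⁻¹) (g a)}))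
        (E0 h)).1 (hJ.proj (X F (g a : ℕ))) (hJ.proj (X F (g ω.1.2 : ℕ))),
      hJ.proj (X F ((g * ω.1.1 * g⁻¹) (g a) : ℕ))⁆ =
    ψ ⁅(smon h (fun i : Fin n => hJ.proj (X F (i : ℕ)))
      (prs ω.1.1 (Finset.univ \ {a, ω.1.2, ω.1.1 a}))
        (E0 h)).1 (hJ.proj (X F (a : ℕ))) (hJ.proj (X F (ω.1.2 : ℕ))),
      hJ.proj (X F (ω.1.1 a : ℕ))⁆
  rw [hset, prs_conj, smon_map, LieHom.map_lie]
  have h1 := map_smon h h (ψ : hJ.relFree.carrier →+ hJ.relFree.carrier)
    (fun x y => LieHom.map_lie ψ x y) (fun i : Fin n => hJ.proj (X F (i : ℕ)))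
    ((fun i : Fin n => hJ.proj (X F (i : ℕ))) ∘ g) hx
    (prs ω.1.1 (Finset.univ \ {a, ω.1.2, ω.1.1 a})) (E0 h) (E0 h)
    (fun u v => LieHom.map_lie ψ u v) (hJ.proj (X F (a : ℕ))) (hJ.proj (X F (ω.1.2 : ℕ)))
  have h2 : (g * ω.1.1 * g⁻¹) (g a) = g (ω.1.1 a) := by
    rw [Perm.mul_apply, Perm.mul_apply, p_inv_self]
  rw [h2, ← hx, ← hx, ← hx]
  congr 1
  exact h1.symm

/-- `TS_le_map` -/
theorem ev1_mem [CharZero F] {J : Submodule F (FL F)} (hJ : IsTIdeal F J)
    (h : Law hJ.relFree.carrier) {n : ℕ} (ω : Om1 n) (a : Fin n) (ha : a ≠ ω.1.2) :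
    ev1 hJ h ω a ∈ (P (F := F) n).map hJ.proj.toLinearMap := by
  apply TS_le_map hJ h (Multiset.range n)
  apply Submodule.subset_span
  right
  right
  refine ⟨_, _, _, _, cont3 ω a ha, ?_⟩
  rw [smon_map]
  rfl

/-- `map_mem_TS`, `exists_odd` -/
theorem ev1_span [CharZero F] {J : Submodule F (FL F)} (hJ : IsTIdeal F J)
    (h : Law hJ.relFree.carrier) {n : ℕ} (hn : Odd n) (hn3 : 3 ≤ n) {p : FL F} (hp : p ∈ P n) :
    hJ.proj p ∈ Submodule.span F {y | ∃ (ω : Om1 n) (a : Fin n), a ≠ ω.1.2 ∧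
      y = ev1 hJ h ω a} := by
  have h1 := map_mem_TS h (fun i => hJ.proj (X F i)) hJ.proj (fun i => rfl) hp
  refine Submodule.span_le.2 ?_ h1
  rintro y (⟨i, hi, rfl⟩ | ⟨M, c, d, hM, rfl⟩ | ⟨M, a, b, c, hM, rfl⟩)
  · have h2 := congrArg Multiset.card hi
    rw [Multiset.card_range, Multiset.card_singleton] at h2
    omega
  · have h2 := congrArg Multiset.card hM
    rw [Multiset.card_range, Multiset.card_cons, Multiset.card_cons, card_mc'] at h2
    obtain ⟨k, hk⟩ := hn
    omega
  · obtain ⟨σ, a', b', hv, hab, rfl, rfl, rfl, rfl⟩ := exists_odd n M a b c hM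
    apply Submodule.subset_span
    refine ⟨⟨(σ, b'), hv⟩, a', hab, ?_⟩
    rw [smon_map]
    rfl

/-- `P 1` is one dimensional. -/
theorem distP_one (J : Submodule F (FL F)) : DistP J 1 := by
  have hP : P (F := F) 1 ≤ Submodule.span F {X F 0} := by
    rw [P, HomC, Submodule.span_le]
    intro f hf
    have hf' : IsMonoC (Multiset.range 1) f := hf
    generalize hs : Multiset.range 1 = s at hf'
    cases hf' with
    | var i =>
      have h1 : ({0} : Multiset ℕ) = {i} := hs
      rw [Multiset.singleton_inj] at h1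
      rw [← h1]
      exact Submodule.mem_span_singleton_self _
    | @brac s t a b ha hb =>
      exfalso
      have h1 := congrArg Multiset.card hs
      rw [Multiset.card_range, Multiset.card_add] at h1
      have h2 := ha.card_pos
      have h3 := hb.card_pos
      omega
  have key : ∀ B : Submodule F (FL F), ∀ y ∈ P (F := F) 1, y ∈ B → y ≠ 0 → X F 0 ∈ B := by
    intro B y hy hyB hy0
    obtain ⟨c, rfl⟩ := Submodule.mem_span_singleton.1 (hP hy)
    have hc : c ≠ 0 := by
      rintro rfl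
      exact hy0 (zero_smul _ _)
    have h1 := B.smul_mem c⁻¹ hyB
    rwa [smul_smul, inv_mul_cancel₀ hc, one_smul] at h1
  intro A B C hA hB hC _ _ _ _ _ _ x hx
  obtain ⟨hxA, hxBC⟩ := Submodule.mem_inf.1 hx
  obtain ⟨y, hy, z, hz, hyz⟩ := Submodule.mem_sup.1 hxBC
  obtain ⟨c, hc⟩ := Submodule.mem_span_singleton.1 (hP (hA hxA))
  by_cases hy0 : y = 0
  · rw [hy0, zero_add] at hyz
    rw [← hyz]
    exact Submodule.mem_sup_right ⟨by rw [hyz]; exact hxA, hz⟩
  · have h1 := key B y (hB hy) hy hy0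
    refine Submodule.mem_sup_left ⟨hxA, ?_⟩
    rw [← hc]
    exact B.smul_mem c h1

end

end Pool.Agent.Lib.MP_b4a71d_al.S
end

section

/-!
# MP_b4a71d_al, S point: Theorem R, odd degree
-/

set_option autoImplicit false

namespace Pool.Agent.Lib.MP_b4a71d_al.S

universe u v

noncomputable section

open Equiv

variable {F : Type u} [Field F]

private theorem mv_conj {n : ℕ} (g : Perm (Fin n)) (a b : Fin n) (σ : Perm (Fin n)) :
    g * mv a b σ * g⁻¹ = mv (g a) (g b) (g * σ * g⁻¹) := by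
  have h1 : swap (g a) (g b) = g * swap a b * g⁻¹ := Equiv.swap_apply_apply g a b
  rw [mv, mv, h1]
  group

private theorem sum_delta {V : Type*} [AddCommGroup V] [Module F V] {Ω : Type v} [Fintype Ω]
    [DecidableEq Ω] (φ : Ω → V) (ω ω' : Ω) :
    (∑ η, ((if η = ω then (1 : F) else 0) - (if η = ω' then 1 else 0)) • φ η) = φ ω - φ ω' := by
  simp [sub_smul, Finset.sum_sub_distrib, ite_smul]

/-- Theorem R, odd degree. -/
theorem distP_odd' [CharZero F] {J : Submodule F (FL F)} (hJ : IsTIdeal F J) (hl : lawFL F ∈ J)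
    {n : ℕ} (hn : Odd n) : DistP J n := by
  classical
  by_cases hn1 : n = 1
  · subst hn1
    exact distP_one J
  have hn3 : 3 ≤ n := by
    obtain ⟨k, hk⟩ := hn
    omega
  have h := law_relFree hJ hl
  have hcard : Odd (Finset.univ : Finset (Fin n)).card := by
    rw [Finset.card_univ, Fintype.card_fin]
    exact hn
  obtain ⟨Φ, hΦ⟩ := potential (F := F) h (fun i : Fin n => hJ.proj (X F i)) Finset.univ hcard
    (E0 h)
  obtain ⟨b₀, σ₀, hv₀⟩ := exists_vert (Finset.univ : Finset (Fin n)) hcard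
  set ω₀ : Om1 n := ⟨(σ₀, b₀), hv₀⟩ with hω₀
  set φ : Om1 n → hJ.relFree.carrier := fun ω => Φ ω.1.2 ω.1.1 with hφ
  have hedge : ∀ (ω ω' : Om1 n) (a : Fin n), a ≠ ω.1.2 → ω'.1 = (mv a ω.1.2 ω.1.1, a) →
      φ ω - φ ω' = ev1 hJ h ω a := by
    intro ω ω' a ha hω'
    have h1 := hΦ ω.1.2 ω.1.1 a ω.2 (Finset.mem_univ a) ha
    rw [hφ]
    dsimp only
    rw [hω']
    exact h1
  set N : Submodule F hJ.relFree.carrier := (P (F := F) n).map hJ.proj.toLinearMap with hN
  have hconn : ∀ ω : Om1 n, φ ω - φ ω₀ ∈ N := by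
    intro ω
    have h1 := conn (Finset.univ : Finset (Fin n)) (fun b σ => N.mkQ (Φ b σ)) (by
      intro b σ a hv ha hab
      have h2 : Φ b σ - Φ a (mv a b σ) ∈ N := by
        rw [hΦ b σ a hv ha hab]
        exact ev1_mem hJ h (⟨(σ, b), hv⟩ : Om1 n) a hab
      exact (Submodule.Quotient.eq N).mpr h2) ω.1.2 ω.1.1 b₀ σ₀ ω.2 hv₀
    exact (Submodule.Quotient.eq N).mp h1
  have hlift : ∀ ω : Om1 n, ∃ q : FL F, q ∈ P n ∧ hJ.proj q = φ ω - φ ω₀ := by
    intro ω
    obtain ⟨q, hq, hq'⟩ := Submodule.mem_map.mp (hconn ω)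
    exact ⟨q, hq, hq'⟩
  choose q hqP hq using hlift
  set Ψ : (Om1 n → F) →ₗ[F] FL F :=
    ∑ ω, (LinearMap.proj (R := F) (φ := fun _ : Om1 n => F) ω).smulRight (q ω) with hΨ
  set T : (Om1 n → F) →ₗ[F] hJ.relFree.carrier :=
    ∑ ω, (LinearMap.proj (R := F) (φ := fun _ : Om1 n => F) ω).smulRight (φ ω) with hT
  have hΨa : ∀ f, Ψ f = ∑ ω, f ω • q ω := by
    intro f
    simp [hΨ, LinearMap.sum_apply]
  have hTa : ∀ f, T f = ∑ ω, f ω • φ ω := by
    intro f
    simp [hT, LinearMap.sum_apply]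
  have hTΨ : ∀ f ∈ sumZero F (Om1 n), hJ.proj (Ψ f) = T f := by
    intro f hf
    have hf' : ∑ ω, f ω = 0 := hf
    rw [hΨa, hTa, map_sum]
    have h1 : ∀ ω, hJ.proj (f ω • q ω) = f ω • φ ω - f ω • φ ω₀ := by
      intro ω
      rw [map_smul, hq, smul_sub]
    simp only [h1]
    rw [Finset.sum_sub_distrib, ← Finset.sum_smul, hf', zero_smul, sub_zero]
  have hTd : ∀ ω ω' : Om1 n, T (fun η => (if η = ω then (1 : F) else 0) -
      (if η = ω' then 1 else 0)) = φ ω - φ ω' := by
    intro ω ω'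
    rw [hTa]
    exact sum_delta φ ω ω'
  have hmemd : ∀ ω ω' : Om1 n, (fun η => (if η = ω then (1 : F) else 0) -
      (if η = ω' then 1 else 0)) ∈ sumZero F (Om1 n) := by
    intro ω ω'
    change ∑ η : Om1 n, ((if η = ω then (1 : F) else 0) - (if η = ω' then 1 else 0)) = 0
    simp
  have hW : Stab (funRep F (Perm (Fin n)) (Om1 n)) (sumZero F (Om1 n)) := by
    intro g f hf
    have hf' : ∑ ω, f ω = 0 := hf
    change ∑ ω, f (g⁻¹ • ω) = 0
    rw [← hf']
    exact Equiv.sum_comp (MulAction.toPerm g⁻¹) f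
  have hd : DistBetween (funRep F (Perm (Fin n)) (Om1 n)) ⊥ (sumZero F (Om1 n)) := by
    intro A B C hA hB hC h1 h2 h3 _ _ _
    exact dist_odd (F := F) n A B C hA hB hC h1 h2 h3 le_top le_top le_top
  refine distP_of_fun hJ (sumZero F (Om1 n)) hW hd Ψ ?_ ?_ ?_
  · intro f _
    rw [hΨa]
    exact Submodule.sum_mem _ fun ω _ => Submodule.smul_mem _ _ (hqP ω)
  · intro p hp
    have h1 := ev1_span hJ h hn hn3 hp
    have h2 : Submodule.span F {y | ∃ (ω : Om1 n) (a : Fin n), a ≠ ω.1.2 ∧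
        y = ev1 hJ h ω a} ≤ (sumZero F (Om1 n)).map T := by
      rw [Submodule.span_le]
      rintro y ⟨ω, a, ha, rfl⟩
      have hv' := ω.2.mv_vert (Finset.mem_univ a) ha
      set ω' : Om1 n := ⟨(mv a ω.1.2 ω.1.1, a), hv'⟩ with hω'
      refine Submodule.mem_map.mpr ⟨_, hmemd ω ω', ?_⟩
      rw [hTd]
      exact hedge ω ω' a ha rfl
    obtain ⟨f, hf, hfp⟩ := Submodule.mem_map.mp (h2 h1)
    refine ⟨f, hf, ?_⟩
    rw [← hJ.proj_eq_zero, map_sub, hTΨ f hf, hfp, sub_self]
  · intro g f hf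
    obtain ⟨ψ, hψ⟩ := exists_act hJ (pext g)
    rw [← hJ.proj_eq_zero, map_sub, sub_eq_zero, ← hψ, hTΨ _ (hW g f hf), hTΨ f hf]
    have h1 := sumZero_le_span (F := F) n f hf
    clear hf
    induction h1 using Submodule.span_induction with
    | mem x hx =>
      obtain ⟨ω, ω', a, ha, hω', hx⟩ := hx
      have hx' : x = fun η => (if η = ω then (1 : F) else 0) - (if η = ω' then 1 else 0) := by
        rw [hx]
      have hgx : funRep F (Perm (Fin n)) (Om1 n) g x =
          fun η => (if η = g • ω then (1 : F) else 0) - (if η = g • ω' then 1 else 0) := by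
        rw [hx']
        funext η
        change (if g⁻¹ • η = ω then (1 : F) else 0) - (if g⁻¹ • η = ω' then 1 else 0) = _
        simp only [inv_smul_eq_iff]
      rw [hgx, hx', hTd, hTd, hedge ω ω' a ha hω', ← ev1_smul hJ h g ψ hψ ω a]
      refine hedge (g • ω) (g • ω') (g a) ?_ ?_
      · intro h2
        exact ha (g.injective h2)
      · change (g * ω'.1.1 * g⁻¹, g ω'.1.2) = (mv (g a) (g ω.1.2) (g * ω.1.1 * g⁻¹), g a)
        rw [hω', ← mv_conj]
    | zero => simp
    | add x y _ _ hx hy => rw [map_add, map_add, map_add, map_add, hx, hy]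
    | smul c x _ hx => rw [map_smul, map_smul, map_smul, map_smul, hx]

end

end Pool.Agent.Lib.MP_b4a71d_al.S
end

section

/-!
# The point S: all levels are distributive
-/

set_option autoImplicit false

namespace Pool.Agent.Lib.MP_b4a71d_al.S

universe u

noncomputable section

variable {F : Type u} [Field F]

/-- The lattice of T-ideals containing `J` is distributive. -/
theorem distT_J [CharZero F] {J : Submodule F (FL F)} (hJ : IsTIdeal F J) (hl : lawFL F ∈ J) :
    DistT J := by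
  rw [distT_iff]
  intro n _
  apply distAt_of_distP
  rcases Nat.even_or_odd n with hn | hn
  · exact distP_even hJ hl hn
  · exact distP_odd' hJ hl hn

theorem levelGood_J [CharZero F] {J : Submodule F (FL F)} (hJ : IsTIdeal F J) (hl : lawFL F ∈ J)
    (k d : ℕ) : LevelGood J k d :=
  levelGood_of_distT hJ (distT_J hJ hl) k d

end

end Pool.Agent.Lib.MP_b4a71d_al.S
end
end
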